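import Pool.Agent.Hilo.Defs5
import Pool.Agent.Grain.Geo

/-! The angle at a far point which nearly lies on the line through two near points. -/

set_option autoImplicit false

namespace Hilo

open Finset

theorem angle_near {a b c : EuclideanSpace ℝ (Fin 2)} {r u : ℝ} {x₀ p q s : ℝ × ℝ} (hr : 0 < r)
    (ha : a 0 = x₀.1 + r * p.1 ∧ a 1 = x₀.2 + r * p.2)
    (hb : b 0 = x₀.1 + r * q.1 ∧ b 1 = x₀.2 + r * q.2)
    (hc : c 0 = x₀.1 + r * s.1 ∧ c 1 = x₀.2 + r * s.2)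
    (hp : p.1 ≤ 1 / 4) (hs : 1 / 2 ≤ s.1) (hpq : p.1 ≠ q.1) (hu : |q.1 - p.1| ≤ u)
    (hu8 : u ≤ 1 / 8) (hy : |q.2 - p.2| ≤ |q.1 - p.1| / 4) :
    EuclideanGeometry.angle a c b ≤ 51 * u * |V s (lin (p, q))| := by
  obtain ⟨ha0, ha1⟩ := ha
  obtain ⟨hb0, hb1⟩ := hb
  obtain ⟨hc0, hc1⟩ := hc
  have hq1 : |q.1 - p.1| ≤ 1 / 8 := hu.trans hu8
  obtain ⟨d1, d2⟩ := abs_le.1 hq1
  obtain ⟨e1, e2⟩ := abs_le.1 hy
  have hr2 : 0 < r ^ 2 := by positivity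
  have x0 : (a -ᵥ c) 0 = r * (p.1 - s.1) := by
    rw [vsub_eq_sub, PiLp.sub_apply, ha0, hc0]; ring
  have x1 : (a -ᵥ c) 1 = r * (p.2 - s.2) := by
    rw [vsub_eq_sub, PiLp.sub_apply, ha1, hc1]; ring
  have y0 : (b -ᵥ c) 0 = r * (q.1 - s.1) := by
    rw [vsub_eq_sub, PiLp.sub_apply, hb0, hc0]; ring
  have y1 : (b -ᵥ c) 1 = r * (q.2 - s.2) := by
    rw [vsub_eq_sub, PiLp.sub_apply, hb1, hc1]; ring
  have hin : 0 ≤ inner ℝ (a -ᵥ c) (b -ᵥ c) := by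
    rw [Pool.Agent.Grain.inner_pl, x0, x1, y0, y1]
    have h1 : 1 / 4 * (1 / 8) ≤ (s.1 - p.1) * (s.1 - q.1) :=
      mul_le_mul (by linarith) (by linarith) (by norm_num) (by linarith)
    have h2 : -(1 / 64) ≤ (p.2 - s.2) * (q.2 - s.2) := by
      have h3 : |q.2 - p.2| ≤ 1 / 8 := by linarith [abs_nonneg (q.1 - p.1)]
      obtain ⟨h4, h5⟩ := abs_le.1 h3
      nlinarith [sq_nonneg ((p.2 - s.2) + (q.2 - s.2))]
    have h3 : r * (p.1 - s.1) * (r * (q.1 - s.1)) + r * (p.2 - s.2) * (r * (q.2 - s.2)) =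
        r ^ 2 * ((s.1 - p.1) * (s.1 - q.1) + (p.2 - s.2) * (q.2 - s.2)) := by ring
    rw [h3]
    apply mul_nonneg hr2.le
    linarith
  have nx : r / 4 ≤ ‖a -ᵥ c‖ := by
    apply le_of_sq_le_sq _ (norm_nonneg _)
    rw [Pool.Agent.Grain.norm_sq_pl, x0, x1]
    have h1 : (1 / 4 : ℝ) ^ 2 ≤ (s.1 - p.1) ^ 2 := by
      apply pow_le_pow_left₀ (by norm_num); linarith
    have h2 : r ^ 2 * (1 / 4) ^ 2 ≤ r ^ 2 * (s.1 - p.1) ^ 2 := mul_le_mul_of_nonneg_left h1 hr2.le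
    nlinarith [sq_nonneg (r * (p.2 - s.2))]
  have ny : r / 8 ≤ ‖b -ᵥ c‖ := by
    apply le_of_sq_le_sq _ (norm_nonneg _)
    rw [Pool.Agent.Grain.norm_sq_pl, y0, y1]
    have h1 : (1 / 8 : ℝ) ^ 2 ≤ (s.1 - q.1) ^ 2 := by
      apply pow_le_pow_left₀ (by norm_num); linarith
    have h2 : r ^ 2 * (1 / 8) ^ 2 ≤ r ^ 2 * (s.1 - q.1) ^ 2 := mul_le_mul_of_nonneg_left h1 hr2.le
    nlinarith [sq_nonneg (r * (q.2 - s.2))]
  have hx : 0 < ‖a -ᵥ c‖ := by linarith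
  have hy' : 0 < ‖b -ᵥ c‖ := by linarith
  have hang := Pool.Agent.Grain.angle_le hin hx hy'
  have hcr : |Pool.Agent.Grain.cr (a -ᵥ c) (b -ᵥ c)| ≤ r ^ 2 * (u * |V s (lin (p, q))|) := by
    have hne : q.1 - p.1 ≠ 0 := sub_ne_zero.2 hpq.symm
    have h1 : Pool.Agent.Grain.cr (a -ᵥ c) (b -ᵥ c) =
        r ^ 2 * ((q.1 - p.1) * V s (lin (p, q))) := by
      rw [Pool.Agent.Grain.cr, x0, x1, y0, y1]
      simp only [V, lin]
      field_simp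
      ring
    rw [h1, abs_mul, abs_of_pos hr2, abs_mul]
    exact mul_le_mul_of_nonneg_left (mul_le_mul_of_nonneg_right hu (abs_nonneg _)) hr2.le
  have hprod : r ^ 2 / 32 ≤ ‖a -ᵥ c‖ * ‖b -ᵥ c‖ := by
    have := mul_le_mul nx ny (by positivity) hx.le
    calc r ^ 2 / 32 = r / 4 * (r / 8) := by ring
      _ ≤ _ := this
  obtain ⟨t, ht⟩ : ∃ t, t = EuclideanGeometry.angle a c b := ⟨_, rfl⟩
  have ht0 : 0 ≤ t := by rw [ht]; exact EuclideanGeometry.angle_nonneg _ _ _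
  have hang' : t * (‖a -ᵥ c‖ * ‖b -ᵥ c‖) ≤
      Real.pi / 2 * |Pool.Agent.Grain.cr (a -ᵥ c) (b -ᵥ c)| := by
    rw [ht]; exact hang
  have h1 : t * (r ^ 2 / 32) ≤ Real.pi / 2 * (r ^ 2 * (u * |V s (lin (p, q))|)) := by
    have h2 := mul_le_mul_of_nonneg_left hprod ht0
    have h3 := mul_le_mul_of_nonneg_left hcr (by positivity : (0 : ℝ) ≤ Real.pi / 2)
    linarith
  obtain ⟨w, hw⟩ : ∃ w, w = u * |V s (lin (p, q))| := ⟨_, rfl⟩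
  have hu0 : 0 ≤ u := (abs_nonneg _).trans hu
  have hw0 : 0 ≤ w := by rw [hw]; exact mul_nonneg hu0 (abs_nonneg _)
  rw [← hw] at h1
  have hpi : Real.pi < 3.15 := Real.pi_lt_d2
  have h4 : r ^ 2 * t ≤ r ^ 2 * (16 * Real.pi * w) := by nlinarith
  have h5 : t ≤ 16 * Real.pi * w := le_of_mul_le_mul_left h4 hr2
  rw [← ht, mul_assoc, ← hw]
  nlinarith

end Hilo
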