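import Pool.Agent.Hilo.Rect46

/-! # Zooming into a square in which the points are nearly uniform at scale `1/m` -/

set_option autoImplicit false

namespace Hilo

/-- the points of `X` in the half open square with lower left corner `x` and side `r` -/
noncomputable def sqr48 (X : Finset (ℝ × ℝ)) (x : ℝ × ℝ) (r : ℝ) : Finset (ℝ × ℝ) :=
  X.filter (fun p => x.1 ≤ p.1 ∧ p.1 < x.1 + r ∧ x.2 ≤ p.2 ∧ p.2 < x.2 + r)

/-- the rescaled points of the square -/
noncomputable def rsc48 (X : Finset (ℝ × ℝ)) (x : ℝ × ℝ) (r : ℝ) : Finset (ℝ × ℝ) := by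
  classical
  exact (sqr48 X x r).image (fun p => ((p.1 - x.1) / r, (p.2 - x.2) / r))

theorem mem_rsc48 {X : Finset (ℝ × ℝ)} {x : ℝ × ℝ} {r : ℝ} (hr : 0 < r) {p : ℝ × ℝ} :
    p ∈ rsc48 X x r ↔ (x.1 + r * p.1, x.2 + r * p.2) ∈ sqr48 X x r := by
  classical
  unfold rsc48
  rw [Finset.mem_image]
  constructor
  · rintro ⟨q, hq, rfl⟩
    have e1 : x.1 + r * ((q.1 - x.1) / r) = q.1 := by field_simp; ring
    have e2 : x.2 + r * ((q.2 - x.2) / r) = q.2 := by field_simp; ring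
    simp only
    rw [e1, e2]
    exact hq
  · intro h
    refine ⟨_, h, ?_⟩
    ext
    · simp only; field_simp; ring
    · simp only; field_simp; ring

theorem card_rsc48 {X : Finset (ℝ × ℝ)} {x : ℝ × ℝ} {r : ℝ} (hr : 0 < r) :
    (rsc48 X x r).card = (sqr48 X x r).card := by
  classical
  unfold rsc48
  apply Finset.card_image_of_injective
  intro p q hpq
  simp only [Prod.mk.injEq] at hpq
  obtain ⟨h1, h2⟩ := hpq
  rw [div_left_inj' hr.ne'] at h1 h2
  ext <;> linarith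

theorem inSq_rsc48 {X : Finset (ℝ × ℝ)} {x : ℝ × ℝ} {r : ℝ} (hr : 0 < r) :
    InSq (rsc48 X x r) := by
  intro p hp
  rw [mem_rsc48 hr] at hp
  unfold sqr48 at hp
  rw [Finset.mem_filter] at hp
  obtain ⟨-, h1, h2, h3, h4⟩ := hp
  simp only at h1 h2 h3 h4
  refine ⟨?_, ?_, ?_, ?_⟩
  · by_contra hn; push Not at hn; nlinarith
  · by_contra hn; push Not at hn; nlinarith
  · by_contra hn; push Not at hn; nlinarith
  · by_contra hn; push Not at hn; nlinarith

theorem sep_rsc48 {X : Finset (ℝ × ℝ)} {x : ℝ × ℝ} {r h : ℝ} (hr : 0 < r) (hX : Sep h X) :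
    Sep (h / r) (rsc48 X x r) := by
  intro p hp q hq hpq
  rw [mem_rsc48 hr] at hp hq
  unfold sqr48 at hp hq
  have hp' := (Finset.mem_filter.mp hp).1
  have hq' := (Finset.mem_filter.mp hq).1
  have hne : ((x.1 + r * p.1, x.2 + r * p.2) : ℝ × ℝ) ≠ (x.1 + r * q.1, x.2 + r * q.2) := by
    intro he
    rw [Prod.mk.injEq] at he
    apply hpq
    ext
    · have h1 : r * p.1 = r * q.1 := by linarith [he.1]
      exact mul_left_cancel₀ hr.ne' h1
    · have h1 : r * p.2 = r * q.2 := by linarith [he.2]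
      exact mul_left_cancel₀ hr.ne' h1
  rcases hX _ hp' _ hq' hne with h1 | h1
  · left
    simp only at h1
    have e : x.1 + r * p.1 - (x.1 + r * q.1) = r * (p.1 - q.1) := by ring
    rw [e, abs_mul, abs_of_pos hr] at h1
    rw [div_le_iff₀ hr]
    linarith
  · right
    simp only at h1
    have e : x.2 + r * p.2 - (x.2 + r * q.2) = r * (p.2 - q.2) := by ring
    rw [e, abs_mul, abs_of_pos hr] at h1
    rw [div_le_iff₀ hr]
    linarith

/-- a square which is not nearly uniform contains a denser cell -/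
theorem step48 {m : ℕ} (hm : 2 ≤ m) {η : ℝ} {X : Finset (ℝ × ℝ)} {x : ℝ × ℝ} {r : ℝ} (hr : 0 < r)
    (hU : ¬ Unif m η (rsc48 X x r)) :
    ∃ x' : ℝ × ℝ, (1 + η) * (sqr48 X x r).card / m ^ 2 < (sqr48 X x' (r / m)).card := by
  classical
  unfold Unif at hU
  push Not at hU
  obtain ⟨i, j, hij⟩ := hU
  have hm0 : (0 : ℝ) < m := by
    have : 0 < m := by omega
    exact_mod_cast this
  refine ⟨(x.1 + r * (i / m), x.2 + r * (j / m)), ?_⟩
  rw [card_rsc48 hr] at hij
  refine lt_of_lt_of_le hij ?_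
  rw [Nat.cast_le]
  apply Finset.card_le_card_of_injOn (fun p => (x.1 + r * p.1, x.2 + r * p.2))
  · intro p hp
    rw [Finset.mem_coe, Finset.mem_filter] at hp
    obtain ⟨hp0, h1, h2, h3, h4⟩ := hp
    rw [mem_rsc48 hr] at hp0
    unfold sqr48 at hp0
    have hp1 := (Finset.mem_filter.mp hp0).1
    rw [Finset.mem_coe]
    unfold sqr48
    rw [Finset.mem_filter]
    refine ⟨hp1, ?_, ?_, ?_, ?_⟩
    · simp only
      have := mul_le_mul_of_nonneg_left h1 hr.le
      linarith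
    · simp only
      have h5 := mul_lt_mul_of_pos_left h2 hr
      have e : r * (((i : ℝ) + 1) / m) = r * (i / m) + r / m := by ring
      linarith
    · simp only
      have := mul_le_mul_of_nonneg_left h3 hr.le
      linarith
    · simp only
      have h5 := mul_lt_mul_of_pos_left h4 hr
      have e : r * (((j : ℝ) + 1) / m) = r * (j / m) + r / m := by ring
      linarith
  · intro p _ q _ hpq
    simp only [Prod.mk.injEq] at hpq
    ext
    · have h1 : r * p.1 = r * q.1 := by linarith [hpq.1]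
      exact mul_left_cancel₀ hr.ne' h1
    · have h1 : r * p.2 = r * q.2 := by linarith [hpq.2]
      exact mul_left_cancel₀ hr.ne' h1

theorem zoom (m : ℕ) (hm : 2 ≤ m) (η : ℝ) (hη : 0 < η) (c : ℝ) (hc : 0 < c) :
    ∃ r₀ : ℝ, 0 < r₀ ∧ ∃ n₀ : ℕ, ∀ n : ℕ, n₀ ≤ n → ∀ X : Finset (ℝ × ℝ), X.card = n →
      (∀ p ∈ X, |p.1| ≤ 1 ∧ |p.2| ≤ 1) → Sep (c / √n) X →
      ∃ (r : ℝ) (x₀ : ℝ × ℝ) (P : Finset (ℝ × ℝ)), r₀ ≤ r ∧ r ≤ 4 ∧
        (∀ p ∈ P, (x₀.1 + r * p.1, x₀.2 + r * p.2) ∈ X) ∧ InSq P ∧ Sep (c / √n / r) P ∧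
        Unif m η P ∧ c ^ 2 / 16 ≤ P.card * (c / √n / r) ^ 2 := by
  have hm0 : (0 : ℝ) < m := by
    have : 0 < m := by omega
    exact_mod_cast this
  have hm1 : (1 : ℝ) ≤ m := by
    have : 1 ≤ m := by omega
    exact_mod_cast this
  obtain ⟨I, hI⟩ := pow_unbounded_of_one_lt (144 / c ^ 2) (by linarith : (1 : ℝ) < 1 + η)
  have hmI : (0 : ℝ) < (m : ℝ) ^ I := by positivity
  refine ⟨4 / (m : ℝ) ^ I, by positivity, ⌈(c * (m : ℝ) ^ I / 4) ^ 2⌉₊ + 1, ?_⟩
  intro n hn X hXn hX1 hXs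
  have hn0 : 0 < n := by omega
  have hnR : (0 : ℝ) < n := by exact_mod_cast hn0
  have hsn : 0 < √(n : ℝ) := Real.sqrt_pos.mpr hnR
  have hsq : √(n : ℝ) ^ 2 = n := Real.sq_sqrt hnR.le
  have hbig : c * (m : ℝ) ^ I / 4 ≤ √(n : ℝ) := by
    apply Real.le_sqrt_of_sq_le
    have h1 := Nat.le_ceil ((c * (m : ℝ) ^ I / 4) ^ 2)
    have h2 : ((⌈(c * (m : ℝ) ^ I / 4) ^ 2⌉₊ : ℕ) : ℝ) ≤ n := by
      have : ⌈(c * (m : ℝ) ^ I / 4) ^ 2⌉₊ ≤ n := by omega
      exact_mod_cast this
    linarith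
  have key : ∀ i : ℕ, i ≤ I →
      (∃ (r : ℝ) (x₀ : ℝ × ℝ) (P : Finset (ℝ × ℝ)), 4 / (m : ℝ) ^ I ≤ r ∧ r ≤ 4 ∧
        (∀ p ∈ P, (x₀.1 + r * p.1, x₀.2 + r * p.2) ∈ X) ∧ InSq P ∧ Sep (c / √n / r) P ∧
        Unif m η P ∧ c ^ 2 / 16 ≤ P.card * (c / √n / r) ^ 2) ∨
      ∃ x : ℝ × ℝ, (1 + η) ^ i * n / ((m : ℝ) ^ i) ^ 2 ≤ (sqr48 X x (4 / (m : ℝ) ^ i)).card := by
    intro i
    induction i with
    | zero =>
      intro _
      right
      refine ⟨(-2, -2), ?_⟩
      have hall : sqr48 X (-2, -2) (4 / (m : ℝ) ^ 0) = X := by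
        unfold sqr48
        rw [Finset.filter_true_of_mem]
        intro p hp
        obtain ⟨h1, h2⟩ := hX1 p hp
        rw [abs_le] at h1 h2
        norm_num
        refine ⟨?_, ?_, ?_, ?_⟩ <;> linarith [h1.1, h1.2, h2.1, h2.2]
      rw [hall, hXn]
      norm_num
    | succ i ih =>
      intro hiI
      rcases ih (by omega) with hgood | ⟨x, hx⟩
      · left; exact hgood
      · have hmi : (0 : ℝ) < (m : ℝ) ^ i := by positivity
        have hri : 0 < 4 / (m : ℝ) ^ i := by positivity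
        by_cases hU : Unif m η (rsc48 X x (4 / (m : ℝ) ^ i))
        · left
          refine ⟨4 / (m : ℝ) ^ i, x, rsc48 X x (4 / (m : ℝ) ^ i), ?_, ?_, ?_, inSq_rsc48 hri,
            sep_rsc48 hri hXs, hU, ?_⟩
          · apply div_le_div_of_nonneg_left (by norm_num) hmi
            exact pow_le_pow_right₀ hm1 (by omega)
          · rw [div_le_iff₀ hmi]
            have : (1 : ℝ) ≤ (m : ℝ) ^ i := one_le_pow₀ hm1
            linarith
          · intro p hp
            rw [mem_rsc48 hri] at hp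
            unfold sqr48 at hp
            exact (Finset.mem_filter.mp hp).1
          · rw [card_rsc48 hri]
            have h1 : (n : ℝ) / ((m : ℝ) ^ i) ^ 2 ≤ (sqr48 X x (4 / (m : ℝ) ^ i)).card := by
              refine le_trans ?_ hx
              apply div_le_div_of_nonneg_right _ (by positivity)
              have : (1 : ℝ) ≤ (1 + η) ^ i := one_le_pow₀ (by linarith)
              nlinarith
            have e : (c / √(n : ℝ) / (4 / (m : ℝ) ^ i)) ^ 2 =
                c ^ 2 * ((m : ℝ) ^ i) ^ 2 / (16 * n) := by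
              rw [div_pow, div_pow, div_pow, hsq]
              field_simp
              norm_num
            rw [e]
            have h2 := mul_le_mul_of_nonneg_right h1
              (by positivity : 0 ≤ c ^ 2 * ((m : ℝ) ^ i) ^ 2 / (16 * n))
            have e2 : (n : ℝ) / ((m : ℝ) ^ i) ^ 2 * (c ^ 2 * ((m : ℝ) ^ i) ^ 2 / (16 * n)) =
                c ^ 2 / 16 := by
              field_simp
            linarith
        · right
          obtain ⟨x', hx'⟩ := step48 hm hri hU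
          refine ⟨x', ?_⟩
          have e3 : 4 / (m : ℝ) ^ i / m = 4 / (m : ℝ) ^ (i + 1) := by
            rw [pow_succ, div_div]
          rw [e3] at hx'
          refine le_trans ?_ hx'.le
          have e4 : (1 + η) ^ (i + 1) * n / ((m : ℝ) ^ (i + 1)) ^ 2 =
              (1 + η) * ((1 + η) ^ i * n / ((m : ℝ) ^ i) ^ 2) / m ^ 2 := by
            field_simp
            ring
          rw [e4]
          apply div_le_div_of_nonneg_right _ (by positivity)
          exact mul_le_mul_of_nonneg_left hx (by linarith)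
  rcases key I le_rfl with hgood | ⟨x, hx⟩
  · exact hgood
  · exfalso
    obtain ⟨h, hh⟩ : ∃ h : ℝ, h = c / √(n : ℝ) := ⟨_, rfl⟩
    obtain ⟨r, hr⟩ : ∃ r : ℝ, r = 4 / (m : ℝ) ^ I := ⟨_, rfl⟩
    have hh0 : 0 < h := by rw [hh]; positivity
    have hr0 : 0 < r := by rw [hr]; positivity
    rw [← hh] at hXs
    rw [← hr] at hx
    have hhr : h ≤ r := by
      rw [hh, hr, div_le_div_iff₀ hsn hmI]
      linarith
    have hrect := card_rect hh0 hXs (α := 0) (a := x.1) (b := x.2) (l₁ := r) (l₂ := r)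
      (by simp) hr0.le hr0.le
    have hsub : ((sqr48 X x r).card : ℝ) ≤ (2 * r / h + 1) * (2 * r / h + 1) := by
      refine le_trans ?_ hrect
      rw [Nat.cast_le]
      apply Finset.card_le_card
      intro p hp
      unfold sqr48 at hp
      rw [Finset.mem_filter] at hp ⊢
      obtain ⟨h0, h1, h2, h3, h4⟩ := hp
      refine ⟨h0, h1, h2.le, ?_, ?_⟩ <;> linarith
    have hr3 : 2 * r / h + 1 ≤ 3 * r / h := by
      have : 1 ≤ r / h := by rw [le_div_iff₀ hh0]; linarith
      have e : 3 * r / h = 2 * r / h + r / h := by ring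
      linarith
    have hb : ((sqr48 X x r).card : ℝ) ≤ (3 * r / h) * (3 * r / h) := by
      refine le_trans hsub ?_
      have : 0 ≤ 2 * r / h + 1 := by positivity
      exact mul_le_mul hr3 hr3 this (by positivity)
    have e : (3 * r / h) * (3 * r / h) = 144 / c ^ 2 * (n / ((m : ℝ) ^ I) ^ 2) := by
      rw [hr, hh]
      have : (3 * (4 / (m : ℝ) ^ I) / (c / √(n : ℝ))) * (3 * (4 / (m : ℝ) ^ I) / (c / √(n : ℝ))) =
          144 * √(n : ℝ) ^ 2 / (c ^ 2 * ((m : ℝ) ^ I) ^ 2) := by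
        field_simp
        ring
      rw [this, hsq]
      field_simp
    rw [e] at hb
    have e5 : (1 + η) ^ I * n / ((m : ℝ) ^ I) ^ 2 = (1 + η) ^ I * (n / ((m : ℝ) ^ I) ^ 2) := by
      ring
    rw [e5] at hx
    have hpos : 0 < (n : ℝ) / ((m : ℝ) ^ I) ^ 2 := by positivity
    have := mul_lt_mul_of_pos_right hI hpos
    linarith

end Hilo
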