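import Pool.Agent.Hilo.Trivial
import Pool.Agent.Hilo.Angle83
import Pool.Agent.Hilo.Zoom48

/-!
# From a configuration in the disk to a uniform piece with empty tubes
-/

set_option autoImplicit false

namespace Hilo

open Finset

theorem coord_le28 (x : EuclideanSpace ℝ (Fin 2)) (i : Fin 2) : |x i| ≤ ‖x‖ := by
  have := PiLp.norm_apply_le x i
  rwa [Real.norm_eq_abs] at this

theorem dist_le28 (x y : EuclideanSpace ℝ (Fin 2)) : dist x y ≤ |x 0 - y 0| + |x 1 - y 1| := by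
  rw [EuclideanSpace.dist_eq, Fin.sum_univ_two, Real.dist_eq, Real.dist_eq, Real.sqrt_le_left
    (by positivity)]
  nlinarith [abs_nonneg (x 0 - y 0), abs_nonneg (x 1 - y 1)]

theorem rpow_neg28 {n : ℝ} (hn : 0 < n) : n ^ (-(3 / 2 : ℝ)) = 1 / (n * √n) := by
  rw [Real.rpow_neg hn.le, Real.sqrt_eq_rpow, ← Real.rpow_one_add' hn.le (by norm_num), one_div]
  norm_num

theorem setup (c : ℝ) (hc : 0 < c) : ∃ σ : ℝ, 0 < σ ∧ ∃ α : ℝ, 0 < α ∧ ∀ m : ℕ, 2 ≤ m →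
    ∀ η : ℝ, 0 < η → ∃ r₀ : ℝ, 0 < r₀ ∧ ∃ n₀ : ℕ, ∀ n : ℕ, n₀ ≤ n →
    ∀ X : Fin n → EuclideanSpace ℝ (Fin 2), Function.Injective X → (∀ i, ‖X i‖ ≤ 1) →
    ∀ D A : ℝ, 0 ≤ D → 0 ≤ A → (∀ i j : Fin n, i ≠ j → D ≤ dist (X i) (X j)) →
    (∀ i j k : Fin n, i ≠ j → j ≠ k → i ≠ k → A ≤ EuclideanGeometry.angle (X i) (X j) (X k)) →
    c * (n : ℝ) ^ (-(3 / 2 : ℝ)) ≤ D * A →
    ∃ (r : ℝ) (x₀ : ℝ × ℝ) (P : Finset (ℝ × ℝ)), r₀ ≤ r ∧ r ≤ 4 ∧
      (∀ p ∈ P, ∃ i : Fin n, X i 0 = x₀.1 + r * p.1 ∧ X i 1 = x₀.2 + r * p.2) ∧ InSq P ∧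
      Sep (σ / √n / r) P ∧ Unif m η P ∧ σ ^ 2 / 16 ≤ P.card * (σ / √n / r) ^ 2 ∧
      (∀ (u : ℝ) (e : (ℝ × ℝ) × (ℝ × ℝ)), u ≤ 1 / 8 → Near u P {e} → Lft e.1 →
        ∀ s ∈ P, 1 / 2 ≤ s.1 → α / (n * u) ≤ |V s (lin e)|) := by
  classical
  obtain ⟨C1, hC1, hdist⟩ := dist_bound
  obtain ⟨C2, hC2, hang⟩ := angle_bound
  obtain ⟨cs, hcsd⟩ : ∃ cs, cs = c / C2 / 2 := ⟨_, rfl⟩
  have hcs : 0 < cs := by rw [hcsd]; positivity
  refine ⟨cs, hcs, c / C1 / 51, by positivity, fun m hm η hη => ?_⟩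
  obtain ⟨r₀, hr₀, n₁, hz⟩ := zoom m hm η hη cs hcs
  refine ⟨r₀, hr₀, max n₁ 3, fun n hn X hX hX1 D A hD hA hd ha hDA => ?_⟩
  have hn1 : n₁ ≤ n := le_trans (le_max_left _ _) hn
  have hn3 : 3 ≤ n := le_trans (le_max_right _ _) hn
  have hn0 : (0 : ℝ) < n := by exact_mod_cast (by omega : 0 < n)
  have hsq : 0 < √(n : ℝ) := Real.sqrt_pos.2 hn0
  have hss : √(n : ℝ) ^ 2 = n := Real.sq_sqrt hn0.le
  have hA' : A ≤ C2 / n := hang n X A hn3 hX ha
  have hD' : D ≤ C1 / √n := hdist n X D (by omega) hX1 hd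
  rw [rpow_neg28 hn0, mul_one_div] at hDA
  have hDlow : 2 * cs / √n ≤ D := by
    have h1 : c / (n * √n) ≤ D * (C2 / n) := hDA.trans (mul_le_mul_of_nonneg_left hA' hD)
    rw [div_le_iff₀ (by positivity)] at h1
    have h2 : D * (C2 / n) * (n * √n) = D * C2 * √n := by field_simp
    rw [h2] at h1
    have h3 : 2 * cs = c / C2 := by rw [hcsd]; ring
    rw [h3, div_le_iff₀ hsq, div_le_iff₀ hC2]
    linarith
  have hAlow : c / C1 / n ≤ A := by
    have h1 : c / (n * √n) ≤ C1 / √n * A := hDA.trans (mul_le_mul_of_nonneg_right hD' hA)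
    rw [div_le_iff₀ (by positivity)] at h1
    have h2 : C1 / √n * A * (n * √n) = C1 * A * n := by field_simp
    rw [h2] at h1
    rw [div_le_iff₀ hn0, div_le_iff₀ hC1]
    linarith
  set f : Fin n → ℝ × ℝ := fun i => (X i 0, X i 1) with hf
  have hfi : Function.Injective f := by
    intro i j hij
    apply hX
    have h1 : X i 0 = X j 0 := congrArg Prod.fst hij
    have h2 : X i 1 = X j 1 := congrArg Prod.snd hij
    ext k
    fin_cases k
    · exact h1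
    · exact h2
  have hcard : (Finset.univ.image f).card = n := by
    rw [Finset.card_image_of_injective _ hfi, Finset.card_univ, Fintype.card_fin]
  obtain ⟨r, x₀, P, g1, g2, g3, g4, g5, g6, g7⟩ := hz n hn1 (Finset.univ.image f) hcard
    (by
      intro p hp
      obtain ⟨i, _, rfl⟩ := Finset.mem_image.1 hp
      exact ⟨(coord_le28 _ _).trans (hX1 i), (coord_le28 _ _).trans (hX1 i)⟩)
    (by
      intro p hp q hq hpq
      obtain ⟨i, _, rfl⟩ := Finset.mem_image.1 hp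
      obtain ⟨j, _, rfl⟩ := Finset.mem_image.1 hq
      have hij : i ≠ j := fun h => hpq (by rw [h])
      by_contra hcon
      push Not at hcon
      have h1 := (hd i j hij).trans (dist_le28 _ _)
      have h2 : |X i 0 - X j 0| < cs / √n := hcon.1
      have h3 : |X i 1 - X j 1| < cs / √n := hcon.2
      have h4 : 2 * cs / √n = cs / √n + cs / √n := by ring
      linarith)
  have hr : 0 < r := lt_of_lt_of_le hr₀ g1
  have g3' : ∀ p ∈ P, ∃ i, X i 0 = x₀.1 + r * p.1 ∧ X i 1 = x₀.2 + r * p.2 := by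
    intro p hp
    obtain ⟨i, _, hi⟩ := Finset.mem_image.1 (g3 p hp)
    exact ⟨i, congrArg Prod.fst hi, congrArg Prod.snd hi⟩
  refine ⟨r, x₀, P, g1, g2, g3', g4, g5, g6, g7, ?_⟩
  intro u e hu8 he hLe s hs hs2
  obtain ⟨k1, k2, k3, k4, k5⟩ := he e (Finset.mem_singleton_self e)
  have hu : 0 < u := lt_of_lt_of_le (abs_pos.2 (sub_ne_zero.2 k3.symm)) k4
  obtain ⟨i, hi⟩ := g3' _ k1
  obtain ⟨j, hj⟩ := g3' _ k2
  obtain ⟨k, hk⟩ := g3' _ hs
  have hle := hLe.1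
  have k4' := abs_le.1 (k4.trans hu8)
  have hij : i ≠ j := by
    rintro rfl
    apply k3
    have := hi.1.symm.trans hj.1
    have h2 : r * e.1.1 = r * e.2.1 := by linarith
    exact mul_left_cancel₀ hr.ne' h2
  have hik : i ≠ k := by
    rintro rfl
    have := hi.1.symm.trans hk.1
    have h2 : r * e.1.1 = r * s.1 := by linarith
    have h3 := mul_left_cancel₀ hr.ne' h2
    linarith
  have hkj : k ≠ j := by
    rintro rfl
    have := hj.1.symm.trans hk.1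
    have h2 : r * e.2.1 = r * s.1 := by linarith
    have h3 := mul_left_cancel₀ hr.ne' h2
    linarith
  have hang := angle_near (a := X i) (b := X j) (c := X k) hr hi hj hk hle hs2 k3 k4 hu8 k5
  have hAV := hAlow.trans ((ha i k j hik hkj hij).trans hang)
  have hVe : c / C1 / n ≤ 51 * u * |V s (lin e)| := hAV
  rw [div_le_iff₀ (by positivity)]
  rw [div_le_iff₀ hn0] at hVe
  rw [div_le_iff₀ (by norm_num)]
  linarith

end Hilo
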