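import Pool.Agent.Hilo.Core5
import Pool.Agent.Hilo.Setup28

/-!
# Rows at all scales: the final theorem from `core` and `setup`
-/

set_option autoImplicit false

namespace Hilo

open Finset

/-- cross product -/
def crs (a b : EuclideanSpace ℝ (Fin 2)) : ℝ := a 0 * b 1 - a 1 * b 0

theorem dist_bds {a b : EuclideanSpace ℝ (Fin 2)} {r : ℝ} {x₀ p q : ℝ × ℝ} (hr : 0 < r)
    (ha : a 0 = x₀.1 + r * p.1 ∧ a 1 = x₀.2 + r * p.2)
    (hb : b 0 = x₀.1 + r * q.1 ∧ b 1 = x₀.2 + r * q.2)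
    (hy : |q.2 - p.2| ≤ |q.1 - p.1| / 4) :
    r * |q.1 - p.1| ≤ dist a b ∧ dist a b ≤ 2 * (r * |q.1 - p.1|) := by
  have e : dist a b = √((r * |q.1 - p.1|) ^ 2 + (r * |q.2 - p.2|) ^ 2) := by
    rw [EuclideanSpace.dist_eq, Fin.sum_univ_two, Real.dist_eq, Real.dist_eq, sq_abs, sq_abs,
      ha.1, ha.2, hb.1, hb.2, mul_pow, mul_pow, sq_abs, sq_abs]
    congr 1; ring
  have h0 : 0 ≤ |q.1 - p.1| := abs_nonneg _
  have h1 : 0 ≤ |q.2 - p.2| := abs_nonneg _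
  rw [e]
  refine ⟨Real.le_sqrt_of_sq_le (by nlinarith [sq_nonneg (r * |q.2 - p.2|)]),
    Real.sqrt_le_iff.2 ⟨by positivity, ?_⟩⟩
  have : r * |q.2 - p.2| ≤ r * |q.1 - p.1| :=
    mul_le_mul_of_nonneg_left (by linarith) hr.le
  nlinarith [mul_nonneg hr.le h0, mul_nonneg hr.le h1]

theorem crs_dir {a b a' b' : EuclideanSpace ℝ (Fin 2)} {r δ : ℝ} {x₀ : ℝ × ℝ}
    {e f : (ℝ × ℝ) × (ℝ × ℝ)} (hr : 0 < r)
    (ha : a 0 = x₀.1 + r * e.1.1 ∧ a 1 = x₀.2 + r * e.1.2)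
    (hb : b 0 = x₀.1 + r * e.2.1 ∧ b 1 = x₀.2 + r * e.2.2)
    (ha' : a' 0 = x₀.1 + r * f.1.1 ∧ a' 1 = x₀.2 + r * f.1.2)
    (hb' : b' 0 = x₀.1 + r * f.2.1 ∧ b' 1 = x₀.2 + r * f.2.2)
    (he : e.1.1 ≠ e.2.1) (hf : f.1.1 ≠ f.2.1) (hy : |e.2.2 - e.1.2| ≤ |e.2.1 - e.1.1| / 4)
    (hy' : |f.2.2 - f.1.2| ≤ |f.2.1 - f.1.1| / 4) (hs : |(lin e).1 - (lin f).1| ≤ δ) :
    |crs (b - a) (b' - a')| ≤ δ * (dist a b * dist a' b') := by
  have h1 := (dist_bds hr ha hb hy).1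
  have h2 := (dist_bds hr ha' hb' hy').1
  have he' : e.2.1 - e.1.1 ≠ 0 := sub_ne_zero.2 he.symm
  have hf' : f.2.1 - f.1.1 ≠ 0 := sub_ne_zero.2 hf.symm
  have h0 : crs (b - a) (b' - a') =
      (r * (e.2.1 - e.1.1)) * (r * (f.2.1 - f.1.1)) * ((lin f).1 - (lin e).1) := by
    simp only [crs, lin, PiLp.sub_apply, ha.1, ha.2, hb.1, hb.2, ha'.1, ha'.2, hb'.1, hb'.2]
    field_simp
    ring
  rw [h0, abs_mul, abs_mul, abs_mul, abs_mul, abs_of_pos hr, abs_sub_comm (lin f).1]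
  have h3 : 0 ≤ r * |e.2.1 - e.1.1| := by positivity
  have h4 : 0 ≤ r * |f.2.1 - f.1.1| := by positivity
  calc _ ≤ (dist a b * dist a' b') * δ := by
        apply mul_le_mul _ hs (abs_nonneg _) (by positivity)
        exact mul_le_mul h1 h2 h4 dist_nonneg
    _ = _ := by ring

theorem crs_off {a b a' : EuclideanSpace ℝ (Fin 2)} {r δ : ℝ} {x₀ : ℝ × ℝ}
    {e f : (ℝ × ℝ) × (ℝ × ℝ)} (hr : 0 < r)
    (ha : a 0 = x₀.1 + r * e.1.1 ∧ a 1 = x₀.2 + r * e.1.2)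
    (hb : b 0 = x₀.1 + r * e.2.1 ∧ b 1 = x₀.2 + r * e.2.2)
    (ha' : a' 0 = x₀.1 + r * f.1.1 ∧ a' 1 = x₀.2 + r * f.1.2)
    (he : e.1.1 ≠ e.2.1) (hf : f.1.1 ≠ f.2.1) (hy : |e.2.2 - e.1.2| ≤ |e.2.1 - e.1.1| / 4)
    (h01 : 0 ≤ f.1.1 ∧ f.1.1 ≤ 1)
    (hs : |(lin e).1 - (lin f).1| ≤ δ) (ht : |(lin e).2 - (lin f).2| ≤ δ) :
    |crs (b - a) (a' - a)| ≤ 2 * r * δ * dist a b := by
  have h1 := (dist_bds hr ha hb hy).1
  have he' : e.2.1 - e.1.1 ≠ 0 := sub_ne_zero.2 he.symm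
  have hf' : f.2.1 - f.1.1 ≠ 0 := sub_ne_zero.2 hf.symm
  have h0 : crs (b - a) (a' - a) =
      (r * (e.2.1 - e.1.1)) * (r * (((lin f).1 - (lin e).1) * f.1.1 + ((lin f).2 - (lin e).2))) := by
    simp only [crs, lin, PiLp.sub_apply, ha.1, ha.2, hb.1, hb.2, ha'.1, ha'.2]
    field_simp
    ring
  have h5 : |((lin f).1 - (lin e).1) * f.1.1 + ((lin f).2 - (lin e).2)| ≤ 2 * δ := by
    refine (abs_add_le _ _).trans ?_
    rw [abs_mul, abs_sub_comm (lin f).1, abs_sub_comm (lin f).2, abs_of_nonneg h01.1]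
    nlinarith [abs_nonneg ((lin e).1 - (lin f).1)]
  have hδ : 0 ≤ δ := (abs_nonneg _).trans hs
  rw [h0, abs_mul, abs_mul, abs_mul, abs_of_pos hr]
  have h3 : 0 ≤ r * |e.2.1 - e.1.1| := by positivity
  calc _ ≤ dist a b * (r * (2 * δ)) := by
        apply mul_le_mul h1 _ (by positivity) dist_nonneg
        exact mul_le_mul_of_nonneg_left h5 hr.le
    _ = _ := by ring

theorem card_le_image {n : ℕ} {P : Finset (ℝ × ℝ)} {G : Finset ((ℝ × ℝ) × (ℝ × ℝ))}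
    {idx : ℝ × ℝ → Fin n} {T : Finset (Fin n × Fin n)}
    (hinj : ∀ p ∈ P, ∀ q ∈ P, idx p = idx q → p = q) (hG : ∀ e ∈ G, e.1 ∈ P ∧ e.2 ∈ P)
    (hT : ∀ e ∈ G, (idx e.1, idx e.2) ∈ T) : (G.card : ℝ) ≤ T.card := by
  norm_cast
  refine Finset.card_le_card_of_injOn (fun e : (ℝ × ℝ) × (ℝ × ℝ) => (idx e.1, idx e.2)) hT ?_
  intro e he f hf hef
  simp only [Prod.mk.injEq] at hef
  have he' := hG e he
  have hf' := hG f hf
  exact Prod.ext (hinj _ he'.1 _ hf'.1 hef.1) (hinj _ he'.2 _ hf'.2 hef.2)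

open Classical in
theorem aligned (c : ℝ) (hc : 0 < c) : ∃ κ C : ℝ, 0 < κ ∧ 0 < C ∧ ∃ n₀ : ℕ, ∀ n : ℕ, n₀ ≤ n →
    ∀ X : Fin n → EuclideanSpace ℝ (Fin 2), Function.Injective X → (∀ i, ‖X i‖ ≤ 1) →
    ∀ D A : ℝ, 0 ≤ D → 0 ≤ A → (∀ i j : Fin n, i ≠ j → D ≤ dist (X i) (X j)) →
    (∀ i j k : Fin n, i ≠ j → j ≠ k → i ≠ k → A ≤ EuclideanGeometry.angle (X i) (X j) (X k)) →
    c * (n : ℝ) ^ (-(3 / 2 : ℝ)) ≤ D * A →
    ∀ d : ℝ, C * Real.log n ^ 3 / √n ≤ d → d ≤ κ →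
    κ * n ^ 2 * d ^ 2 ≤ ((Finset.univ : Finset (Fin n × Fin n)).filter (fun e =>
      κ * d ≤ dist (X e.1) (X e.2) ∧ dist (X e.1) (X e.2) ≤ d ∧
      κ / d ≤ ((Finset.univ : Finset (Fin n × Fin n)).filter (fun f =>
        κ * d ≤ dist (X f.1) (X f.2) ∧ dist (X f.1) (X f.2) ≤ d ∧
        |crs (X e.2 - X e.1) (X f.2 - X f.1)| ≤
          1 / (n * d) * (dist (X e.1) (X e.2) * dist (X f.1) (X f.2)) ∧
        |crs (X e.2 - X e.1) (X f.1 - X e.1)| ≤ 1 / (n * d) * dist (X e.1) (X e.2))).card)).card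
      := by
  obtain ⟨σ, hσ, α, hα, hset⟩ := setup c hc
  obtain ⟨m, hm, η, hη, C₁, hC₁, hcore⟩ := core (σ ^ 2 / 16) (by positivity)
  obtain ⟨r₀, hr₀, n₀, hn₀⟩ := hset m hm η hη
  obtain ⟨ε, hε, hε1, hε2, hε3, hε4⟩ : ∃ ε : ℝ, 0 < ε ∧ ε ≤ 1 ∧ ε ≤ α * r₀ ^ 2 / (4 * σ ^ 2) ∧
      ε ≤ r₀ / (4 * σ ^ 2) ∧ ε ≤ 1 / (8 * σ ^ 2) := by
    refine ⟨min 1 (min (α * r₀ ^ 2 / (4 * σ ^ 2)) (min (r₀ / (4 * σ ^ 2)) (1 / (8 * σ ^ 2)))),
      ?_, min_le_left _ _, ?_, ?_, ?_⟩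
    · positivity
    · exact (min_le_right _ _).trans (min_le_left _ _)
    · exact (min_le_right _ _).trans ((min_le_right _ _).trans (min_le_left _ _))
    · exact (min_le_right _ _).trans ((min_le_right _ _).trans (min_le_right _ _))
  obtain ⟨c₁, hc₁, h₁, hh₁, hfin⟩ := hcore ε hε hε1
  obtain ⟨κ, hκ, hκ1, hκ2, hκ3, hκ4⟩ : ∃ κ : ℝ, 0 < κ ∧ κ ≤ r₀ / 4 ∧
      κ ≤ c₁ * r₀ ^ 2 / (4 * σ ^ 4) ∧ κ ≤ 2 * c₁ * r₀ ∧ κ ≤ σ ^ 2 / 16 / 680 := by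
    refine ⟨min (r₀ / 4) (min (c₁ * r₀ ^ 2 / (4 * σ ^ 4)) (min (2 * c₁ * r₀) (σ ^ 2 / 16 / 680))),
      ?_, min_le_left _ _, ?_, ?_, ?_⟩
    · positivity
    · exact (min_le_right _ _).trans (min_le_left _ _)
    · exact (min_le_right _ _).trans ((min_le_right _ _).trans (min_le_left _ _))
    · exact (min_le_right _ _).trans ((min_le_right _ _).trans (min_le_right _ _))
  refine ⟨κ, 2 * σ * C₁, hκ, by positivity,
    max n₀ (max 3 (max ⌈(σ / (r₀ * min h₁ 1)) ^ 2⌉₊ ⌈(4 / σ) ^ 2⌉₊)), ?_⟩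
  intro n hn X hX hX1 D A hD hA hDX hAX hDA d hd hdκ
  simp only [max_le_iff] at hn
  obtain ⟨hn1, hn2, hn3, hn4⟩ := hn
  have hnR : (3 : ℝ) ≤ n := by exact_mod_cast hn2
  have hn0 : (0 : ℝ) < n := by linarith
  have hsn : 0 < √(n : ℝ) := Real.sqrt_pos.2 hn0
  have hsq : √(n : ℝ) * √(n : ℝ) = n := Real.mul_self_sqrt hn0.le
  have hn3' : σ / (r₀ * min h₁ 1) ≤ √(n : ℝ) := Real.le_sqrt_of_sq_le (Nat.ceil_le.1 hn3)
  have hn4' : 4 / σ ≤ √(n : ℝ) := Real.le_sqrt_of_sq_le (Nat.ceil_le.1 hn4)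
  have hmin : 0 < min h₁ 1 := lt_min hh₁ one_pos
  have hlog : 0 < Real.log n := Real.log_pos (by linarith)
  have hd0 : 0 < d := lt_of_lt_of_le (by positivity) hd
  obtain ⟨r, x₀, P, hr, hr4, hXP, hInSq, hSep, hUnif, hcard, hang⟩ :=
    hn₀ n hn1 X hX hX1 D A hD hA hDX hAX hDA
  have hr0 : 0 < r := hr₀.trans_le hr
  obtain ⟨h, hh⟩ : ∃ h : ℝ, h = σ / √n / r := ⟨_, rfl⟩
  obtain ⟨K, hK⟩ : ∃ K : ℝ, K = d * √n / (2 * σ) := ⟨_, rfl⟩
  rw [← hh] at hSep hcard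
  have hh0 : 0 < h := by rw [hh]; positivity
  have hK0 : 0 < K := by rw [hK]; positivity
  have hKh : K * h = d / (2 * r) := by rw [hK, hh]; field_simp
  have hhmin : h ≤ min h₁ 1 := by
    rw [hh, div_div, div_le_iff₀ (by positivity)]
    rw [div_le_iff₀ (by positivity)] at hn3'
    calc σ ≤ √n * (r₀ * min h₁ 1) := hn3'
      _ ≤ √n * (r * min h₁ 1) := by gcongr
      _ = _ := by ring
  have hh1 : h ≤ h₁ := hhmin.trans (min_le_left _ _)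
  have hh2 : h ≤ 1 := hhmin.trans (min_le_right _ _)
  have hKh8 : K * h ≤ 1 / 8 := by
    rw [hKh, div_le_iff₀ (by positivity)]; linarith
  have hlog1 : 0 ≤ Real.log (1 / h) := Real.log_nonneg (by rw [le_div_iff₀ hh0]; linarith)
  have hlog2 : Real.log (1 / h) ≤ Real.log n := by
    apply Real.log_le_log (by positivity)
    rw [hh, one_div_div, div_le_iff₀ (by positivity), mul_div_assoc', le_div_iff₀ hsn]
    rw [div_le_iff₀ hσ] at hn4'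
    calc r * √n ≤ (√n * σ) * √n := by gcongr; linarith
      _ = √n * √n * σ := by ring
      _ = n * σ := by rw [hsq]
  have hlogK : C₁ * Real.log (1 / h) ^ 3 ≤ K := by
    have : C₁ * Real.log (1 / h) ^ 3 ≤ C₁ * Real.log n ^ 3 := by gcongr
    refine this.trans ?_
    rw [hK, le_div_iff₀ (by positivity)]
    rw [div_le_iff₀ hsn] at hd
    linarith
  have hnh : n * h ^ 2 = σ ^ 2 / r ^ 2 := by
    rw [hh]; field_simp; rw [Real.sq_sqrt hn0.le]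
  have hvoid : ∀ e : (ℝ × ℝ) × (ℝ × ℝ), Near (K * h) P {e} → Lft e.1 →
        ∀ s ∈ P, 1 / 2 ≤ s.1 → 3 * (ε * h / K) < |V s (lin e)| := by
    intro e he1 he2 s hs hs1
    refine lt_of_lt_of_le ?_ (hang (K * h) e hKh8 he1 he2 s hs hs1)
    rw [lt_div_iff₀ (by positivity)]
    have e1 : 3 * (ε * h / K) * (n * (K * h)) = 3 * ε * (n * h ^ 2) := by field_simp
    rw [e1, hnh]
    rw [le_div_iff₀ (by positivity)] at hε2
    rw [mul_div_assoc', div_lt_iff₀ (by positivity)]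
    have e4 : 3 * (ε * (4 * σ ^ 2)) ≤ 3 * (α * r ^ 2) := by
      have : α * r₀ ^ 2 ≤ α * r ^ 2 := by gcongr
      linarith
    have e5 : 0 < α * r ^ 2 := by positivity
    linarith
  obtain ⟨L, hNear, hlow, G, hGL, hG, hpart⟩ :=
    hfin h K P hh0 hh1 hInSq hSep hUnif hcard hlogK hKh8 hvoid
  have hδ : 2 * (ε * h / K) = 4 * ε * σ ^ 2 / (n * d * r) := by
    rw [hh, hK]; field_simp; rw [Real.sq_sqrt hn0.le]; ring
  have hδ1 : 2 * (ε * h / K) ≤ 1 / (n * d) := by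
    rw [hδ, div_le_div_iff₀ (by positivity) (by positivity)]
    rw [le_div_iff₀ (by positivity)] at hε3
    have h8 : 4 * ε * σ ^ 2 ≤ r := by linarith
    calc 4 * ε * σ ^ 2 * (n * d) ≤ r * (n * d) := by gcongr
      _ = _ := by ring
  have hδ2 : 2 * r * (2 * (ε * h / K)) ≤ 1 / (n * d) := by
    have e2 : 2 * r * (2 * (ε * h / K)) = 8 * ε * σ ^ 2 / (n * d) := by
      rw [hδ]; field_simp; ring
    rw [e2]
    rw [le_div_iff₀ (by positivity)] at hε4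
    gcongr
    linarith
  obtain ⟨idx, hidx⟩ : ∃ idx : ℝ × ℝ → Fin n, ∀ p ∈ P,
      X (idx p) 0 = x₀.1 + r * p.1 ∧ X (idx p) 1 = x₀.2 + r * p.2 := by
    refine ⟨fun p => if hp : p ∈ P then (hXP p hp).choose else ⟨0, by omega⟩, ?_⟩
    intro p hp
    simp only [dif_pos hp]
    exact (hXP p hp).choose_spec
  have hinj : ∀ p ∈ P, ∀ q ∈ P, idx p = idx q → p = q := by
    intro p hp q hq hpq
    have h1 := hidx p hp
    have h2 := hidx q hq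
    rw [hpq, h2.1, h2.2] at h1
    ext
    · have := h1.1; simp [hr0.ne'] at this; exact this.symm
    · have := h1.2; simp [hr0.ne'] at this; exact this.symm
  have hPL : ∀ e ∈ L, e.1 ∈ P ∧ e.2 ∈ P := fun e he => ⟨(hNear e he).1, (hNear e he).2.1⟩
  have hdist : ∀ e ∈ L, κ * d ≤ dist (X (idx e.1)) (X (idx e.2)) ∧
      dist (X (idx e.1)) (X (idx e.2)) ≤ d := by
    intro e he
    obtain ⟨g1, g2, g3, g4, g5⟩ := hNear e he
    obtain ⟨b1, b2⟩ := dist_bds hr0 (hidx _ g1) (hidx _ g2) g5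
    have g6 := hlow e he
    constructor
    · refine le_trans ?_ b1
      calc κ * d ≤ σ ^ 2 / 16 / 680 * d := by gcongr
        _ = r * (σ ^ 2 / 16 / 340 * (K * h)) := by rw [hKh]; field_simp; ring
        _ ≤ _ := by gcongr
    · refine b2.trans ?_
      calc 2 * (r * |e.2.1 - e.1.1|) ≤ 2 * (r * (K * h)) := by gcongr
        _ = d := by rw [hKh]; field_simp
  have hinner : ∀ e ∈ G, κ / d ≤ ((Finset.univ : Finset (Fin n × Fin n)).filter (fun f =>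
        κ * d ≤ dist (X f.1) (X f.2) ∧ dist (X f.1) (X f.2) ≤ d ∧
        |crs (X (idx e.2) - X (idx e.1)) (X f.2 - X f.1)| ≤
          1 / (n * d) * (dist (X (idx e.1)) (X (idx e.2)) * dist (X f.1) (X f.2)) ∧
        |crs (X (idx e.2) - X (idx e.1)) (X f.1 - X (idx e.1))| ≤
          1 / (n * d) * dist (X (idx e.1)) (X (idx e.2)))).card := by
    intro e he
    have heL := hGL he
    obtain ⟨g1, g2, g3, g4, g5⟩ := hNear e heL
    have h6 : κ / d ≤ c₁ / (K * h) := by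
      rw [hKh, div_div_eq_mul_div]
      have h7 : κ ≤ c₁ * (2 * r) := by
        calc κ ≤ 2 * c₁ * r₀ := hκ3
          _ ≤ 2 * c₁ * r := by gcongr
          _ = _ := by ring
      exact div_le_div_of_nonneg_right h7 hd0.le
    refine h6.trans ((hpart e he).trans ?_)
    refine card_le_image hinj (fun f hf => hPL f (mem_of_mem_filter f hf)) ?_
    intro f hf
    obtain ⟨hfL, hs, ht⟩ := mem_filter.1 hf
    obtain ⟨k1, k2, k3, k4, k5⟩ := hNear f hfL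
    refine mem_filter.2 ⟨mem_univ _, (hdist f hfL).1, (hdist f hfL).2, ?_, ?_⟩
    · refine (crs_dir hr0 (hidx _ g1) (hidx _ g2) (hidx _ k1) (hidx _ k2) g3 k3 g5 k5 hs).trans ?_
      exact mul_le_mul_of_nonneg_right hδ1 (mul_nonneg dist_nonneg dist_nonneg)
    · refine (crs_off hr0 (hidx _ g1) (hidx _ g2) (hidx _ k1) g3 k3 g5
        ⟨(hInSq _ k1).1, (hInSq _ k1).2.1.le⟩ hs ht).trans ?_
      exact mul_le_mul_of_nonneg_right hδ2 dist_nonneg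
  have houter : κ * n ^ 2 * d ^ 2 ≤ G.card := by
    refine le_trans ?_ hG
    have e3 : c₁ * K ^ 2 / h ^ 2 = c₁ * r ^ 2 / (4 * σ ^ 4) * n ^ 2 * d ^ 2 := by
      rw [hK, hh]; field_simp; rw [show (√(n : ℝ)) ^ 4 = ((√(n : ℝ)) ^ 2) ^ 2 by ring,
        Real.sq_sqrt hn0.le]; ring
    rw [e3]
    have : κ ≤ c₁ * r ^ 2 / (4 * σ ^ 4) := hκ2.trans (by gcongr)
    gcongr
  refine houter.trans (card_le_image hinj (fun f hf => hPL f (hGL hf)) ?_)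
  intro e he
  exact mem_filter.2 ⟨mem_univ _, (hdist e (hGL he)).1, (hdist e (hGL he)).2, hinner e he⟩

end Hilo
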