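import Pool.Agent.Hilo.Defs5

/-! # Lower bounds for the kernel -/

set_option autoImplicit false

namespace Hilo

open MeasureTheory

theorem phi_nonneg28 {w : ℝ} (hw : 0 < w) (v : ℝ) : 0 ≤ phi w v := by
  unfold phi
  split_ifs
  · positivity
  · exact le_rfl

theorem phi_le28 {w : ℝ} (hw : 0 < w) (v : ℝ) : phi w v ≤ 1 / (2 * w) := by
  unfold phi
  split_ifs
  · exact le_rfl
  · positivity

theorem measurable_phi28 (w : ℝ) : Measurable (phi w) := by
  unfold phi
  exact Measurable.ite (measurableSet_le (by fun_prop) measurable_const) measurable_const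
    measurable_const

theorem Ker_nonneg28 {w : ℝ} (hw : 0 < w) (p z : ℝ × ℝ) : 0 ≤ Ker w p z := by
  unfold Ker
  refine mul_nonneg (by positivity) ?_
  refine intervalIntegral.integral_nonneg (by linarith) fun a _ => ?_
  exact intervalIntegral.integral_nonneg (by linarith) fun b _ => phi_nonneg28 hw _

theorem inner_int28 {w : ℝ} (hw : 0 < w) (c : ℝ) :
    IntervalIntegrable (fun b => phi w (c - b)) volume (-w) w := by
  refine (intervalIntegrable_const (c := 1 / (2 * w))).mono_fun'
    ((measurable_phi28 w).comp (by fun_prop)).aestronglyMeasurable ?_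
  refine Filter.Eventually.of_forall fun b => ?_
  show ‖phi w (c - b)‖ ≤ 1 / (2 * w)
  rw [Real.norm_eq_abs, abs_of_nonneg (phi_nonneg28 hw _)]
  exact phi_le28 hw _

theorem inner_ge28 {w : ℝ} (hw : 0 < w) {c : ℝ} (hc : |c| ≤ 3 * w / 2) :
    1 / 4 ≤ ∫ b in (-w)..w, phi w (c - b) := by
  have hc' := abs_le.1 hc
  -- the good interval
  obtain ⟨l, u, h1, h2, h3, h4, h5⟩ : ∃ l u : ℝ, -w ≤ l ∧ u ≤ w ∧ l + w / 2 ≤ u ∧
      c - w ≤ l ∧ u ≤ c + w := by
    rcases le_total 0 c with h | h
    · exact ⟨c - w, w, by linarith, le_rfl, by linarith, le_rfl, by linarith⟩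
    · exact ⟨-w, c + w, le_rfl, by linarith, by linarith, by linarith, le_rfl⟩
  have h6 : ∫ b in l..u, phi w (c - b) ≤ ∫ b in (-w)..w, phi w (c - b) :=
    intervalIntegral.integral_mono_interval h1 (by linarith) h2
      (Filter.Eventually.of_forall fun b => phi_nonneg28 hw _) (inner_int28 hw c)
  have h7 : ∫ b in l..u, phi w (c - b) = ∫ _ in l..u, 1 / (2 * w) := by
    refine intervalIntegral.integral_congr fun b hb => ?_
    rw [Set.uIcc_of_le (by linarith)] at hb
    have : |c - b| ≤ w := by rw [abs_le]; constructor <;> linarith [hb.1, hb.2]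
    simp only [phi, this, if_true]
  rw [h7, intervalIntegral.integral_const, smul_eq_mul] at h6
  refine le_trans ?_ h6
  rw [mul_one_div, le_div_iff₀ (by positivity)]
  linarith

theorem Ker_ge28 {w : ℝ} (hw : 0 < w) {p z : ℝ × ℝ} (hp : |p.1| ≤ 1) (hV : |V p z| ≤ w / 2) :
    1 / (8 * w) ≤ Ker w p z := by
  have hV' := abs_le.1 hV
  have hp' := abs_le.1 hp
  set G : ℝ → ℝ := fun a => ∫ b in (-w)..w, phi w (V p (z.1 + a, z.2 + b)) with hG
  have hGe : ∀ a, G a = ∫ b in (-w)..w, phi w ((V p z - a * p.1) - b) := by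
    intro a
    rw [hG]
    refine intervalIntegral.integral_congr fun b _ => ?_
    simp only [V]
    congr 1
    ring
  have hG1 : ∀ a ∈ Set.Icc (-w) w, 1 / 4 ≤ G a := by
    intro a ha
    rw [hGe]
    refine inner_ge28 hw ?_
    have h1 : |a * p.1| ≤ w := by
      rw [abs_mul]
      have : |a| ≤ w := abs_le.2 ⟨ha.1, ha.2⟩
      nlinarith [abs_nonneg a, abs_nonneg p.1]
    have h2 := abs_le.1 h1
    rw [abs_le]; constructor <;> linarith
  have hGn : ∀ a, 0 ≤ G a := fun a =>
    intervalIntegral.integral_nonneg (by linarith) fun b _ => phi_nonneg28 hw _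
  have hG2 : ∀ a, G a ≤ 1 := by
    intro a
    rw [hGe]
    calc ∫ b in (-w)..w, phi w ((V p z - a * p.1) - b)
        ≤ ∫ _ in (-w)..w, 1 / (2 * w) := intervalIntegral.integral_mono_on (by linarith)
          (inner_int28 hw _) intervalIntegrable_const fun b _ => phi_le28 hw _
      _ = 1 := by
        rw [intervalIntegral.integral_const, smul_eq_mul]
        field_simp
        ring
  have hGm : StronglyMeasurable G := by
    have h1 : G = fun a => ∫ b, phi w (V p (z.1 + a, z.2 + b)) ∂(volume.restrict (Set.Ioc (-w) w)) := by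
      funext a
      rw [hG]
      exact intervalIntegral.integral_of_le (by linarith)
    rw [h1]
    have h2 : StronglyMeasurable (Function.uncurry fun a b : ℝ =>
        phi w (V p (z.1 + a, z.2 + b))) := by
      refine ((measurable_phi28 w).comp ?_).stronglyMeasurable
      unfold V
      fun_prop
    exact h2.integral_prod_right
  have hGi : IntervalIntegrable G volume (-w) w := by
    refine (intervalIntegrable_const (c := (1 : ℝ))).mono_fun' hGm.aestronglyMeasurable ?_
    refine Filter.Eventually.of_forall fun a => ?_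
    show ‖G a‖ ≤ 1
    rw [Real.norm_eq_abs, abs_of_nonneg (hGn a)]
    exact hG2 a
  have h3 : ∫ _ in (-w)..w, (1 : ℝ) / 4 ≤ ∫ a in (-w)..w, G a :=
    intervalIntegral.integral_mono_on (by linarith) intervalIntegrable_const hGi hG1
  rw [intervalIntegral.integral_const, smul_eq_mul] at h3
  have h4 : Ker w p z = 1 / (4 * w ^ 2) * ∫ a in (-w)..w, G a := rfl
  rw [h4]
  have h5 : 1 / (8 * w) = 1 / (4 * w ^ 2) * ((w - -w) * (1 / 4)) := by field_simp; ring
  rw [h5]
  gcongr

end Hilo
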