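import Pool.Agent.Hilo.Rect46
import Pool.Agent.Hilo.KerPos28

/-!
# The coarse scale

For a nearly uniform point set the tubes of width `4/m` around the lines of the pairs contain
about the expected number of far points, on average.
-/

set_option autoImplicit false

namespace Hilo

open Finset

/-- the points of `P` in a cell of the grid with `m²` cells -/
noncomputable def cell (m : ℕ) (P : Finset (ℝ × ℝ)) (i j : ℤ) : Finset (ℝ × ℝ) :=
  P.filter (fun p => (i : ℝ) / m ≤ p.1 ∧ p.1 < (i + 1 : ℝ) / m ∧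
    (j : ℝ) / m ≤ p.2 ∧ p.2 < (j + 1 : ℝ) / m)

/-- the row of the cell in column `i` which is met by the line `z` -/
noncomputable def row (m : ℕ) (i : ℤ) (z : ℝ × ℝ) : ℤ := ⌊(z.1 * ((i : ℝ) / m) + z.2) * m⌋

theorem mem_cell {m : ℕ} {P : Finset (ℝ × ℝ)} {i j : ℤ} {p : ℝ × ℝ} :
    p ∈ cell m P i j ↔ p ∈ P ∧ (i : ℝ) / m ≤ p.1 ∧ p.1 < (i + 1 : ℝ) / m ∧
      (j : ℝ) / m ≤ p.2 ∧ p.2 < (j + 1 : ℝ) / m := by
  simp [cell]

/-- the line through the two points, from the first one -/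
theorem lin_at (e : (ℝ × ℝ) × (ℝ × ℝ)) (x : ℝ) :
    (lin e).1 * x + (lin e).2 = e.1.2 + (lin e).1 * (x - e.1.1) := by
  simp only [lin]; ring

theorem lin_slope {e : (ℝ × ℝ) × (ℝ × ℝ)} (h : e.1.1 ≠ e.2.1) :
    e.2.2 - e.1.2 = (lin e).1 * (e.2.1 - e.1.1) := by
  have : e.2.1 - e.1.1 ≠ 0 := sub_ne_zero.2 h.symm
  simp only [lin]
  field_simp

theorem lin_le {e : (ℝ × ℝ) × (ℝ × ℝ)} (h : e.1.1 ≠ e.2.1)
    (h4 : |e.2.2 - e.1.2| ≤ |e.2.1 - e.1.1| / 4) : |(lin e).1| ≤ 1 / 4 := by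
  have h0 : 0 < |e.2.1 - e.1.1| := abs_pos.2 (sub_ne_zero.2 h.symm)
  rw [lin_slope h, abs_mul] at h4
  nlinarith

/-- points of the cell met by the line are near the line -/
theorem tube {m : ℕ} (hm0 : 0 < m) {P : Finset (ℝ × ℝ)} {i : ℤ} {p z : ℝ × ℝ}
    (hz : |z.1| ≤ 1 / 4) (hp : p ∈ cell m P i (row m i z)) : |V p z| ≤ 4 / m / 2 := by
  have hm : (0 : ℝ) < m := by exact_mod_cast hm0
  obtain ⟨_, h1, h2, h3, h4⟩ := mem_cell.1 hp
  have h5 : (row m i z : ℝ) ≤ (z.1 * ((i : ℝ) / m) + z.2) * m := Int.floor_le _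
  have h6 : (z.1 * ((i : ℝ) / m) + z.2) * m < row m i z + 1 := Int.lt_floor_add_one _
  have h7 : (row m i z : ℝ) / m ≤ z.1 * ((i : ℝ) / m) + z.2 := by
    rw [div_le_iff₀ hm]; exact h5
  have h8 : z.1 * ((i : ℝ) / m) + z.2 < (row m i z + 1 : ℝ) / m := by
    rw [lt_div_iff₀ hm]; exact h6
  have h9 : ((row m i z : ℝ) + 1) / m = (row m i z : ℝ) / m + 1 / m := by ring
  have h10 : ((i : ℝ) + 1) / m = (i : ℝ) / m + 1 / m := by ring
  have hi : 0 < 1 / (m : ℝ) := by positivity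
  rw [h9] at h8 h4
  rw [h10] at h2
  have h11 : |z.1 * (p.1 - (i : ℝ) / m)| ≤ 1 / 4 * (1 / m) := by
    rw [abs_mul]
    refine mul_le_mul hz ?_ (abs_nonneg _) (by norm_num)
    rw [abs_le]; constructor <;> linarith
  have h12 := abs_le.1 h11
  have h13 : (4 : ℝ) / m / 2 = 2 * (1 / m) := by ring
  rw [h13, abs_le]
  simp only [V]
  constructor <;> nlinarith [h12.1, h12.2]

/-- for each column and row, few pairs have a line through the cell -/
theorem fiber_card {m : ℕ} {h K : ℝ} {P : Finset (ℝ × ℝ)} {L : Finset ((ℝ × ℝ) × (ℝ × ℝ))}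
    (hm0 : 0 < m) (hh : 0 < h) (hmK : (m : ℝ) ≤ K) (hs : Sep h P)
    (hL : Near (K * h) P L) (hLft : ∀ e ∈ L, Lft e.1) (i : ℤ) (hi : (1 : ℝ) / 2 ≤ (i : ℝ) / m)
    (j : ℤ) :
    ((L.filter (fun e => row m i (lin e) = j)).card : ℝ) ≤ P.card * (85 * K ^ 2 / m) := by
  classical
  have hm : (0 : ℝ) < m := by exact_mod_cast hm0
  have hm1 : (1 : ℝ) ≤ m := by exact_mod_cast hm0
  have hK : 0 < K := by linarith
  rw [Finset.card_eq_sum_card_fiberwise (f := fun e : (ℝ × ℝ) × (ℝ × ℝ) => e.1) (t := P)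
    (fun e he => (hL e (Finset.mem_filter.1 he).1).1)]
  push_cast
  rw [← nsmul_eq_mul]
  refine Finset.sum_le_card_nsmul _ _ _ fun p hp => ?_
  set S := (L.filter (fun e => row m i (lin e) = j)).filter (fun e => e.1 = p) with hS
  rcases S.eq_empty_or_nonempty with h0 | ⟨e₀, he₀⟩
  · rw [h0]; simp only [Finset.card_empty, Nat.cast_zero]; positivity
  have hmemS : ∀ e ∈ S, e ∈ L ∧ row m i (lin e) = j ∧ e.1 = p := by
    intro e he
    rw [hS] at he
    simp only [Finset.mem_filter] at he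
    exact ⟨he.1.1, he.1.2, he.2⟩
  obtain ⟨h1, h2, h3⟩ := hmemS e₀ he₀
  obtain ⟨_, _, h6, h7, h8⟩ := hL e₀ h1
  have hα := lin_le h6 h8
  set α := (lin e₀).1 with hαd
  have hx : 1 / 4 ≤ (i : ℝ) / m - p.1 := by
    have := (hLft e₀ h1).1
    rw [h3] at this
    linarith
  -- slopes differ by at most 4 / m
  have key : ∀ e ∈ S, |(lin e).1 - α| ≤ 4 / m := by
    intro e he
    obtain ⟨g1, g2, g3⟩ := hmemS e he
    have a1 : (j : ℝ) ≤ ((lin e).1 * ((i : ℝ) / m) + (lin e).2) * m := by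
      rw [← g2]; exact Int.floor_le _
    have a2 : ((lin e).1 * ((i : ℝ) / m) + (lin e).2) * m < j + 1 := by
      rw [← g2]; exact Int.lt_floor_add_one _
    have b1 : (j : ℝ) ≤ ((lin e₀).1 * ((i : ℝ) / m) + (lin e₀).2) * m := by
      rw [← h2]; exact Int.floor_le _
    have b2 : ((lin e₀).1 * ((i : ℝ) / m) + (lin e₀).2) * m < j + 1 := by
      rw [← h2]; exact Int.lt_floor_add_one _
    rw [lin_at, g3] at a1 a2
    rw [lin_at, h3] at b1 b2
    have c1 : |((lin e).1 - α) * ((i : ℝ) / m - p.1) * m| ≤ 1 := by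
      rw [abs_le]; constructor <;> nlinarith
    rw [abs_mul, abs_mul, abs_of_pos (by linarith : 0 < (i : ℝ) / m - p.1), abs_of_pos hm] at c1
    rw [le_div_iff₀ hm]
    nlinarith [mul_nonneg (abs_nonneg ((lin e).1 - α)) hm.le]
  have hsub : S.card ≤ (P.filter (fun q => (p.1 - K * h) ≤ q.1 ∧ q.1 ≤ (p.1 - K * h) + 2 * (K * h) ∧
      (p.2 - α * p.1 - 4 / m * (K * h)) ≤ q.2 - α * q.1 ∧
      q.2 - α * q.1 ≤ (p.2 - α * p.1 - 4 / m * (K * h)) + 8 / m * (K * h))).card := by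
    refine Finset.card_le_card_of_injOn (fun e => e.2) ?_ ?_
    · intro e he
      have he := Finset.mem_coe.1 he
      obtain ⟨g1, g2, g3⟩ := hmemS e he
      obtain ⟨_, k2, k3, k4, _⟩ := hL e g1
      have hsl := lin_slope k3
      rw [g3] at k4 hsl
      have h14 : |((lin e).1 - α) * (e.2.1 - p.1)| ≤ 4 / m * (K * h) := by
        rw [abs_mul]
        exact mul_le_mul (key e he) k4 (abs_nonneg _) (by positivity)
      have h15 := abs_le.1 h14
      have h16 := abs_le.1 k4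
      refine Finset.mem_coe.2 (Finset.mem_filter.2 ⟨k2, by linarith, by linarith, ?_, ?_⟩)
      · nlinarith [h15.1]
      · have : 8 / (m : ℝ) * (K * h) = 2 * (4 / m * (K * h)) := by ring
        nlinarith [h15.2]
    · intro e he e' he' hee
      have he := hmemS e (Finset.mem_coe.1 he)
      have he' := hmemS e' (Finset.mem_coe.1 he')
      exact Prod.ext (he.2.2.trans he'.2.2.symm) hee
  have hrect := card_rect hh hs (α := α) (a := p.1 - K * h)
    (b := p.2 - α * p.1 - 4 / m * (K * h)) (l₁ := 2 * (K * h)) (l₂ := 8 / m * (K * h))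
    (by linarith) (by positivity) (by positivity)
  have hsub' : (S.card : ℝ) ≤ _ := (Nat.cast_le.2 hsub).trans hrect
  refine hsub'.trans ?_
  have e1 : 2 * (2 * (K * h)) / h + 1 = 4 * K + 1 := by field_simp; ring
  have e2 : 2 * (8 / m * (K * h)) / h + 1 = 16 * (K / m) + 1 := by field_simp; ring
  have e3 : 1 ≤ K / m := by rw [le_div_iff₀ hm]; linarith
  have e4 : 1 ≤ K := by linarith
  rw [e1, e2]
  have e5 : 85 * K ^ 2 / m = (5 * K) * (17 * (K / m)) := by ring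
  rw [e5]
  refine mul_le_mul (by linarith) (by linarith) (by positivity) (by positivity)

/-- the line of a pair stays in the unit square over the right half -/
theorem row_mem {m : ℕ} {h K : ℝ} {P : Finset (ℝ × ℝ)} {L : Finset ((ℝ × ℝ) × (ℝ × ℝ))}
    (hm0 : 0 < m) (hP : InSq P) (hL : Near (K * h) P L) (hLft : ∀ e ∈ L, Lft e.1) {i : ℤ}
    (hi : (1 : ℝ) / 2 ≤ (i : ℝ) / m) (hi1 : (i : ℝ) / m ≤ 1) {e : (ℝ × ℝ) × (ℝ × ℝ)}
    (he : e ∈ L) : row m i (lin e) ∈ Finset.Ico (0 : ℤ) m := by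
  have hm : (0 : ℝ) < m := by exact_mod_cast hm0
  obtain ⟨h1, _, h6, h7, h8⟩ := hL e he
  have hα := lin_le h6 h8
  obtain ⟨g1, g2, g3⟩ := hLft e he
  have g4 := (hP _ h1).1
  have h9 : |(lin e).1 * ((i : ℝ) / m - e.1.1)| ≤ 1 / 4 := by
    rw [abs_mul]
    have : |(i : ℝ) / m - e.1.1| ≤ 1 := by rw [abs_le]; constructor <;> linarith
    nlinarith [abs_nonneg (lin e).1, abs_nonneg ((i : ℝ) / m - e.1.1)]
  have h10 := abs_le.1 h9
  rw [Finset.mem_Ico]
  simp only [row]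
  rw [lin_at]
  constructor
  · exact Int.floor_nonneg.2 (mul_nonneg (by linarith) hm.le)
  · rw [Int.floor_lt]
    push_cast
    nlinarith

/-- every point is in a cell -/
theorem card_le_cells {m : ℕ} (hm0 : 0 < m) {P : Finset (ℝ × ℝ)} (hP : InSq P) :
    (P.card : ℝ) ≤ ∑ i ∈ Finset.Ico (0 : ℤ) m, ∑ j ∈ Finset.Ico (0 : ℤ) m,
      ((cell m P i j).card : ℝ) := by
  classical
  have hm : (0 : ℝ) < m := by exact_mod_cast hm0
  have h1 : P ⊆ (Finset.Ico (0 : ℤ) m).biUnion fun i =>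
      (Finset.Ico (0 : ℤ) m).biUnion fun j => cell m P i j := by
    intro p hp
    obtain ⟨a1, a2, a3, a4⟩ := hP p hp
    have key : ∀ x : ℝ, 0 ≤ x → x < 1 → ⌊x * m⌋ ∈ Finset.Ico (0 : ℤ) m ∧
        (⌊x * m⌋ : ℝ) / m ≤ x ∧ x < (⌊x * m⌋ + 1 : ℝ) / m := by
      intro x hx0 hx1
      refine ⟨Finset.mem_Ico.2 ⟨Int.floor_nonneg.2 (by positivity), ?_⟩, ?_, ?_⟩
      · rw [Int.floor_lt]; push_cast; nlinarith
      · rw [div_le_iff₀ hm]; exact Int.floor_le _
      · rw [lt_div_iff₀ hm]; exact Int.lt_floor_add_one _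
    obtain ⟨b1, b2, b3⟩ := key p.1 a1 a2
    obtain ⟨c1, c2, c3⟩ := key p.2 a3 a4
    exact Finset.mem_biUnion.2 ⟨_, b1, Finset.mem_biUnion.2 ⟨_, c1,
      mem_cell.2 ⟨hp, b2, b3, c2, c3⟩⟩⟩
  have h2 := (Finset.card_le_card h1).trans Finset.card_biUnion_le
  have h3 : ∑ i ∈ Finset.Ico (0 : ℤ) m, ((Finset.Ico (0 : ℤ) m).biUnion fun j =>
      cell m P i j).card ≤ ∑ i ∈ Finset.Ico (0 : ℤ) m, ∑ j ∈ Finset.Ico (0 : ℤ) m,
        (cell m P i j).card := Finset.sum_le_sum fun i _ => Finset.card_biUnion_le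
  exact_mod_cast h2.trans h3

theorem coarse {m : ℕ} {η h K : ℝ} {P : Finset (ℝ × ℝ)} {L : Finset ((ℝ × ℝ) × (ℝ × ℝ))}
    (hm : 8 ∣ m) (hm0 : 0 < m) (hη : 0 ≤ η) (hh : 0 < h) (hmK : (m : ℝ) ≤ K) (hKh : K * h ≤ 1 / 8)
    (hP : InSq P) (hs : Sep h P) (hU : Unif m η P) (hL : Near (K * h) P L)
    (hLft : ∀ e ∈ L, Lft e.1) (hc : 340 * η * K ^ 2 * P.card ≤ L.card) :
    (P.card : ℝ) * L.card / 128 ≤
      ∑ e ∈ L, ∑ p ∈ P.filter (fun p => (1 : ℝ) / 2 ≤ p.1), Ker (4 / m) p (lin e) := by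
  classical
  obtain ⟨k, hk⟩ := hm
  have hmr : (0 : ℝ) < m := by exact_mod_cast hm0
  have hmk : (m : ℝ) = 8 * k := by exact_mod_cast hk
  have hmkz : (m : ℤ) = 8 * k := by exact_mod_cast hk
  have hw : (0 : ℝ) < 4 / m := by positivity
  set C : Finset ℤ := Finset.Ico (0 : ℤ) m with hC
  set H : Finset ℤ := Finset.Ico (4 * k : ℤ) m with hH
  have hHC : H ⊆ C := Finset.Ico_subset_Ico (by positivity) le_rfl
  have hHcard : (H.card : ℝ) = m / 2 := by
    rw [hH, Int.card_Ico, hmkz, hmk]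
    have : (8 * (k : ℤ) - 4 * k).toNat = 4 * k := by omega
    rw [this]; push_cast; ring
  have hCcard : (C.card : ℝ) = m := by
    rw [hC, Int.card_Ico]; simp
  have hHi : ∀ i ∈ H, (1 : ℝ) / 2 ≤ (i : ℝ) / m ∧ (i : ℝ) / m ≤ 1 := by
    intro i hi
    rw [hH, Finset.mem_Ico] at hi
    have h1 : (4 * k : ℝ) ≤ i := by exact_mod_cast hi.1
    have h2 : (i : ℝ) < m := by exact_mod_cast hi.2
    constructor
    · rw [le_div_iff₀ hmr]; linarith
    · rw [div_le_one hmr]; linarith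
  set U : ℝ := (1 + η) * P.card / m ^ 2 with hUd
  have hdef : ∀ i j : ℤ, 0 ≤ U - (cell m P i j).card := fun i j => sub_nonneg.2 (hU i j)
  -- lower bound for one pair
  have hone : ∀ e ∈ L, ∑ i ∈ H, (m : ℝ) / 32 * (cell m P i (row m i (lin e))).card ≤
      ∑ p ∈ P.filter (fun p => (1 : ℝ) / 2 ≤ p.1), Ker (4 / m) p (lin e) := by
    intro e he
    obtain ⟨h1, _, h6, h7, h8⟩ := hL e he
    have hα := lin_le h6 h8
    have hdis : Set.PairwiseDisjoint (H : Set ℤ) (fun i => cell m P i (row m i (lin e))) := by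
      intro i _ i' _ hii
      rw [Function.onFun, Finset.disjoint_left]
      intro p hp hp'
      obtain ⟨_, a1, a2, _⟩ := mem_cell.1 hp
      obtain ⟨_, b1, b2, _⟩ := mem_cell.1 hp'
      apply hii
      have c1 : (i : ℝ) < i' + 1 := by
        have := a1.trans_lt b2
        exact (div_lt_div_iff_of_pos_right hmr).1 this
      have c2 : (i' : ℝ) < i + 1 := by
        have := b1.trans_lt a2
        exact (div_lt_div_iff_of_pos_right hmr).1 this
      have c1' : i < i' + 1 := by exact_mod_cast c1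
      have c2' : i' < i + 1 := by exact_mod_cast c2
      omega
    have hsub : H.biUnion (fun i => cell m P i (row m i (lin e))) ⊆
        P.filter (fun p => (1 : ℝ) / 2 ≤ p.1) := by
      intro p hp
      obtain ⟨i, hi, hp⟩ := Finset.mem_biUnion.1 hp
      obtain ⟨a0, a1, _⟩ := mem_cell.1 hp
      exact Finset.mem_filter.2 ⟨a0, (hHi i hi).1.trans a1⟩
    refine le_trans ?_ (Finset.sum_le_sum_of_subset_of_nonneg hsub
      fun p _ _ => Ker_nonneg28 hw p (lin e))
    rw [Finset.sum_biUnion hdis]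
    refine Finset.sum_le_sum fun i hi => ?_
    rw [mul_comm, ← nsmul_eq_mul]
    refine Finset.card_nsmul_le_sum _ _ _ fun p hp => ?_
    have hpP := hP p (mem_cell.1 hp).1
    have := Ker_ge28 hw (p := p) (z := lin e) (by rw [abs_le]; constructor <;> linarith)
      (tube hm0 hα hp)
    refine le_trans (le_of_eq ?_) this
    field_simp
    norm_num
  -- defects
  have hsumdef : ∀ i ∈ H, ∑ e ∈ L, (U - (cell m P i (row m i (lin e))).card) ≤
      (P.card * (85 * K ^ 2 / m)) * ∑ j ∈ C, (U - (cell m P i j).card) := by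
    intro i hi
    rw [← Finset.sum_fiberwise_of_maps_to (g := fun e => row m i (lin e)) (t := C)
      (fun e he => row_mem hm0 hP hL hLft (hHi i hi).1 (hHi i hi).2 he), Finset.mul_sum]
    refine Finset.sum_le_sum fun j _ => ?_
    have : ∀ e ∈ L.filter (fun e => row m i (lin e) = j),
        (U - ((cell m P i (row m i (lin e))).card : ℝ)) = U - (cell m P i j).card := by
      intro e he
      rw [(Finset.mem_filter.1 he).2]
    rw [Finset.sum_congr rfl this, Finset.sum_const, nsmul_eq_mul]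
    exact mul_le_mul_of_nonneg_right
      (fiber_card hm0 hh hmK hs hL hLft i (hHi i hi).1 j) (hdef i j)
  have htot : ∑ i ∈ H, ∑ j ∈ C, (U - ((cell m P i j).card : ℝ)) ≤ η * P.card := by
    refine (Finset.sum_le_sum_of_subset_of_nonneg hHC
      fun i _ _ => Finset.sum_nonneg fun j _ => hdef i j).trans ?_
    have h1 := card_le_cells hm0 hP
    have h2 : ∑ i ∈ C, ∑ j ∈ C, (U - ((cell m P i j).card : ℝ)) =
        m ^ 2 * U - ∑ i ∈ C, ∑ j ∈ C, ((cell m P i j).card : ℝ) := by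
      simp only [Finset.sum_sub_distrib, Finset.sum_const, nsmul_eq_mul, hCcard]
      ring
    rw [h2]
    have h3 : (m : ℝ) ^ 2 * U = (1 + η) * P.card := by rw [hUd]; field_simp
    rw [h3]
    linarith
  have hKm : 0 ≤ 85 * K ^ 2 / m := by positivity
  have hall : ∑ i ∈ H, ∑ e ∈ L, (U - ((cell m P i (row m i (lin e))).card : ℝ)) ≤
      (P.card * (85 * K ^ 2 / m)) * (η * P.card) := by
    refine (Finset.sum_le_sum hsumdef).trans ?_
    rw [← Finset.mul_sum]
    exact mul_le_mul_of_nonneg_left htot (by positivity)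
  have hcnt : ∑ i ∈ H, ∑ e ∈ L, (U - ((cell m P i (row m i (lin e))).card : ℝ)) =
      (m : ℝ) / 2 * (L.card * U) -
        ∑ e ∈ L, ∑ i ∈ H, ((cell m P i (row m i (lin e))).card : ℝ) := by
    simp only [Finset.sum_sub_distrib, Finset.sum_const, nsmul_eq_mul, hHcard]
    rw [Finset.sum_comm]
  have hmain : (P.card : ℝ) * L.card / (4 * m) ≤
      ∑ e ∈ L, ∑ i ∈ H, ((cell m P i (row m i (lin e))).card : ℝ) := by
    have h1 : (m : ℝ) / 2 * (L.card * U) = (1 + η) * (P.card * L.card / (2 * m)) := by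
      rw [hUd]; field_simp
    have h2 : (P.card * (85 * K ^ 2 / m)) * (η * P.card) ≤ P.card * L.card / (4 * m) := by
      have : (P.card * (85 * K ^ 2 / m)) * (η * P.card) =
          P.card * (340 * η * K ^ 2 * P.card) / (4 * m) := by field_simp; ring
      rw [this]
      gcongr
    have h3 : 0 ≤ η * ((P.card : ℝ) * L.card / (2 * m)) := by positivity
    have h4 : (P.card : ℝ) * L.card / (2 * m) = 2 * (P.card * L.card / (4 * m)) := by
      field_simp; ring
    rw [hcnt, h1] at hall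
    nlinarith
  calc (P.card : ℝ) * L.card / 128 = m / 32 * (P.card * L.card / (4 * m)) := by
        field_simp; ring
    _ ≤ m / 32 * ∑ e ∈ L, ∑ i ∈ H, ((cell m P i (row m i (lin e))).card : ℝ) := by gcongr
    _ = ∑ e ∈ L, ∑ i ∈ H, (m : ℝ) / 32 * (cell m P i (row m i (lin e))).card := by
        simp only [Finset.mul_sum]
    _ ≤ _ := Finset.sum_le_sum hone

end Hilo
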