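import Mathlib

/-!
# An elementary high-low argument in the space of lines: definitions

Points of the plane are pairs `p = (x, y)`, non-vertical lines `y = s x + t` are pairs `z = (s, t)`.
-/

set_option autoImplicit false

namespace Hilo

/-- vertical offset of the point `p` over the line `y = s x + t`, where `z = (s, t)` -/
def V (p z : ℝ × ℝ) : ℝ := p.2 - z.1 * p.1 - z.2

/-- the line (slope, intercept) through the two points of the pair `e` -/
noncomputable def lin (e : (ℝ × ℝ) × (ℝ × ℝ)) : ℝ × ℝ :=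
  ((e.2.2 - e.1.2) / (e.2.1 - e.1.1), e.1.2 - (e.2.2 - e.1.2) / (e.2.1 - e.1.1) * e.1.1)

/-- normalised indicator of `[-w, w]` -/
noncomputable def phi (w v : ℝ) : ℝ := if |v| ≤ w then 1 / (2 * w) else 0

/-- smoothed count of `p` in the tube of width `w` around the line `z` -/
noncomputable def Ker (w : ℝ) (p z : ℝ × ℝ) : ℝ :=
  1 / (4 * w ^ 2) * ∫ a in (-w)..w, ∫ b in (-w)..w, phi w (V p (z.1 + a, z.2 + b))

/-- the profile of mean zero which appears when the width `M w` is replaced by `w` -/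
noncomputable def prof (M : ℕ) (w x v : ℝ) : ℝ :=
  (∑ i ∈ Finset.range M, ∑ j ∈ Finset.range M,
    phi (M * w) (v - (2 * i + 1 - M) * w * x - (2 * j + 1 - M) * w)) / M ^ 2 - phi w v

/-- lines of slope at most `1/2` -/
def Om : Set (ℝ × ℝ) := {z | |z.1| ≤ 1 / 2}

/-- correlation of two points between the scales `M w` and `w` -/
noncomputable def Cor (M : ℕ) (w : ℝ) (p q : ℝ × ℝ) : ℝ :=
  ∫ z in Om, prof M w p.1 (V p z) * prof M w q.1 (V q z)

/-- the points of `P` are `h`-separated in the maximum norm -/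
def Sep (h : ℝ) (P : Finset (ℝ × ℝ)) : Prop :=
  ∀ p ∈ P, ∀ q ∈ P, p ≠ q → h ≤ |p.1 - q.1| ∨ h ≤ |p.2 - q.2|

/-- the points of `P` are in the half open unit square -/
def InSq (P : Finset (ℝ × ℝ)) : Prop :=
  ∀ p ∈ P, 0 ≤ p.1 ∧ p.1 < 1 ∧ 0 ≤ p.2 ∧ p.2 < 1

open Classical in
/-- number of pairs of elements of `L` whose lines differ by at most `2 w` in both parameters -/
noncomputable def QL {ι : Type*} (w : ℝ) (L : Finset ι) (g : ι → ℝ × ℝ) : ℕ :=
  ((L ×ˢ L).filter (fun e => |(g e.1).1 - (g e.2).1| ≤ 2 * w ∧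
    |(g e.1).2 - (g e.2).2| ≤ 2 * w)).card

/-- `L` is a set of pairs of points of `P`, at horizontal distance at most `u`, of slope at most
`1/4` -/
def Near (u : ℝ) (P : Finset (ℝ × ℝ)) (L : Finset ((ℝ × ℝ) × (ℝ × ℝ))) : Prop :=
  ∀ e ∈ L, e.1 ∈ P ∧ e.2 ∈ P ∧ e.1.1 ≠ e.2.1 ∧ |e.2.1 - e.1.1| ≤ u ∧
    |e.2.2 - e.1.2| ≤ |e.2.1 - e.1.1| / 4

/-- the left middle box -/
def Lft (p : ℝ × ℝ) : Prop := p.1 ≤ 1 / 4 ∧ 3 / 8 ≤ p.2 ∧ p.2 ≤ 5 / 8

/-- `P` is nearly uniform at scale `1/m`: no cell of the grid with `m²` cells contains more than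
`(1 + η) |P| / m²` points -/
def Unif (m : ℕ) (η : ℝ) (P : Finset (ℝ × ℝ)) : Prop :=
  ∀ i j : ℤ, ((P.filter (fun p => (i : ℝ) / m ≤ p.1 ∧ p.1 < (i + 1 : ℝ) / m ∧
    (j : ℝ) / m ≤ p.2 ∧ p.2 < (j + 1 : ℝ) / m)).card : ℝ) ≤ (1 + η) * P.card / m ^ 2

end Hilo
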