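import Mathlib
import Pool.Agent.Hilo.Defs5

set_option autoImplicit false
set_option linter.unusedVariables false

open MeasureTheory Finset

namespace Hilo

/-! ### The function phi -/

theorem phi_eq_indicator (w : ℝ) :
    phi w = (Set.Icc (-w) w).indicator (fun _ => 1 / (2 * w)) := by
  funext v
  simp only [phi, Set.indicator, Set.mem_Icc, abs_le]

theorem measurable_phi (w : ℝ) : Measurable (phi w) := by
  rw [phi_eq_indicator]
  exact (measurable_const).indicator measurableSet_Icc

theorem integrable_phi (w : ℝ) : Integrable (phi w) := by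
  rw [phi_eq_indicator]
  refine (integrable_indicator_iff measurableSet_Icc).2 ?_
  exact integrableOn_const (by simp)

theorem integral_phi {w : ℝ} (hw : 0 < w) : ∫ v, phi w v = 1 := by
  rw [phi_eq_indicator, integral_indicator measurableSet_Icc]
  simp only [integral_const, MeasurableSet.univ, measureReal_restrict_apply, Set.univ_inter,
    smul_eq_mul]
  rw [Real.volume_real_Icc_of_le (by linarith)]
  field_simp
  ring

theorem phi15_nonneg {w : ℝ} (hw : 0 < w) (v : ℝ) : 0 ≤ phi w v := by
  unfold phi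
  split_ifs <;> positivity

theorem phi15_le {w : ℝ} (hw : 0 < w) (v : ℝ) : phi w v ≤ 1 / (2 * w) := by
  unfold phi
  split_ifs
  · exact le_rfl
  · positivity

theorem phi15_zero {w v : ℝ} (hv : w < |v|) : phi w v = 0 := by
  unfold phi
  rw [if_neg (not_le.2 hv)]

/-! ### The profile -/

/-- the smoothed part of the profile -/
noncomputable def avg15 (M : ℕ) (w x v : ℝ) : ℝ :=
  (∑ i ∈ Finset.range M, ∑ j ∈ Finset.range M,
    phi (M * w) (v - (2 * i + 1 - M) * w * x - (2 * j + 1 - M) * w)) / M ^ 2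

theorem prof_eq15 (M : ℕ) (w x v : ℝ) : prof M w x v = avg15 M w x v - phi w v := rfl

theorem measurable_avg15 (M : ℕ) (w x : ℝ) : Measurable (avg15 M w x) := by
  unfold avg15
  refine Measurable.div_const ?_ _
  refine Finset.measurable_sum _ fun i _ => ?_
  refine Finset.measurable_sum _ fun j _ => ?_
  exact (measurable_phi _).comp ((measurable_id.sub_const _).sub_const _)

theorem measurable_prof (M : ℕ) (w x : ℝ) : Measurable (prof M w x) :=
  (measurable_avg15 M w x).sub (measurable_phi w)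

theorem integrable_avg15 (M : ℕ) (w x : ℝ) : Integrable (avg15 M w x) := by
  unfold avg15
  refine Integrable.div_const ?_ _
  refine integrable_finsetSum _ fun i _ => ?_
  refine integrable_finsetSum _ fun j _ => ?_
  exact ((integrable_phi (M * w)).comp_sub_right _).comp_sub_right _

theorem integrable_prof (M : ℕ) (w x : ℝ) : Integrable (prof M w x) :=
  (integrable_avg15 M w x).sub (integrable_phi w)

theorem integral_avg15 {M : ℕ} (hM : 0 < M) {w : ℝ} (hw : 0 < w) (x : ℝ) :
    ∫ v, avg15 M w x v = 1 := by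
  have hM' : (0 : ℝ) < M := by exact_mod_cast hM
  unfold avg15
  rw [integral_div, integral_finsetSum]
  · have : ∀ i ∈ Finset.range M, ∫ v : ℝ, ∑ j ∈ Finset.range M,
        phi (M * w) (v - (2 * i + 1 - M) * w * x - (2 * j + 1 - M) * w) = M := by
      intro i _
      rw [integral_finsetSum]
      · have : ∀ j ∈ Finset.range M, ∫ v : ℝ,
            phi (M * w) (v - (2 * i + 1 - M) * w * x - (2 * j + 1 - M) * w) = 1 := by
          intro j _
          have h1 := integral_sub_right_eq_self (μ := (volume : Measure ℝ)) (fun v => phi (M * w)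
            (v - (2 * j + 1 - M) * w)) ((2 * i + 1 - M) * w * x)
          have h2 := integral_sub_right_eq_self (μ := (volume : Measure ℝ)) (phi (M * w))
            ((2 * j + 1 - M) * w)
          rw [h1, h2]
          exact integral_phi (by positivity)
        rw [Finset.sum_congr rfl this]
        simp
      · intro j _
        exact ((integrable_phi (M * w)).comp_sub_right _).comp_sub_right _
    rw [Finset.sum_congr rfl this]
    simp only [Finset.sum_const, Finset.card_range, nsmul_eq_mul]
    field_simp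
  · intro i _
    refine integrable_finsetSum _ fun j _ => ?_
    exact ((integrable_phi (M * w)).comp_sub_right _).comp_sub_right _

theorem integral_prof {M : ℕ} (hM : 0 < M) {w : ℝ} (hw : 0 < w) (x : ℝ) :
    ∫ v, prof M w x v = 0 := by
  have : (fun v => prof M w x v) = fun v => avg15 M w x v - phi w v := rfl
  rw [this, integral_sub (integrable_avg15 M w x) (integrable_phi w), integral_avg15 hM hw,
    integral_phi hw, sub_self]

theorem avg15_nonneg {M : ℕ} (hM : 0 < M) {w : ℝ} (hw : 0 < w) (x v : ℝ) : 0 ≤ avg15 M w x v := by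
  have hM' : (0 : ℝ) < M := by exact_mod_cast hM
  unfold avg15
  refine div_nonneg ?_ (by positivity)
  exact Finset.sum_nonneg fun i _ => Finset.sum_nonneg fun j _ => phi15_nonneg (by positivity) _

theorem avg15_le {M : ℕ} (hM : 0 < M) {w : ℝ} (hw : 0 < w) (x v : ℝ) :
    avg15 M w x v ≤ 1 / (2 * w) := by
  have hM' : (0 : ℝ) < M := by exact_mod_cast hM
  have hM1 : (1 : ℝ) ≤ M := by exact_mod_cast hM
  unfold avg15
  rw [div_le_iff₀ (by positivity)]
  calc ∑ i ∈ Finset.range M, ∑ j ∈ Finset.range M,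
        phi (M * w) (v - (2 * i + 1 - M) * w * x - (2 * j + 1 - M) * w)
      ≤ ∑ i ∈ Finset.range M, ∑ j ∈ Finset.range M, 1 / (2 * w) := by
        refine Finset.sum_le_sum fun i _ => Finset.sum_le_sum fun j _ => ?_
        refine (phi15_le (by positivity) _).trans ?_
        apply one_div_le_one_div_of_le (by positivity)
        nlinarith
    _ = 1 / (2 * w) * M ^ 2 := by
        simp only [Finset.sum_const, Finset.card_range, nsmul_eq_mul]
        ring

theorem abs_prof_le {M : ℕ} (hM : 0 < M) {w : ℝ} (hw : 0 < w) (x v : ℝ) :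
    |prof M w x v| ≤ 1 / (2 * w) := by
  rw [prof_eq15, abs_le]
  have h1 := avg15_nonneg hM hw x v
  have h2 := avg15_le hM hw x v
  have h3 := phi15_nonneg hw v
  have h4 := phi15_le hw v
  constructor <;> linarith

theorem integral_abs_prof {M : ℕ} (hM : 0 < M) {w : ℝ} (hw : 0 < w) (x : ℝ) :
    ∫ v, |prof M w x v| ≤ 2 := by
  calc ∫ v, |prof M w x v| ≤ ∫ v, (avg15 M w x v + phi w v) := by
        refine integral_mono (integrable_prof M w x).abs
          ((integrable_avg15 M w x).add (integrable_phi w)) fun v => ?_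
        show |prof M w x v| ≤ avg15 M w x v + phi w v
        rw [prof_eq15, abs_le]
        have h1 := avg15_nonneg hM hw x v
        have h3 := phi15_nonneg hw v
        constructor <;> linarith
    _ = 2 := by
        rw [integral_add (integrable_avg15 M w x) (integrable_phi w), integral_avg15 hM hw,
          integral_phi hw]
        norm_num

theorem prof_zero {M : ℕ} (hM : 0 < M) {w : ℝ} (hw : 0 < w) {x v : ℝ} (hx : |x| ≤ 1)
    (hv : 3 * (M * w) < |v|) : prof M w x v = 0 := by
  have hM' : (0 : ℝ) < M := by exact_mod_cast hM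
  have hM1 : (1 : ℝ) ≤ M := by exact_mod_cast hM
  have hMw : w ≤ M * w := by nlinarith
  rw [prof_eq15]
  have h0 : phi w v = 0 := phi15_zero (by nlinarith)
  have h1 : avg15 M w x v = 0 := by
    unfold avg15
    rw [Finset.sum_eq_zero, zero_div]
    intro i hi
    refine Finset.sum_eq_zero fun j hj => ?_
    apply phi15_zero
    have hi' : (i : ℝ) + 1 ≤ M := by exact_mod_cast Finset.mem_range.1 hi
    have hj' : (j : ℝ) + 1 ≤ M := by exact_mod_cast Finset.mem_range.1 hj
    have hi0 : (0 : ℝ) ≤ i := Nat.cast_nonneg i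
    have hj0 : (0 : ℝ) ≤ j := Nat.cast_nonneg j
    have a1 : |(2 * (i : ℝ) + 1 - M) * w * x| ≤ M * w := by
      rw [abs_mul, abs_mul, abs_of_pos hw]
      have : |2 * (i : ℝ) + 1 - M| ≤ M := by
        rw [abs_le]; constructor <;> linarith
      calc |2 * (i : ℝ) + 1 - M| * w * |x| ≤ |2 * (i : ℝ) + 1 - M| * w * 1 := by
            apply mul_le_mul_of_nonneg_left hx
            positivity
        _ ≤ M * w := by rw [mul_one]; exact mul_le_mul_of_nonneg_right this hw.le
    have a2 : |(2 * (j : ℝ) + 1 - M) * w| ≤ M * w := by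
      rw [abs_mul, abs_of_pos hw]
      have : |2 * (j : ℝ) + 1 - M| ≤ M := by
        rw [abs_le]; constructor <;> linarith
      exact mul_le_mul_of_nonneg_right this hw.le
    have a3 : |v| ≤ |v - (2 * (i : ℝ) + 1 - M) * w * x - (2 * (j : ℝ) + 1 - M) * w| +
        |(2 * (i : ℝ) + 1 - M) * w * x| + |(2 * (j : ℝ) + 1 - M) * w| := by
      have := abs_add_three (v - (2 * (i : ℝ) + 1 - M) * w * x - (2 * (j : ℝ) + 1 - M) * w)
        ((2 * (i : ℝ) + 1 - M) * w * x) ((2 * (j : ℝ) + 1 - M) * w)
      refine le_trans (le_of_eq ?_) this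
      congr 1
      ring
    linarith
  rw [h0, h1, sub_self]

/-! ### Change of variables, in the extended nonnegative reals -/

theorem lintegral_affine {F : ℝ → ENNReal} (hF : Measurable F) {a : ℝ} (ha : a ≠ 0) (b : ℝ) :
    ∫⁻ s, F (b - s * a) = ENNReal.ofReal |a⁻¹| * ∫⁻ v, F v := by
  have h1 : ∫⁻ s, F (b - s * a) = ∫⁻ s, (fun u => F (b - u)) (a * s) := by
    congr 1; funext s; simp only; rw [mul_comm]
  have hFb : Measurable fun u => F (b - u) := hF.comp (measurable_const.sub measurable_id)
  rw [h1, ← lintegral_map (μ := volume) hFb (measurable_const_mul a),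
    Real.map_volume_mul_left ha, lintegral_smul_measure, lintegral_sub_left_eq_self]
  rfl

theorem lintegral_lines {F G : ℝ → ENNReal} (hF : Measurable F) (hG : Measurable G)
    {p q : ℝ × ℝ} (hpq : p.1 - q.1 ≠ 0) :
    ∫⁻ z : ℝ × ℝ, F (V p z) * G (V q z) =
      ENNReal.ofReal |(p.1 - q.1)⁻¹| * (∫⁻ v, F v) * ∫⁻ v, G v := by
  have hV : ∀ r : ℝ × ℝ, Measurable (V r) := by
    intro r
    unfold V
    fun_prop
  have hm : Measurable fun z : ℝ × ℝ => F (V p z) * G (V q z) :=
    (hF.comp (hV p)).mul (hG.comp (hV q))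
  rw [Measure.volume_eq_prod, lintegral_prod _ hm.aemeasurable]
  have h1 : ∀ s : ℝ, ∫⁻ t, F (V p (s, t)) * G (V q (s, t)) =
      ∫⁻ v, F ((p.2 - q.2 + v) - s * (p.1 - q.1)) * G v := by
    intro s
    rw [← lintegral_sub_left_eq_self (μ := volume)
      (fun v => F ((p.2 - q.2 + v) - s * (p.1 - q.1)) * G v) (q.2 - s * q.1)]
    congr 1
    funext t
    simp only [V]
    congr 2
    ring
  simp_rw [h1]
  rw [lintegral_lintegral_swap]
  · have h2 : ∀ v : ℝ, ∫⁻ s, F ((p.2 - q.2 + v) - s * (p.1 - q.1)) * G v =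
        ENNReal.ofReal |(p.1 - q.1)⁻¹| * (∫⁻ v, F v) * G v := by
      intro v
      rw [lintegral_mul_const, lintegral_affine hF hpq]
      exact hF.comp (by fun_prop)
    simp_rw [h2]
    rw [lintegral_const_mul _ hG]
  · refine Measurable.aemeasurable ?_
    refine Measurable.mul (hF.comp ?_) (hG.comp measurable_snd)
    fun_prop

/-- the trivial bound, on `Om` -/
theorem lintegral_Om {G : ℝ → ENNReal} (hG : Measurable G) (q : ℝ × ℝ) :
    ∫⁻ z in Om, G (V q z) = ∫⁻ v, G v := by
  have hV : Measurable (V q) := by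
    unfold V
    fun_prop
  have hOm : Om = Set.Icc (-(1 / 2) : ℝ) (1 / 2) ×ˢ (Set.univ : Set ℝ) := by
    ext z
    simp [Om, abs_le]
  rw [hOm, Measure.volume_eq_prod, ← Measure.prod_restrict, Measure.restrict_univ,
    lintegral_prod (fun z => G (V q z)) (hG.comp hV).aemeasurable]
  have h1 : ∀ s : ℝ, ∫⁻ t, G (V q (s, t)) = ∫⁻ v, G v := by
    intro s
    rw [← lintegral_sub_left_eq_self (μ := volume) G (q.2 - s * q.1)]
    rfl
  simp_rw [h1]
  rw [lintegral_const, Measure.restrict_apply MeasurableSet.univ, Set.univ_inter, Real.volume_Icc]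
  norm_num

theorem lintegral_shear {F G : ℝ → ENNReal} (hF : Measurable F) (hG : Measurable G)
    {a : ℝ} (ha : a ≠ 0) (b : ℝ) :
    ∫⁻ z : ℝ × ℝ, F ((b + z.2) - z.1 * a) * G z.2 =
      ENNReal.ofReal |a⁻¹| * (∫⁻ v, F v) * ∫⁻ v, G v := by
  have hm : Measurable fun z : ℝ × ℝ => F ((b + z.2) - z.1 * a) * G z.2 :=
    (hF.comp (by fun_prop)).mul (hG.comp measurable_snd)
  rw [Measure.volume_eq_prod, lintegral_prod_symm _ hm.aemeasurable]
  have h2 : ∀ v : ℝ, ∫⁻ s, F ((b + v) - s * a) * G v =
      ENNReal.ofReal |a⁻¹| * (∫⁻ v, F v) * G v := by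
    intro v
    rw [lintegral_mul_const, lintegral_affine hF ha]
    exact hF.comp (by fun_prop)
  simp_rw [h2]
  rw [lintegral_const_mul _ hG]

theorem integral_affine (F : ℝ → ℝ) (a b : ℝ) :
    ∫ s, F (b - s * a) = |a⁻¹| * ∫ v, F v := by
  have h1 : ∫ s, F (b - s * a) = ∫ s, (fun u => F (b - u)) (a * s) := by
    congr 1; funext s; simp only; rw [mul_comm]
  rw [h1]
  refine (Measure.integral_comp_mul_left (fun u => F (b - u)) a).trans ?_
  rw [integral_sub_left_eq_self, smul_eq_mul]

theorem lintegral_abs_prof {M : ℕ} (hM : 0 < M) {w : ℝ} (hw : 0 < w) (x : ℝ) :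
    ∫⁻ v, ENNReal.ofReal |prof M w x v| ≤ ENNReal.ofReal 2 := by
  rw [← ofReal_integral_eq_lintegral_ofReal (integrable_prof M w x).abs
    (Filter.Eventually.of_forall fun v => abs_nonneg _)]
  exact ENNReal.ofReal_le_ofReal (integral_abs_prof hM hw x)

theorem measurable_V (r : ℝ × ℝ) : Measurable (V r) := by
  unfold V
  fun_prop

theorem measurable_absprof (M : ℕ) (w x : ℝ) :
    Measurable fun v => ENNReal.ofReal |prof M w x v| :=
  (measurable_prof M w x).norm.ennreal_ofReal

theorem Cor_le {M : ℕ} (hM : 0 < M) {w : ℝ} (hw : 0 < w) {p q : ℝ × ℝ} (hp : |p.1| ≤ 1)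
    (hq : |q.1| ≤ 1) : |Cor M w p q| ≤ 1 / w := by
  have h1 := norm_integral_le_lintegral_norm (μ := volume.restrict Om)
    (fun z => prof M w p.1 (V p z) * prof M w q.1 (V q z))
  rw [Real.norm_eq_abs] at h1
  refine h1.trans ?_
  apply ENNReal.toReal_le_of_le_ofReal (by positivity)
  calc ∫⁻ z in Om, ENNReal.ofReal ‖prof M w p.1 (V p z) * prof M w q.1 (V q z)‖
      ≤ ∫⁻ z in Om, ENNReal.ofReal (1 / (2 * w)) * ENNReal.ofReal |prof M w q.1 (V q z)| := by
        refine lintegral_mono fun z => ?_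
        show ENNReal.ofReal ‖prof M w p.1 (V p z) * prof M w q.1 (V q z)‖ ≤
          ENNReal.ofReal (1 / (2 * w)) * ENNReal.ofReal |prof M w q.1 (V q z)|
        rw [← ENNReal.ofReal_mul (by positivity), norm_mul, Real.norm_eq_abs, Real.norm_eq_abs]
        exact ENNReal.ofReal_le_ofReal
          (mul_le_mul_of_nonneg_right (abs_prof_le hM hw _ _) (abs_nonneg _))
    _ = ENNReal.ofReal (1 / (2 * w)) * ∫⁻ v, ENNReal.ofReal |prof M w q.1 v| := by
        refine (lintegral_const_mul _
          ((measurable_absprof M w q.1).comp (measurable_V q))).trans ?_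
        congr 1
        exact lintegral_Om (measurable_absprof M w q.1) q
    _ ≤ ENNReal.ofReal (1 / (2 * w)) * ENNReal.ofReal 2 := by
        gcongr
        exact lintegral_abs_prof hM hw _
    _ = ENNReal.ofReal (1 / w) := by
        rw [← ENNReal.ofReal_mul (by positivity)]
        congr 1
        field_simp

theorem Cor_le' {M : ℕ} (hM : 0 < M) {w : ℝ} (hw : 0 < w) {p q : ℝ × ℝ} (hp : |p.1| ≤ 1)
    (hq : |q.1| ≤ 1) : |Cor M w p q| * |p.1 - q.1| ≤ 4 := by
  by_cases hpq : p.1 - q.1 = 0
  · rw [hpq, abs_zero, mul_zero]; norm_num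
  have hpos : 0 < |p.1 - q.1| := abs_pos.2 hpq
  rw [← le_div_iff₀ hpos]
  have h1 := norm_integral_le_lintegral_norm (μ := volume.restrict Om)
    (fun z => prof M w p.1 (V p z) * prof M w q.1 (V q z))
  rw [Real.norm_eq_abs] at h1
  refine h1.trans ?_
  apply ENNReal.toReal_le_of_le_ofReal (by positivity)
  calc ∫⁻ z in Om, ENNReal.ofReal ‖prof M w p.1 (V p z) * prof M w q.1 (V q z)‖
      ≤ ∫⁻ z, ENNReal.ofReal ‖prof M w p.1 (V p z) * prof M w q.1 (V q z)‖ :=
        setLIntegral_le_lintegral _ _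
    _ = ∫⁻ z, ENNReal.ofReal |prof M w p.1 (V p z)| * ENNReal.ofReal |prof M w q.1 (V q z)| := by
        refine lintegral_congr fun z => ?_
        rw [← ENNReal.ofReal_mul (abs_nonneg _), norm_mul, Real.norm_eq_abs, Real.norm_eq_abs]
    _ = ENNReal.ofReal |(p.1 - q.1)⁻¹| * (∫⁻ v, ENNReal.ofReal |prof M w p.1 v|) *
          ∫⁻ v, ENNReal.ofReal |prof M w q.1 v| :=
        lintegral_lines (measurable_absprof M w p.1) (measurable_absprof M w q.1) hpq
    _ ≤ ENNReal.ofReal |(p.1 - q.1)⁻¹| * ENNReal.ofReal 2 * ENNReal.ofReal 2 := by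
        gcongr
        · exact lintegral_abs_prof hM hw _
        · exact lintegral_abs_prof hM hw _
    _ = ENNReal.ofReal (4 / |p.1 - q.1|) := by
        rw [← ENNReal.ofReal_mul (by positivity), ← ENNReal.ofReal_mul (by positivity)]
        congr 1
        rw [abs_inv]
        field_simp
        norm_num

theorem Cor_zero {M : ℕ} (hM : 0 < M) {w : ℝ} (hw : 0 < w) {p q : ℝ × ℝ} (hp : |p.1| ≤ 1)
    (hq : |q.1| ≤ 1) (h : 6 * (M * w) < |(|p.1 - q.1| / 2 - |p.2 - q.2|)|) :
    Cor M w p q = 0 := by
  have hM' : (0 : ℝ) < M := by exact_mod_cast hM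
  have hMw : 0 < M * w := by positivity
  have key : ∀ z : ℝ × ℝ, 6 * (M * w) < |(p.2 - q.2) - z.1 * (p.1 - q.1)| →
      prof M w p.1 (V p z) * prof M w q.1 (V q z) = 0 := by
    intro z hz
    by_cases h3 : 3 * (M * w) < |V p z|
    · rw [prof_zero hM hw hp h3, zero_mul]
    · have h4 : 3 * (M * w) < |V q z| := by
        by_contra h4
        push Not at h3 h4
        have h5 : (p.2 - q.2) - z.1 * (p.1 - q.1) = V p z - V q z := by
          unfold V; ring
        rw [h5] at hz
        have := abs_sub (V p z) (V q z)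
        linarith
      rw [prof_zero hM hw hq h4, mul_zero]
  rcases le_or_gt |p.2 - q.2| (|p.1 - q.1| / 2) with hc | hc
  · rw [abs_of_nonneg (by linarith)] at h
    have hpq : p.1 - q.1 ≠ 0 := by
      intro h0
      rw [h0, abs_zero] at h hc
      have := abs_nonneg (p.2 - q.2)
      linarith
    have hfull : Cor M w p q = ∫ z, prof M w p.1 (V p z) * prof M w q.1 (V q z) := by
      unfold Cor
      refine setIntegral_eq_integral_of_forall_compl_eq_zero fun z hz => key z ?_
      have hz' : 1 / 2 < |z.1| := by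
        simpa [Om] using hz
      have h5 : |z.1| * |p.1 - q.1| ≤ |(p.2 - q.2) - z.1 * (p.1 - q.1)| + |p.2 - q.2| := by
        rw [← abs_mul]
        have := abs_sub (p.2 - q.2) ((p.2 - q.2) - z.1 * (p.1 - q.1))
        have h6 : (p.2 - q.2) - ((p.2 - q.2) - z.1 * (p.1 - q.1)) = z.1 * (p.1 - q.1) := by ring
        rw [h6] at this
        linarith
      nlinarith [abs_nonneg (p.1 - q.1)]
    have hb : ∀ z : ℝ × ℝ, ENNReal.ofReal ‖prof M w p.1 (V p z) * prof M w q.1 (V q z)‖ =
        ENNReal.ofReal |prof M w p.1 (V p z)| * ENNReal.ofReal |prof M w q.1 (V q z)| := by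
      intro z
      rw [← ENNReal.ofReal_mul (abs_nonneg _), norm_mul, Real.norm_eq_abs, Real.norm_eq_abs]
    have hfin : ENNReal.ofReal |(p.1 - q.1)⁻¹| * (∫⁻ v, ENNReal.ofReal |prof M w p.1 v|) *
        ∫⁻ v, ENNReal.ofReal |prof M w q.1 v| < ⊤ := by
      refine ENNReal.mul_lt_top (ENNReal.mul_lt_top ENNReal.ofReal_lt_top ?_) ?_
      · exact (lintegral_abs_prof hM hw _).trans_lt ENNReal.ofReal_lt_top
      · exact (lintegral_abs_prof hM hw _).trans_lt ENNReal.ofReal_lt_top
    have hint1 : Integrable (fun z : ℝ × ℝ => prof M w p.1 (V p z) * prof M w q.1 (V q z))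
        (volume.prod volume) := by
      refine ⟨(((measurable_prof M w p.1).comp (measurable_V p)).mul
        ((measurable_prof M w q.1).comp (measurable_V q))).aestronglyMeasurable, ?_⟩
      rw [hasFiniteIntegral_iff_norm]
      simp_rw [hb]
      rw [← Measure.volume_eq_prod, lintegral_lines (measurable_absprof M w p.1)
        (measurable_absprof M w q.1) hpq]
      exact hfin
    have hint2 : Integrable (fun z : ℝ × ℝ =>
        prof M w p.1 ((p.2 - q.2 + z.2) - z.1 * (p.1 - q.1)) * prof M w q.1 z.2)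
        (volume.prod volume) := by
      refine ⟨(((measurable_prof M w p.1).comp (by fun_prop)).mul
        ((measurable_prof M w q.1).comp measurable_snd)).aestronglyMeasurable, ?_⟩
      rw [hasFiniteIntegral_iff_norm]
      have hb2 : ∀ z : ℝ × ℝ, ENNReal.ofReal
          ‖prof M w p.1 ((p.2 - q.2 + z.2) - z.1 * (p.1 - q.1)) * prof M w q.1 z.2‖ =
          ENNReal.ofReal |prof M w p.1 ((p.2 - q.2 + z.2) - z.1 * (p.1 - q.1))| *
            ENNReal.ofReal |prof M w q.1 z.2| := by
        intro z
        rw [← ENNReal.ofReal_mul (abs_nonneg _), norm_mul, Real.norm_eq_abs, Real.norm_eq_abs]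
      simp_rw [hb2]
      rw [← Measure.volume_eq_prod, lintegral_shear (measurable_absprof M w p.1)
        (measurable_absprof M w q.1) hpq]
      exact hfin
    rw [hfull, Measure.volume_eq_prod, integral_prod _ hint1]
    have hinner : ∀ s : ℝ, ∫ t, prof M w p.1 (V p (s, t)) * prof M w q.1 (V q (s, t)) =
        ∫ v, prof M w p.1 ((p.2 - q.2 + v) - s * (p.1 - q.1)) * prof M w q.1 v := by
      intro s
      rw [← integral_sub_left_eq_self (μ := (volume : Measure ℝ))
        (fun v => prof M w p.1 ((p.2 - q.2 + v) - s * (p.1 - q.1)) * prof M w q.1 v)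
        (q.2 - s * q.1)]
      congr 1
      funext t
      simp only [V]
      congr 2
      ring
    simp_rw [hinner]
    have h7 := integral_prod _ hint2
    have h8 := integral_prod_symm _ hint2
    simp only at h7 h8
    rw [← h7, h8]
    have h9 : ∀ v : ℝ, ∫ s, prof M w p.1 ((p.2 - q.2 + v) - s * (p.1 - q.1)) *
        prof M w q.1 v = 0 := by
      intro v
      rw [integral_mul_const, integral_affine, integral_prof hM hw, mul_zero, zero_mul]
    simp_rw [h9]
    exact integral_zero _ _
  · rw [abs_of_neg (by linarith)] at h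
    unfold Cor
    refine setIntegral_eq_zero_of_forall_eq_zero fun z hz => key z ?_
    have hz' : |z.1| ≤ 1 / 2 := hz
    have h5 : |p.2 - q.2| ≤ |(p.2 - q.2) - z.1 * (p.1 - q.1)| + |z.1| * |p.1 - q.1| := by
      rw [← abs_mul]
      have := abs_add_le ((p.2 - q.2) - z.1 * (p.1 - q.1)) (z.1 * (p.1 - q.1))
      have h6 : (p.2 - q.2) - z.1 * (p.1 - q.1) + z.1 * (p.1 - q.1) = p.2 - q.2 := by ring
      rwa [h6] at this
    nlinarith [abs_nonneg (p.1 - q.1)]

end Hilo
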