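import Mathlib
import Pool.Agent.Hilo.Defs5

/-!
# Row R4: the sum of the correlations (from the rectangle count and the three correlation bounds)
-/

set_option autoImplicit false

namespace Hilo
open Finset

/-- one class: all the points with a non-zero value are in one of two sets `A`, `B` -/
theorem class_le {P : Finset (ℝ × ℝ)} {f : ℝ × ℝ → ℝ} {S A B : ℝ × ℝ → Prop}
    [DecidablePred S] [DecidablePred A] [DecidablePred B] {b N₁ N₂ : ℝ} (hb : 0 ≤ b)
    (hf : ∀ q ∈ P, S q → f q ≤ b) (h0 : ∀ q ∈ P, S q → ¬ A q → ¬ B q → f q ≤ 0)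
    (hA : ((P.filter A).card : ℝ) ≤ N₁) (hB : ((P.filter B).card : ℝ) ≤ N₂) :
    ∑ q ∈ P.filter S, f q ≤ (N₁ + N₂) * b := by
  have h1 : ∑ q ∈ P.filter S, f q ≤
      ∑ q ∈ P, ((if A q then b else 0) + (if B q then b else 0)) := by
    rw [Finset.sum_filter]
    refine Finset.sum_le_sum fun q hq => ?_
    by_cases hS : S q
    · rw [if_pos hS]
      by_cases hAq : A q
      · rw [if_pos hAq]
        have := hf q hq hS
        split_ifs <;> linarith
      · rw [if_neg hAq]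
        by_cases hBq : B q
        · rw [if_pos hBq]
          have := hf q hq hS
          linarith
        · rw [if_neg hBq]
          have := h0 q hq hS hAq hBq
          linarith
    · rw [if_neg hS]
      split_ifs <;> linarith
  refine h1.trans ?_
  rw [Finset.sum_add_distrib, ← Finset.sum_filter, ← Finset.sum_filter, Finset.sum_const,
    Finset.sum_const, nsmul_eq_mul, nsmul_eq_mul, add_mul]
  exact add_le_add (mul_le_mul_of_nonneg_right hA hb) (mul_le_mul_of_nonneg_right hB hb)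

/-- covering of the sum by classes -/
theorem split_le {P : Finset (ℝ × ℝ)} {f : ℝ × ℝ → ℝ} (hf : ∀ q ∈ P, 0 ≤ f q)
    (S₀ : ℝ × ℝ → Prop) (S : ℕ → ℝ × ℝ → Prop) [DecidablePred S₀] [∀ k, DecidablePred (S k)]
    (K : ℕ) (hc : ∀ q ∈ P, S₀ q ∨ ∃ k < K, S k q) :
    ∑ q ∈ P, f q ≤ ∑ q ∈ P.filter S₀, f q + ∑ k ∈ range K, ∑ q ∈ P.filter (S k), f q := by
  have h1 : ∑ k ∈ range K, ∑ q ∈ P.filter (S k), f q =
      ∑ q ∈ P, ∑ k ∈ range K, (if S k q then f q else 0) := by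
    rw [Finset.sum_comm]
    exact Finset.sum_congr rfl fun k _ => Finset.sum_filter _ _
  rw [h1, Finset.sum_filter, ← Finset.sum_add_distrib]
  refine Finset.sum_le_sum fun q hq => ?_
  have hn : 0 ≤ f q := hf q hq
  have hn2 : 0 ≤ ∑ k ∈ range K, (if S k q then f q else 0) :=
    Finset.sum_nonneg fun k _ => by split_ifs <;> simp [hn]
  rcases hc q hq with h | ⟨k, hk, h⟩
  · rw [if_pos h]
    linarith
  · have h2 : f q ≤ ∑ k ∈ range K, (if S k q then f q else 0) := by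
      have h3 := Finset.single_le_sum (f := fun k => if S k q then f q else 0)
        (fun i _ => by split_ifs <;> simp [hn]) (Finset.mem_range.2 hk)
      simpa [h] using h3
    have h4 : 0 ≤ (if S₀ q then f q else 0) := by split_ifs <;> simp [hn]
    linarith

open Classical in
/-- R4 with the rows R1 and R3 as hypotheses -/
theorem cor_sum_aux
    (R1 : ∀ {h : ℝ}, 0 < h → ∀ {P : Finset (ℝ × ℝ)}, Sep h P → ∀ {α a b l₁ l₂ : ℝ},
      |α| ≤ 1 → 0 ≤ l₁ → 0 ≤ l₂ →
      ((P.filter (fun q => a ≤ q.1 ∧ q.1 ≤ a + l₁ ∧ b ≤ q.2 - α * q.1 ∧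
        q.2 - α * q.1 ≤ b + l₂)).card : ℝ) ≤ (2 * l₁ / h + 1) * (2 * l₂ / h + 1))
    (R3a : ∀ {M : ℕ}, 0 < M → ∀ {w : ℝ}, 0 < w → ∀ {p q : ℝ × ℝ}, |p.1| ≤ 1 → |q.1| ≤ 1 →
      |Cor M w p q| ≤ 1 / w)
    (R3b : ∀ {M : ℕ}, 0 < M → ∀ {w : ℝ}, 0 < w → ∀ {p q : ℝ × ℝ}, |p.1| ≤ 1 → |q.1| ≤ 1 →
      |Cor M w p q| * |p.1 - q.1| ≤ 4)
    (R3c : ∀ {M : ℕ}, 0 < M → ∀ {w : ℝ}, 0 < w → ∀ {p q : ℝ × ℝ}, |p.1| ≤ 1 → |q.1| ≤ 1 →
      6 * (M * w) < |(|p.1 - q.1| / 2 - |p.2 - q.2|)| → Cor M w p q = 0) :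
    ∃ C : ℝ, 0 < C ∧ ∀ (M : ℕ) (h w : ℝ) (P : Finset (ℝ × ℝ)) (p : ℝ × ℝ),
    0 < M → 0 < h → h ≤ 1 → 0 < w → M * w ≤ 1 → InSq P → Sep h P → p ∈ P →
    ∑ q ∈ P, |Cor M w p q| ≤
      C * (1 + M * w / h) ^ 2 * (1 / w + (1 + Real.log (1 / (M * w))) / (M * w)) := by
  refine ⟨4000, by norm_num, ?_⟩
  intro M h w P p hM hh hh1 hw hW1 hP hS hp
  have hMr : (0 : ℝ) < M := by exact_mod_cast hM
  obtain ⟨W, hWdef⟩ : ∃ W : ℝ, W = M * w := ⟨_, rfl⟩
  have hW : 0 < W := by rw [hWdef]; positivity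
  rw [← hWdef] at hW1 ⊢
  have hx : ∀ q ∈ P, |q.1| ≤ 1 := fun q hq => by
    obtain ⟨h1, h2, -, -⟩ := hP q hq
    rw [abs_of_nonneg h1]; exact h2.le
  have hdx : ∀ q ∈ P, |p.1 - q.1| < 1 := fun q hq => by
    obtain ⟨h1, h2, -, -⟩ := hP q hq
    obtain ⟨h3, h4, -, -⟩ := hP p hp
    rw [abs_lt]; constructor <;> linarith
  have hrel : ∀ q ∈ P, Cor M w p q ≠ 0 → |(|p.1 - q.1| / 2 - |p.2 - q.2|)| ≤ 6 * W :=
    fun q hq hne => by
      by_contra hlt
      rw [hWdef] at hlt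
      exact hne (R3c hM hw (hx p hp) (hx q hq) (lt_of_not_ge hlt))
  have hWh : 0 < W / h := div_pos hW hh
  -- number of scales
  obtain ⟨K, hKdef⟩ : ∃ K : ℕ, K = ⌊Real.logb 2 (1 / W)⌋₊ + 1 := ⟨_, rfl⟩
  have hlog0 : 0 ≤ Real.log (1 / W) := Real.log_nonneg (by rw [le_div_iff₀ hW]; linarith)
  have hlogb0 : 0 ≤ Real.logb 2 (1 / W) := by
    unfold Real.logb
    exact div_nonneg hlog0 (Real.log_nonneg (by norm_num))
  have hKle : (K : ℝ) ≤ 2 * (1 + Real.log (1 / W)) := by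
    have h1 : (K : ℝ) ≤ Real.logb 2 (1 / W) + 1 := by
      rw [hKdef]; push_cast
      linarith [Nat.floor_le hlogb0]
    have h2 : Real.logb 2 (1 / W) ≤ 2 * Real.log (1 / W) := by
      unfold Real.logb
      rw [div_le_iff₀ (Real.log_pos (by norm_num))]
      have := Real.log_two_gt_d9
      nlinarith
    linarith
  have hscale : ∀ x : ℝ, W ≤ x → x < 1 → ∃ k < K, 2 ^ k * W ≤ x ∧ x < 2 ^ (k + 1) * W := by
    intro x hx1 hx2
    obtain ⟨k, hk1, hk2⟩ := exists_nat_pow_near (x := x / W) (y := (2 : ℝ))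
      (by rw [le_div_iff₀ hW]; linarith) (by norm_num)
    rw [le_div_iff₀ hW] at hk1
    rw [div_lt_iff₀ hW] at hk2
    refine ⟨k, ?_, hk1, hk2⟩
    rw [hKdef, Nat.lt_succ_iff]
    apply Nat.le_floor
    rw [Real.le_logb_iff_rpow_le (by norm_num) (by positivity), Real.rpow_natCast,
      le_div_iff₀ hW]
    linarith
  -- the split
  have key := split_le (P := P) (f := fun q => |Cor M w p q|) (fun q _ => abs_nonneg _)
    (fun q => |p.1 - q.1| < W)
    (fun k q => 2 ^ k * W ≤ |p.1 - q.1| ∧ |p.1 - q.1| < 2 ^ (k + 1) * W) K (fun q hq => by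
      by_cases hlt : |p.1 - q.1| < W
      · exact Or.inl hlt
      · exact Or.inr (hscale _ (not_lt.1 hlt) (hdx q hq)))
  -- the class of the near points
  have h0 : ∑ q ∈ P.filter (fun q => |p.1 - q.1| < W), |Cor M w p q| ≤
      (112 * (1 + W / h) ^ 2 + 0) * (1 / w) := by
    refine class_le (A := fun q => p.1 - W ≤ q.1 ∧ q.1 ≤ (p.1 - W) + 2 * W ∧
      p.2 - 7 * W ≤ q.2 - 0 * q.1 ∧ q.2 - 0 * q.1 ≤ (p.2 - 7 * W) + 14 * W)
      (B := fun _ => False) (by positivity)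
      (fun q hq _ => R3a hM hw (hx p hp) (hx q hq)) ?_ ?_ (by simp)
    · intro q hq hlt hA _
      by_contra hne
      have hne' : Cor M w p q ≠ 0 := fun h => hne (by rw [h, abs_zero])
      have h1 := hrel q hq hne'
      apply hA
      rw [abs_le] at h1
      have h2 : |p.2 - q.2| ≤ 7 * W := by
        have := h1.1
        linarith
      rw [abs_lt] at hlt
      rw [abs_le] at h2
      refine ⟨by linarith [hlt.2], by linarith [hlt.1], by linarith [h2.2], by linarith [h2.1]⟩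
    · refine (R1 hh hS (α := 0) (a := p.1 - W) (b := p.2 - 7 * W) (l₁ := 2 * W) (l₂ := 14 * W)
        (by norm_num) (by positivity) (by positivity)).trans ?_
      have e1 : 2 * (2 * W) / h + 1 ≤ 4 * (1 + W / h) := by
        have : 2 * (2 * W) / h = 4 * (W / h) := by ring
        rw [this]; linarith
      have e2 : 2 * (14 * W) / h + 1 ≤ 28 * (1 + W / h) := by
        have : 2 * (14 * W) / h = 28 * (W / h) := by ring
        rw [this]; linarith
      calc (2 * (2 * W) / h + 1) * (2 * (14 * W) / h + 1)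
          ≤ (4 * (1 + W / h)) * (28 * (1 + W / h)) :=
            mul_le_mul e1 e2 (by positivity) (by positivity)
        _ = 112 * (1 + W / h) ^ 2 := by ring
  -- the dyadic classes
  have hk : ∀ k ∈ range K, ∑ q ∈ P.filter (fun q => 2 ^ k * W ≤ |p.1 - q.1| ∧
      |p.1 - q.1| < 2 ^ (k + 1) * W), |Cor M w p q| ≤ 1536 * (1 + W / h) ^ 2 / W := by
    intro k _
    obtain ⟨r, hr⟩ : ∃ r : ℝ, r = 2 ^ k := ⟨_, rfl⟩
    have hr1 : 1 ≤ r := by rw [hr]; exact one_le_pow₀ (by norm_num)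
    have hr0 : 0 < r := by linarith
    have hr2 : (2 : ℝ) ^ (k + 1) = 2 * r := by rw [pow_succ, hr]; ring
    rw [← hr, hr2]
    have h1 := class_le (P := P) (f := fun q => |Cor M w p q|)
      (S := fun q => r * W ≤ |p.1 - q.1| ∧ |p.1 - q.1| < 2 * r * W)
      (A := fun q => p.1 - 2 * r * W ≤ q.1 ∧ q.1 ≤ (p.1 - 2 * r * W) + 4 * r * W ∧
        p.2 - p.1 / 2 - 6 * W ≤ q.2 - 1 / 2 * q.1 ∧
        q.2 - 1 / 2 * q.1 ≤ (p.2 - p.1 / 2 - 6 * W) + 12 * W)
      (B := fun q => p.1 - 2 * r * W ≤ q.1 ∧ q.1 ≤ (p.1 - 2 * r * W) + 4 * r * W ∧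
        p.2 + p.1 / 2 - 6 * W ≤ q.2 - (-1 / 2) * q.1 ∧
        q.2 - (-1 / 2) * q.1 ≤ (p.2 + p.1 / 2 - 6 * W) + 12 * W)
      (b := 4 / (r * W))
      (N₁ := (2 * (4 * r * W) / h + 1) * (2 * (12 * W) / h + 1))
      (N₂ := (2 * (4 * r * W) / h + 1) * (2 * (12 * W) / h + 1)) (by positivity)
      (fun q hq hSq => by
        rw [le_div_iff₀ (by positivity)]
        exact (mul_le_mul_of_nonneg_left hSq.1 (abs_nonneg _)).trans
          (R3b hM hw (hx p hp) (hx q hq)))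
      (fun q hq hSq hA hB => by
        by_contra hne
        have hne' : Cor M w p q ≠ 0 := fun h => hne (by rw [h, abs_zero])
        have h1 := hrel q hq hne'
        have h2 := hSq.2
        rw [abs_lt] at h2
        have e1 : p.1 - 2 * r * W ≤ q.1 := by linarith [h2.2]
        have e2 : q.1 ≤ (p.1 - 2 * r * W) + 4 * r * W := by linarith [h2.1]
        rw [abs_le] at h1
        rcases le_total 0 (p.1 - q.1) with hx0 | hx0 <;>
          rcases le_total 0 (p.2 - q.2) with hy0 | hy0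
        · rw [abs_of_nonneg hx0, abs_of_nonneg hy0] at h1
          exact hA ⟨e1, e2, by linarith [h1.1, h1.2], by linarith [h1.1, h1.2]⟩
        · rw [abs_of_nonneg hx0, abs_of_nonpos hy0] at h1
          exact hB ⟨e1, e2, by linarith [h1.1, h1.2], by linarith [h1.1, h1.2]⟩
        · rw [abs_of_nonpos hx0, abs_of_nonneg hy0] at h1
          exact hB ⟨e1, e2, by linarith [h1.1, h1.2], by linarith [h1.1, h1.2]⟩
        · rw [abs_of_nonpos hx0, abs_of_nonpos hy0] at h1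
          exact hA ⟨e1, e2, by linarith [h1.1, h1.2], by linarith [h1.1, h1.2]⟩)
      (R1 hh hS (by rw [abs_le]; constructor <;> norm_num) (by positivity) (by positivity))
      (R1 hh hS (by rw [abs_le]; constructor <;> norm_num) (by positivity) (by positivity))
    refine h1.trans ?_
    have e1 : 2 * (4 * r * W) / h + 1 ≤ r * (8 * (1 + W / h)) := by
      have : 2 * (4 * r * W) / h = r * (8 * (W / h)) := by ring
      rw [this]; nlinarith
    have e2 : 2 * (12 * W) / h + 1 ≤ 24 * (1 + W / h) := by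
      have : 2 * (12 * W) / h = 24 * (W / h) := by ring
      rw [this]; linarith
    have e3 : (2 * (4 * r * W) / h + 1) * (2 * (12 * W) / h + 1) ≤
        (r * (8 * (1 + W / h))) * (24 * (1 + W / h)) :=
      mul_le_mul e1 e2 (by positivity) (by positivity)
    calc ((2 * (4 * r * W) / h + 1) * (2 * (12 * W) / h + 1) +
          (2 * (4 * r * W) / h + 1) * (2 * (12 * W) / h + 1)) * (4 / (r * W))
        ≤ ((r * (8 * (1 + W / h))) * (24 * (1 + W / h)) +
          (r * (8 * (1 + W / h))) * (24 * (1 + W / h))) * (4 / (r * W)) :=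
          mul_le_mul_of_nonneg_right (add_le_add e3 e3) (by positivity)
      _ = 1536 * (1 + W / h) ^ 2 / W := by
          field_simp
          ring
  have hsum : ∑ k ∈ range K, ∑ q ∈ P.filter (fun q => 2 ^ k * W ≤ |p.1 - q.1| ∧
      |p.1 - q.1| < 2 ^ (k + 1) * W), |Cor M w p q| ≤
      K * (1536 * (1 + W / h) ^ 2 / W) := by
    refine (Finset.sum_le_sum hk).trans ?_
    rw [Finset.sum_const, card_range, nsmul_eq_mul]
  have hfin : (K : ℝ) * (1536 * (1 + W / h) ^ 2 / W) ≤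
      4000 * (1 + W / h) ^ 2 * ((1 + Real.log (1 / W)) / W) := by
    have hnn : 0 ≤ 1536 * (1 + W / h) ^ 2 / W := by positivity
    have h1 := mul_le_mul_of_nonneg_right hKle hnn
    have h2 : 2 * (1 + Real.log (1 / W)) * (1536 * (1 + W / h) ^ 2 / W) =
        3072 * ((1 + W / h) ^ 2 * ((1 + Real.log (1 / W)) / W)) := by ring
    have h3 : 0 ≤ (1 + W / h) ^ 2 * ((1 + Real.log (1 / W)) / W) := by positivity
    rw [h2] at h1
    have h4 : 4000 * (1 + W / h) ^ 2 * ((1 + Real.log (1 / W)) / W) =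
        4000 * ((1 + W / h) ^ 2 * ((1 + Real.log (1 / W)) / W)) := by ring
    rw [h4]
    linarith
  have hfin0 : (112 * (1 + W / h) ^ 2 + 0) * (1 / w) ≤ 4000 * (1 + W / h) ^ 2 * (1 / w) := by
    have : 0 ≤ (1 + W / h) ^ 2 * (1 / w) := by positivity
    nlinarith
  calc ∑ q ∈ P, |Cor M w p q| ≤ _ := key
    _ ≤ 4000 * (1 + W / h) ^ 2 * (1 / w) +
        4000 * (1 + W / h) ^ 2 * ((1 + Real.log (1 / W)) / W) := by
        refine add_le_add (h0.trans hfin0) (le_trans ?_ hfin)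
        exact hsum
    _ = 4000 * (1 + W / h) ^ 2 * (1 / w + (1 + Real.log (1 / W)) / W) := by ring

end Hilo
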