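import Pool.Agent.Hilo.Defs5

/-! # Separated points in a parallelogram -/

set_option autoImplicit false

namespace Hilo

/-- Two numbers with the same natural floor differ by less than one. -/
theorem abs_sub_lt_one_of_floor46 {x y : ℝ} (hx : 0 ≤ x) (hy : 0 ≤ y) (h : ⌊x⌋₊ = ⌊y⌋₊) :
    |x - y| < 1 := by
  have h1 := Nat.floor_le hx
  have h2 := Nat.floor_le hy
  have h3 := Nat.lt_floor_add_one x
  have h4 := Nat.lt_floor_add_one y
  rw [h] at h1 h3
  rw [abs_lt]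
  constructor <;> linarith

theorem card_rect {h : ℝ} (hh : 0 < h) {P : Finset (ℝ × ℝ)} (hP : Sep h P) {α a b l₁ l₂ : ℝ}
    (hα : |α| ≤ 1) (h1 : 0 ≤ l₁) (h2 : 0 ≤ l₂) :
    ((P.filter (fun q => a ≤ q.1 ∧ q.1 ≤ a + l₁ ∧ b ≤ q.2 - α * q.1 ∧
      q.2 - α * q.1 ≤ b + l₂)).card : ℝ) ≤ (2 * l₁ / h + 1) * (2 * l₂ / h + 1) := by
  classical
  obtain ⟨F, hF⟩ : ∃ F, F = P.filter (fun q => a ≤ q.1 ∧ q.1 ≤ a + l₁ ∧ b ≤ q.2 - α * q.1 ∧
      q.2 - α * q.1 ≤ b + l₂) := ⟨_, rfl⟩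
  rw [← hF]
  have hmem : ∀ q ∈ F, q ∈ P ∧ a ≤ q.1 ∧ q.1 ≤ a + l₁ ∧ b ≤ q.2 - α * q.1 ∧
      q.2 - α * q.1 ≤ b + l₂ := by
    intro q hq
    rw [hF, Finset.mem_filter] at hq
    exact hq
  obtain ⟨f, hf⟩ : ∃ f : ℝ × ℝ → ℕ × ℕ, f = fun q =>
      (⌊2 * (q.1 - a) / h⌋₊, ⌊2 * (q.2 - α * q.1 - b) / h⌋₊) := ⟨_, rfl⟩
  have hcard : F.card ≤ (Finset.range (⌊2 * l₁ / h⌋₊ + 1) ×ˢ
      Finset.range (⌊2 * l₂ / h⌋₊ + 1)).card := by
    refine Finset.card_le_card_of_injOn f ?_ ?_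
    · intro q hq
      obtain ⟨-, h3, h4, h5, h6⟩ := hmem q (Finset.mem_coe.mp hq)
      rw [Finset.mem_coe, hf, Finset.mem_product, Finset.mem_range, Finset.mem_range]
      constructor
      · refine Nat.lt_succ_of_le (Nat.floor_le_floor ?_)
        gcongr
        linarith
      · refine Nat.lt_succ_of_le (Nat.floor_le_floor ?_)
        gcongr
        linarith
    · intro p hp q hq hpq
      obtain ⟨hpP, h3, h4, h5, h6⟩ := hmem p (Finset.mem_coe.mp hp)
      obtain ⟨hqP, k3, k4, k5, k6⟩ := hmem q (Finset.mem_coe.mp hq)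
      rw [hf, Prod.mk.injEq] at hpq
      by_contra hne
      have e1 := abs_sub_lt_one_of_floor46 (by apply div_nonneg <;> linarith)
        (by apply div_nonneg <;> linarith) hpq.1
      have e2 := abs_sub_lt_one_of_floor46 (by apply div_nonneg <;> linarith)
        (by apply div_nonneg <;> linarith) hpq.2
      have i1 : |p.1 - q.1| < h / 2 := by
        have e : 2 * (p.1 - a) / h - 2 * (q.1 - a) / h = (p.1 - q.1) / (h / 2) := by
          field_simp; ring
        rw [e, abs_div, abs_of_pos (by linarith : 0 < h / 2), div_lt_one (by linarith)] at e1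
        exact e1
      have i2 : |(p.2 - q.2) - α * (p.1 - q.1)| < h / 2 := by
        have e : 2 * (p.2 - α * p.1 - b) / h - 2 * (q.2 - α * q.1 - b) / h =
            ((p.2 - q.2) - α * (p.1 - q.1)) / (h / 2) := by
          field_simp; ring
        rw [e, abs_div, abs_of_pos (by linarith : 0 < h / 2), div_lt_one (by linarith)] at e2
        exact e2
      have i3 : |α * (p.1 - q.1)| ≤ |p.1 - q.1| := by
        rw [abs_mul]
        exact mul_le_of_le_one_left (abs_nonneg _) hα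
      have i4 : |p.2 - q.2| < h := by
        have e : p.2 - q.2 = ((p.2 - q.2) - α * (p.1 - q.1)) + α * (p.1 - q.1) := by ring
        rw [e]
        have := abs_add_le ((p.2 - q.2) - α * (p.1 - q.1)) (α * (p.1 - q.1))
        linarith
      rcases hP p hpP q hqP hne with h7 | h7 <;> linarith
  rw [Finset.card_product, Finset.card_range, Finset.card_range] at hcard
  have hcard' : (F.card : ℝ) ≤ ((⌊2 * l₁ / h⌋₊ : ℝ) + 1) * ((⌊2 * l₂ / h⌋₊ : ℝ) + 1) := by
    exact_mod_cast hcard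
  refine hcard'.trans ?_
  have f1 : (⌊2 * l₁ / h⌋₊ : ℝ) ≤ 2 * l₁ / h := Nat.floor_le (by positivity)
  have f2 : (⌊2 * l₂ / h⌋₊ : ℝ) ≤ 2 * l₂ / h := Nat.floor_le (by positivity)
  have g1 : 0 ≤ 2 * l₁ / h := by positivity
  exact mul_le_mul (by linarith) (by linarith) (by positivity) (by linarith)

end Hilo
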