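import Mathlib
import Pool.Agent.Hilo.Defs5
import Pool.Agent.Hilo.Rect46
import Pool.Agent.Hilo.Corr15
import Pool.Agent.Hilo.CorrSum80

/-!
# Row R4: the sum of the correlations
-/

set_option autoImplicit false

namespace Hilo
open Finset

theorem cor_sum : ∃ C : ℝ, 0 < C ∧ ∀ (M : ℕ) (h w : ℝ) (P : Finset (ℝ × ℝ)) (p : ℝ × ℝ),
    0 < M → 0 < h → h ≤ 1 → 0 < w → M * w ≤ 1 → InSq P → Sep h P → p ∈ P →
    ∑ q ∈ P, |Cor M w p q| ≤
      C * (1 + M * w / h) ^ 2 * (1 / w + (1 + Real.log (1 / (M * w))) / (M * w)) :=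
  cor_sum_aux (fun hh _ hP _ _ _ _ _ hα h1 h2 => card_rect hh hP hα h1 h2)
    (fun hM _ hw _ _ hp hq => Cor_le hM hw hp hq)
    (fun hM _ hw _ _ hp hq => Cor_le' hM hw hp hq)
    (fun hM _ hw _ _ hp hq h => Cor_zero hM hw hp hq h)

end Hilo
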