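import Pool.Agent.Hilo.Rect46

/-! # Pairs of close lines -/

set_option autoImplicit false

namespace Hilo

/-- a pair of `L` has slope at most `1/4` -/
theorem slope_le89 {u : ℝ} {P : Finset (ℝ × ℝ)} {L : Finset ((ℝ × ℝ) × (ℝ × ℝ))}
    (hL : Near u P L) {e : (ℝ × ℝ) × (ℝ × ℝ)} (he : e ∈ L) : |(lin e).1| ≤ 1 / 4 := by
  obtain ⟨-, -, h3, -, h5⟩ := hL e he
  have h6 : 0 < |e.2.1 - e.1.1| := by
    rw [abs_pos, sub_ne_zero]; exact fun h => h3 h.symm
  simp only [lin]
  rw [abs_div, div_le_iff₀ h6]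
  linarith

/-- the rise of a pair of `L` is its slope times its width -/
theorem rise_eq89 {u : ℝ} {P : Finset (ℝ × ℝ)} {L : Finset ((ℝ × ℝ) × (ℝ × ℝ))}
    (hL : Near u P L) {e : (ℝ × ℝ) × (ℝ × ℝ)} (he : e ∈ L) :
    e.2.2 - e.1.2 = (lin e).1 * (e.2.1 - e.1.1) := by
  obtain ⟨-, -, h3, -, -⟩ := hL e he
  have h6 : e.2.1 - e.1.1 ≠ 0 := by rw [sub_ne_zero]; exact fun h => h3 h.symm
  simp only [lin]
  field_simp

/-- the first point of a pair lies on its line -/
theorem first_eq89 (e : (ℝ × ℝ) × (ℝ × ℝ)) : e.1.2 = (lin e).1 * e.1.1 + (lin e).2 := by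
  simp only [lin]; ring

theorem ql_le {h K w : ℝ} {P : Finset (ℝ × ℝ)} {L : Finset ((ℝ × ℝ) × (ℝ × ℝ))} (hP : InSq P)
    (hs : Sep h P) (hh : 0 < h) (hh1 : h ≤ 1) (hK : 1 ≤ K) (hw : h ≤ w) (hL : Near (K * h) P L) :
    (QL w L lin : ℝ) ≤ 255 * L.card * (w / h ^ 2) * K * (1 + 8 * w * K) := by
  classical
  have hw0 : 0 < w := lt_of_lt_of_le hh hw
  have h2 : 0 < h ^ 2 := by positivity
  have key : ∀ e ∈ L, ((L.filter (fun e' => |(lin e).1 - (lin e').1| ≤ 2 * w ∧
      |(lin e).2 - (lin e').2| ≤ 2 * w)).card : ℝ) ≤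
      (51 * (w / h ^ 2)) * (5 * K * (1 + 8 * w * K)) := by
    intro e he
    obtain ⟨S, hS⟩ : ∃ S, S = P.filter (fun q => (0 : ℝ) ≤ q.1 ∧ q.1 ≤ 0 + 1 ∧
        (lin e).2 - 4 * w ≤ q.2 - (lin e).1 * q.1 ∧
        q.2 - (lin e).1 * q.1 ≤ (lin e).2 - 4 * w + 8 * w) := ⟨_, rfl⟩
    have hsl := slope_le89 hL he
    have hsl1 : |(lin e).1| ≤ 1 := by linarith
    have hSc : (S.card : ℝ) ≤ 51 * (w / h ^ 2) := by
      have h7 := card_rect hh hs (a := 0) (b := (lin e).2 - 4 * w) (l₁ := 1) (l₂ := 8 * w)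
        hsl1 (by norm_num) (by positivity)
      rw [← hS] at h7
      refine h7.trans ?_
      have h8 : 2 * 1 / h + 1 ≤ 3 / h := by
        rw [div_add_one hh.ne', div_le_div_iff_of_pos_right hh]; linarith
      have h9 : 2 * (8 * w) / h + 1 ≤ 17 * w / h := by
        rw [div_add_one hh.ne', div_le_div_iff_of_pos_right hh]; linarith
      calc (2 * 1 / h + 1) * (2 * (8 * w) / h + 1) ≤ 3 / h * (17 * w / h) := by
            apply mul_le_mul h8 h9 <;> positivity
        _ = 51 * (w / h ^ 2) := by field_simp; ring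
    obtain ⟨F, hF⟩ : ∃ F, F = L.filter (fun e' => |(lin e).1 - (lin e').1| ≤ 2 * w ∧
      |(lin e).2 - (lin e').2| ≤ 2 * w) := ⟨_, rfl⟩
    rw [← hF]
    have hmem : ∀ e' ∈ F, e' ∈ L ∧ |(lin e).1 - (lin e').1| ≤ 2 * w ∧
        |(lin e).2 - (lin e').2| ≤ 2 * w := by
      intro e' he'
      rw [hF, Finset.mem_filter] at he'
      exact he'
    have hmap : ∀ e' ∈ F, e'.1 ∈ S := by
      intro e' he'
      obtain ⟨h3, h4, h5⟩ := hmem e' he'
      obtain ⟨k1, -, -, -, -⟩ := hL e' h3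
      obtain ⟨m1, m2, m3, m4⟩ := hP _ k1
      rw [hS, Finset.mem_filter]
      refine ⟨k1, m1, by linarith, ?_⟩
      have h6 := first_eq89 e'
      have h7 : |((lin e').1 - (lin e).1) * e'.1.1| ≤ 2 * w := by
        rw [abs_mul, abs_of_nonneg m1, abs_sub_comm]
        calc |(lin e).1 - (lin e').1| * e'.1.1 ≤ 2 * w * 1 := by
              apply mul_le_mul h4 m2.le m1 (by positivity)
          _ = 2 * w := by ring
      rw [abs_le] at h5 h7
      constructor <;> nlinarith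
    have hfib : ∀ p ∈ S, ((F.filter (fun e' => e'.1 = p)).card : ℝ) ≤ 5 * K * (1 + 8 * w * K) := by
      intro p hp
      obtain ⟨G, hG⟩ : ∃ G, G = P.filter (fun q => p.1 - K * h ≤ q.1 ∧
          q.1 ≤ p.1 - K * h + 2 * (K * h) ∧
          p.2 - (lin e).1 * p.1 - 2 * w * (K * h) ≤ q.2 - (lin e).1 * q.1 ∧
          q.2 - (lin e).1 * q.1 ≤ p.2 - (lin e).1 * p.1 - 2 * w * (K * h) +
            4 * w * (K * h)) := ⟨_, rfl⟩
      have hGc := card_rect hh hs (a := p.1 - K * h)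
        (b := p.2 - (lin e).1 * p.1 - 2 * w * (K * h)) (l₁ := 2 * (K * h))
        (l₂ := 4 * w * (K * h)) hsl1 (by positivity) (by positivity)
      rw [← hG] at hGc
      have hle : (F.filter (fun e' => e'.1 = p)).card ≤ G.card := by
        refine Finset.card_le_card_of_injOn (fun e' => e'.2) ?_ ?_
        · intro e' he'
          rw [Finset.mem_coe, Finset.mem_filter] at he'
          obtain ⟨h3, h4, h5⟩ := hmem e' he'.1
          obtain ⟨-, k2, -, k4, -⟩ := hL e' h3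
          have h6 := rise_eq89 hL h3
          have h7 : |((lin e').1 - (lin e).1) * (e'.2.1 - e'.1.1)| ≤ 2 * w * (K * h) := by
            rw [abs_mul, abs_sub_comm]
            exact mul_le_mul h4 k4 (abs_nonneg _) (by positivity)
          rw [Finset.mem_coe, hG, Finset.mem_filter]
          rw [he'.2] at k4 h6 h7
          rw [abs_le] at k4 h7
          refine ⟨k2, by linarith, by linarith, ?_, ?_⟩ <;> nlinarith
        · intro e' he' e'' he'' hee
          rw [Finset.mem_coe, Finset.mem_filter] at he' he''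
          exact Prod.ext (he'.2.trans he''.2.symm) hee
      calc ((F.filter (fun e' => e'.1 = p)).card : ℝ) ≤ G.card := by exact_mod_cast hle
        _ ≤ (2 * (2 * (K * h)) / h + 1) * (2 * (4 * w * (K * h)) / h + 1) := hGc
        _ = (4 * K + 1) * (8 * w * K + 1) := by field_simp; ring
        _ ≤ 5 * K * (1 + 8 * w * K) := by
          have : 0 ≤ 8 * w * K + 1 := by positivity
          nlinarith
    rw [Finset.card_eq_sum_card_fiberwise hmap, Nat.cast_sum]
    calc ∑ p ∈ S, ((F.filter (fun e' => e'.1 = p)).card : ℝ) ≤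
          ∑ p ∈ S, 5 * K * (1 + 8 * w * K) := Finset.sum_le_sum hfib
      _ = S.card * (5 * K * (1 + 8 * w * K)) := by rw [Finset.sum_const, nsmul_eq_mul]
      _ ≤ (51 * (w / h ^ 2)) * (5 * K * (1 + 8 * w * K)) := by
        apply mul_le_mul_of_nonneg_right hSc
        positivity
  have hQ : QL w L lin = ∑ e ∈ L, (L.filter (fun e' => |(lin e).1 - (lin e').1| ≤ 2 * w ∧
      |(lin e).2 - (lin e').2| ≤ 2 * w)).card := by
    unfold QL
    rw [Finset.card_filter, Finset.sum_product]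
    refine Finset.sum_congr rfl fun e _ => ?_
    rw [Finset.card_filter]
  rw [hQ, Nat.cast_sum]
  calc ∑ e ∈ L, ((L.filter (fun e' => |(lin e).1 - (lin e').1| ≤ 2 * w ∧
      |(lin e).2 - (lin e').2| ≤ 2 * w)).card : ℝ) ≤
        ∑ e ∈ L, (51 * (w / h ^ 2)) * (5 * K * (1 + 8 * w * K)) := Finset.sum_le_sum key
    _ = 255 * L.card * (w / h ^ 2) * K * (1 + 8 * w * K) := by
      rw [Finset.sum_const, nsmul_eq_mul]; ring

end Hilo
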