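import Mathlib
import Pool.Agent.Hilo.Defs5
import Pool.Agent.Hilo.Corr15

set_option autoImplicit false
set_option linter.unusedVariables false

open MeasureTheory Finset

namespace Hilo

theorem isum15 {a b : ℝ} (s : Finset ℕ) (f : ℕ → ℝ → ℝ)
    (h : ∀ i ∈ s, IntervalIntegrable (f i) volume a b) :
    IntervalIntegrable (fun x => ∑ i ∈ s, f i x) volume a b := by
  have h1 : (fun x => ∑ i ∈ s, f i x) = ∑ i ∈ s, f i := by
    funext x
    simp [Finset.sum_apply]
  rw [h1]
  exact IntervalIntegrable.sum s h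


theorem int_split15 {h : ℝ → ℝ} (hh : ∀ a b : ℝ, IntervalIntegrable h volume a b) (M : ℕ)
    (w : ℝ) : ∫ a in (-(M * w))..(M * w), h a =
      ∑ i ∈ Finset.range M, ∫ a in (-w)..w, h (a + (2 * i + 1 - M) * w) := by
  have h1 := intervalIntegral.sum_integral_adjacent_intervals (μ := volume) (f := h)
    (a := fun i : ℕ => -(M * w) + 2 * i * w) (n := M) (fun k _ => hh _ _)
  have h2 : (-(M * w) + 2 * ((0 : ℕ) : ℝ) * w) = -(M * w) := by simp
  have h3 : (-(M * w) + 2 * (M : ℝ) * w) = M * w := by ring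
  simp only [h2, h3] at h1
  rw [← h1]
  refine Finset.sum_congr rfl fun i _ => ?_
  rw [intervalIntegral.integral_comp_add_right]
  congr 1
  · ring
  · push_cast; ring

/-- bounded measurable functions are interval integrable -/
theorem intInt15 {h : ℝ → ℝ} (hm : Measurable h) {C : ℝ} (hC : ∀ x, |h x| ≤ C) (a b : ℝ) :
    IntervalIntegrable h volume a b := by
  rw [intervalIntegrable_iff]
  refine Measure.integrableOn_of_bounded (M := C) ?_ hm.aestronglyMeasurable ?_
  · simp [Set.uIoc]
  · exact Filter.Eventually.of_forall fun x => by rw [Real.norm_eq_abs]; exact hC x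

theorem abs_phi15 {w : ℝ} (hw : 0 < w) (v : ℝ) : |phi w v| ≤ 1 / (2 * w) := by
  rw [abs_of_nonneg (phi15_nonneg hw v)]
  exact phi15_le hw v

theorem meas_inner15 (W : ℝ) (p z : ℝ × ℝ) (w c : ℝ) :
    Measurable fun a : ℝ => ∫ b in (-w)..w, phi W (V p (z.1 + a, z.2 + (b + c))) := by
  have hm : Measurable fun y : ℝ × ℝ => phi W (V p (z.1 + y.1, z.2 + (y.2 + c))) := by
    refine (measurable_phi W).comp ((measurable_V p).comp ?_)
    fun_prop
  by_cases h : -w ≤ w
  · simp_rw [intervalIntegral.integral_of_le h]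
    exact (hm.stronglyMeasurable.integral_prod_right'
      (ν := (volume : Measure ℝ).restrict (Set.Ioc (-w) w))).measurable
  · simp_rw [intervalIntegral.integral_of_ge (le_of_not_ge h)]
    exact (hm.stronglyMeasurable.integral_prod_right'
      (ν := (volume : Measure ℝ).restrict (Set.Ioc w (-w)))).measurable.neg

theorem bd_inner15 {W : ℝ} (hW : 0 < W) (p z : ℝ × ℝ) {w : ℝ} (hw : 0 < w) (c a : ℝ) :
    |∫ b in (-w)..w, phi W (V p (z.1 + a, z.2 + (b + c)))| ≤ 1 / (2 * W) * |w - -w| := by
  have := intervalIntegral.norm_integral_le_of_norm_le_const (a := -w) (b := w)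
    (f := fun b => phi W (V p (z.1 + a, z.2 + (b + c)))) (C := 1 / (2 * W))
    (fun b _ => by rw [Real.norm_eq_abs]; exact abs_phi15 hW _)
  rwa [Real.norm_eq_abs] at this

theorem Ker_step15 {M : ℕ} (hM : 0 < M) {w : ℝ} (hw : 0 < w) (p z : ℝ × ℝ) :
    Ker (M * w) p z - Ker w p z =
      1 / (4 * w ^ 2) * ∫ a in (-w)..w, ∫ b in (-w)..w, prof M w p.1 (V p (z.1 + a, z.2 + b)) := by
  have hM' : (0 : ℝ) < M := by exact_mod_cast hM
  set W : ℝ := M * w with hW
  have hW0 : 0 < W := by positivity
  set c : ℕ → ℝ := fun i => (2 * (i : ℝ) + 1 - M) * w with hc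
  have hmV : ∀ u : ℝ × ℝ → ℝ, Measurable u → Measurable fun y => u y := fun u hu => hu
  have i0 : ∀ (a : ℝ) (α β : ℝ), IntervalIntegrable
      (fun b => phi W (V p (z.1 + a, z.2 + b))) volume α β := by
    intro a α β
    refine intInt15 (C := 1 / (2 * W)) ?_ (fun b => abs_phi15 hW0 _) α β
    exact (measurable_phi W).comp ((measurable_V p).comp (by fun_prop))
  have i0w : ∀ (a : ℝ) (α β : ℝ), IntervalIntegrable
      (fun b => phi w (V p (z.1 + a, z.2 + b))) volume α β := by
    intro a α β
    refine intInt15 (C := 1 / (2 * w)) ?_ (fun b => abs_phi15 hw _) α β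
    exact (measurable_phi w).comp ((measurable_V p).comp (by fun_prop))
  have i1 : ∀ (a d : ℝ) (α β : ℝ), IntervalIntegrable
      (fun b => phi W (V p (z.1 + a, z.2 + (b + d)))) volume α β := by
    intro a d α β
    refine intInt15 (C := 1 / (2 * W)) ?_ (fun b => abs_phi15 hW0 _) α β
    exact (measurable_phi W).comp ((measurable_V p).comp (by fun_prop))
  have i2 : ∀ (d : ℝ) (α β : ℝ), IntervalIntegrable
      (fun a => ∫ b in (-w)..w, phi W (V p (z.1 + a, z.2 + (b + d)))) volume α β := by
    intro d α β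
    exact intInt15 (meas_inner15 W p z w d) (bd_inner15 hW0 p z hw d) α β
  -- the first kernel
  have k1 : ∫ a in (-W)..W, ∫ b in (-W)..W, phi W (V p (z.1 + a, z.2 + b)) =
      ∑ i ∈ Finset.range M, ∑ j ∈ Finset.range M, ∫ a in (-w)..w, ∫ b in (-w)..w,
        phi W (V p (z.1 + (a + c i), z.2 + (b + c j))) := by
    have h1 : ∀ a : ℝ, ∫ b in (-W)..W, phi W (V p (z.1 + a, z.2 + b)) =
        ∑ j ∈ Finset.range M, ∫ b in (-w)..w, phi W (V p (z.1 + a, z.2 + (b + c j))) :=
      fun a => int_split15 (h := fun b => phi W (V p (z.1 + a, z.2 + b))) (i0 a) M w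
    simp_rw [h1]
    rw [intervalIntegral.integral_finsetSum fun j _ => i2 (c j) _ _, Finset.sum_comm]
    refine Finset.sum_congr rfl fun j _ => ?_
    exact int_split15 (h := fun a => ∫ b in (-w)..w, phi W (V p (z.1 + a, z.2 + (b + c j))))
      (i2 (c j)) M w
  -- the right hand side
  have hV : ∀ (a b : ℝ) (i j : ℕ), V p (z.1 + (a + c i), z.2 + (b + c j)) =
      V p (z.1 + a, z.2 + b) - (2 * (i : ℝ) + 1 - M) * w * p.1 - (2 * (j : ℝ) + 1 - M) * w := by
    intro a b i j
    simp only [V, hc]
    ring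
  have k2 : ∫ a in (-w)..w, ∫ b in (-w)..w, prof M w p.1 (V p (z.1 + a, z.2 + b)) =
      (∑ i ∈ Finset.range M, ∑ j ∈ Finset.range M, ∫ a in (-w)..w, ∫ b in (-w)..w,
        phi W (V p (z.1 + (a + c i), z.2 + (b + c j)))) / M ^ 2 -
      ∫ a in (-w)..w, ∫ b in (-w)..w, phi w (V p (z.1 + a, z.2 + b)) := by
    have i3 : ∀ (i j : ℕ) (a α β : ℝ), IntervalIntegrable
        (fun b => phi W (V p (z.1 + (a + c i), z.2 + (b + c j)))) volume α β :=
      fun i j a α β => i1 (a + c i) (c j) α β
    have i4 : ∀ (i j : ℕ) (α β : ℝ), IntervalIntegrable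
        (fun a => ∫ b in (-w)..w, phi W (V p (z.1 + (a + c i), z.2 + (b + c j)))) volume α β := by
      intro i j α β
      refine intInt15 ((meas_inner15 W p z w (c j)).comp (measurable_id.add_const (c i)))
        (fun a => bd_inner15 hW0 p z hw (c j) (a + c i)) α β
    have h1 : ∀ a : ℝ, ∫ b in (-w)..w, prof M w p.1 (V p (z.1 + a, z.2 + b)) =
        (∑ i ∈ Finset.range M, ∑ j ∈ Finset.range M, ∫ b in (-w)..w,
          phi W (V p (z.1 + (a + c i), z.2 + (b + c j)))) / M ^ 2 -
        ∫ b in (-w)..w, phi w (V p (z.1 + a, z.2 + b)) := by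
      intro a
      have h2 : ∀ b : ℝ, prof M w p.1 (V p (z.1 + a, z.2 + b)) =
          (∑ i ∈ Finset.range M, ∑ j ∈ Finset.range M,
            phi W (V p (z.1 + (a + c i), z.2 + (b + c j)))) / M ^ 2 -
          phi w (V p (z.1 + a, z.2 + b)) := by
        intro b
        simp only [hV]
        rfl
      simp_rw [h2]
      rw [intervalIntegral.integral_sub ?_ (i0w a _ _), intervalIntegral.integral_div,
        intervalIntegral.integral_finsetSum]
      · congr 2
        refine Finset.sum_congr rfl fun i _ => ?_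
        exact intervalIntegral.integral_finsetSum fun j _ => i3 i j a _ _
      · intro i _
        exact isum15 _ _ fun j _ => i3 i j a _ _
      · refine IntervalIntegrable.div_const ?_ _
        exact isum15 _ _ fun i _ => isum15 _ _ fun j _ => i3 i j a _ _
    simp_rw [h1]
    have i5 : IntervalIntegrable (fun a => ∫ b in (-w)..w, phi w (V p (z.1 + a, z.2 + b)))
        volume (-w) w := by
      have := intInt15 (meas_inner15 w p z w 0) (bd_inner15 hw p z hw 0) (-w) w
      simpa using this
    rw [intervalIntegral.integral_sub ?_ i5, intervalIntegral.integral_div,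
      intervalIntegral.integral_finsetSum]
    · congr 2
      refine Finset.sum_congr rfl fun i _ => ?_
      exact intervalIntegral.integral_finsetSum fun j _ => i4 i j _ _
    · intro i _
      exact isum15 _ _ fun j _ => i4 i j _ _
    · refine IntervalIntegrable.div_const ?_ _
      exact isum15 _ _ fun i _ => isum15 _ _ fun j _ => i4 i j _ _
  unfold Ker
  rw [k2, k1, hW]
  field_simp

end Hilo
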