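import Mathlib
import Pool.Agent.Hilo.Defs5
import Pool.Agent.Hilo.Corr15
import Pool.Agent.Hilo.KerStep15

set_option autoImplicit false
set_option linter.unusedVariables false

open MeasureTheory Finset

namespace Hilo

/-- the half open box of side `2 w` around `z` -/
def box15 (w : ℝ) (z : ℝ × ℝ) : Set (ℝ × ℝ) :=
  Set.Ioc (z.1 - w) (z.1 + w) ×ˢ Set.Ioc (z.2 - w) (z.2 + w)

theorem measurableSet_box15 (w : ℝ) (z : ℝ × ℝ) : MeasurableSet (box15 w z) :=
  measurableSet_Ioc.prod measurableSet_Ioc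

theorem box15_sub {w : ℝ} (hw4 : w ≤ 1 / 4) {z : ℝ × ℝ} (hz : |z.1| ≤ 1 / 4) :
    box15 w z ⊆ Om := by
  rintro y ⟨⟨h1, h2⟩, -⟩
  have := abs_le.1 hz
  show |y.1| ≤ 1 / 2
  rw [abs_le]
  constructor <;> linarith

theorem volume_box15 {w : ℝ} (hw : 0 < w) (z : ℝ × ℝ) :
    volume (box15 w z) = ENNReal.ofReal (4 * w ^ 2) := by
  unfold box15
  rw [Measure.volume_eq_prod, Measure.prod_prod, Real.volume_Ioc, Real.volume_Ioc,
    ← ENNReal.ofReal_mul (by linarith)]
  congr 1
  ring

theorem box15_disjoint {w : ℝ} {z y : ℝ × ℝ}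
    (h : ¬ (|z.1 - y.1| ≤ 2 * w ∧ |z.2 - y.2| ≤ 2 * w)) : box15 w z ∩ box15 w y = ∅ := by
  ext u
  simp only [Set.mem_inter_iff, Set.mem_empty_iff_false, iff_false]
  rintro ⟨⟨⟨h1, h2⟩, ⟨h3, h4⟩⟩, ⟨⟨h5, h6⟩, ⟨h7, h8⟩⟩⟩
  apply h
  constructor <;> rw [abs_le] <;> constructor <;> linarith

theorem measurableSet_Om : MeasurableSet Om := by
  unfold Om
  exact measurableSet_le (measurable_fst.norm) measurable_const

/-- the function `z ↦ prof (V p z)` is integrable on `Om` -/
theorem integrable_f15 {M : ℕ} (hM : 0 < M) {w : ℝ} (hw : 0 < w) (p : ℝ × ℝ) :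
    Integrable (fun z => prof M w p.1 (V p z)) (volume.restrict Om) := by
  refine ⟨((measurable_prof M w p.1).comp (measurable_V p)).aestronglyMeasurable, ?_⟩
  rw [hasFiniteIntegral_iff_norm]
  have h := lintegral_Om (measurable_absprof M w p.1) p
  simp only [Real.norm_eq_abs]
  rw [h]
  exact (lintegral_abs_prof hM hw _).trans_lt ENNReal.ofReal_lt_top

theorem integrable_ff15 {M : ℕ} (hM : 0 < M) {w : ℝ} (hw : 0 < w) (p q : ℝ × ℝ) :
    Integrable (fun z => prof M w p.1 (V p z) * prof M w q.1 (V q z)) (volume.restrict Om) := by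
  refine (integrable_f15 hM hw q).bdd_mul (c := 1 / (2 * w))
    ((measurable_prof M w p.1).comp (measurable_V p)).aestronglyMeasurable ?_
  exact Filter.Eventually.of_forall fun z => by
    rw [Real.norm_eq_abs]; exact abs_prof_le hM hw _ _

theorem integrable_chi15 {w : ℝ} (hw : 0 < w) (z : ℝ × ℝ) :
    Integrable ((box15 w z).indicator (fun _ => (1 : ℝ))) (volume.restrict Om) := by
  refine (Integrable.restrict ?_)
  refine (integrable_indicator_iff (measurableSet_box15 w z)).2 ?_
  refine integrableOn_const ?_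
  rw [volume_box15 hw]
  exact ENNReal.ofReal_ne_top

theorem setIntegral_box15 {M : ℕ} (hM : 0 < M) {w : ℝ} (hw : 0 < w) (hw4 : w ≤ 1 / 4)
    (p : ℝ × ℝ) {z : ℝ × ℝ} (hz : |z.1| ≤ 1 / 4) :
    ∫ y in Om, prof M w p.1 (V p y) * (box15 w z).indicator (fun _ => (1 : ℝ)) y =
      4 * w ^ 2 * (Ker (M * w) p z - Ker w p z) := by
  have h1 : ∀ y, prof M w p.1 (V p y) * (box15 w z).indicator (fun _ => (1 : ℝ)) y =
      (box15 w z).indicator (fun y => prof M w p.1 (V p y)) y := by
    intro y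
    by_cases hy : y ∈ box15 w z
    · rw [Set.indicator_of_mem hy, Set.indicator_of_mem hy, mul_one]
    · rw [Set.indicator_of_notMem hy, Set.indicator_of_notMem hy, mul_zero]
  simp_rw [h1]
  rw [setIntegral_indicator (measurableSet_box15 w z),
    Set.inter_eq_self_of_subset_right (box15_sub hw4 hz)]
  have hint : IntegrableOn (fun y => prof M w p.1 (V p y)) (box15 w z) (volume.prod volume) :=
    (integrable_f15 hM hw p).mono_measure (Measure.restrict_mono (box15_sub hw4 hz) le_rfl)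
  unfold box15 at hint ⊢
  rw [Measure.volume_eq_prod, setIntegral_prod _ hint, Ker_step15 hM hw]
  have h2 : ∫ a in (-w)..w, ∫ b in (-w)..w, prof M w p.1 (V p (z.1 + a, z.2 + b)) =
      ∫ a in Set.Ioc (z.1 - w) (z.1 + w), ∫ b in Set.Ioc (z.2 - w) (z.2 + w),
        prof M w p.1 (V p (a, b)) := by
    have h3 : ∀ a, ∫ b in (-w)..w, prof M w p.1 (V p (z.1 + a, z.2 + b)) =
        ∫ b in Set.Ioc (z.2 - w) (z.2 + w), prof M w p.1 (V p (z.1 + a, b)) := by
      intro a
      rw [intervalIntegral.integral_comp_add_left (fun b => prof M w p.1 (V p (z.1 + a, b))),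
        intervalIntegral.integral_of_le (by linarith), ← sub_eq_add_neg]
    simp_rw [h3]
    rw [intervalIntegral.integral_comp_add_left
      (fun a => ∫ b in Set.Ioc (z.2 - w) (z.2 + w), prof M w p.1 (V p (a, b))),
      intervalIntegral.integral_of_le (by linarith), ← sub_eq_add_neg]
  rw [h2]
  field_simp

theorem chi_chi15 {w : ℝ} (hw : 0 < w) (z y : ℝ × ℝ) :
    ∫ u in Om, (box15 w z).indicator (fun _ => (1 : ℝ)) u *
      (box15 w y).indicator (fun _ => (1 : ℝ)) u ≤
      if |z.1 - y.1| ≤ 2 * w ∧ |z.2 - y.2| ≤ 2 * w then 4 * w ^ 2 else 0 := by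
  have h1 : ∀ u, (box15 w z).indicator (fun _ => (1 : ℝ)) u *
      (box15 w y).indicator (fun _ => (1 : ℝ)) u =
      (box15 w z ∩ box15 w y).indicator (fun _ => (1 : ℝ)) u := by
    intro u
    by_cases h1 : u ∈ box15 w z
    · by_cases h2 : u ∈ box15 w y
      · rw [Set.indicator_of_mem h1, Set.indicator_of_mem h2,
          Set.indicator_of_mem (Set.mem_inter h1 h2), mul_one]
      · rw [Set.indicator_of_notMem h2,
          Set.indicator_of_notMem (fun h => h2 (Set.mem_of_mem_inter_right h)), mul_zero]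
    · rw [Set.indicator_of_notMem h1,
        Set.indicator_of_notMem (fun h => h1 (Set.mem_of_mem_inter_left h)), zero_mul]
  simp_rw [h1]
  split_ifs with h
  · have hm : MeasurableSet (box15 w z ∩ box15 w y) :=
      (measurableSet_box15 w z).inter (measurableSet_box15 w y)
    rw [setIntegral_indicator hm, setIntegral_const, smul_eq_mul, mul_one]
    have h2 : volume (Om ∩ (box15 w z ∩ box15 w y)) ≤ ENNReal.ofReal (4 * w ^ 2) := by
      rw [← volume_box15 hw z]
      exact measure_mono fun u hu => hu.2.1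
    exact ENNReal.toReal_le_of_le_ofReal (by positivity) h2
  · rw [box15_disjoint h]
    simp

theorem integrable_fchi15 {M : ℕ} (hM : 0 < M) {w : ℝ} (hw : 0 < w) (p z : ℝ × ℝ) :
    Integrable (fun y => prof M w p.1 (V p y) * (box15 w z).indicator (fun _ => (1 : ℝ)) y)
      (volume.restrict Om) := by
  refine (integrable_chi15 hw z).bdd_mul (c := 1 / (2 * w))
    ((measurable_prof M w p.1).comp (measurable_V p)).aestronglyMeasurable ?_
  exact Filter.Eventually.of_forall fun z => by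
    rw [Real.norm_eq_abs]; exact abs_prof_le hM hw _ _

theorem integrable_chichi15 {w : ℝ} (hw : 0 < w) (z y : ℝ × ℝ) :
    Integrable (fun u => (box15 w z).indicator (fun _ => (1 : ℝ)) u *
      (box15 w y).indicator (fun _ => (1 : ℝ)) u) (volume.restrict Om) := by
  refine (integrable_chi15 hw y).bdd_mul (c := 1)
    ((measurable_const).indicator (measurableSet_box15 w z)).aestronglyMeasurable ?_
  refine Filter.Eventually.of_forall fun u => ?_
  by_cases h : u ∈ box15 w z
  · rw [Set.indicator_of_mem h]; simp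
  · rw [Set.indicator_of_notMem h]; simp

theorem scale_step {ι : Type*} {M : ℕ} (hM : 0 < M) {w : ℝ} (hw : 0 < w) (hw4 : w ≤ 1 / 4)
    (P : Finset (ℝ × ℝ)) (hP : ∀ p ∈ P, |p.1| ≤ 1) (L : Finset ι) (g : ι → ℝ × ℝ)
    (hg : ∀ e ∈ L, |(g e).1| ≤ 1 / 4) :
    |∑ e ∈ L, ∑ p ∈ P, (Ker (M * w) p (g e) - Ker w p (g e))| ≤
      1 / (2 * w) * √((∑ p ∈ P, ∑ q ∈ P, |Cor M w p q|) * QL w L g) := by
  set f : ℝ × ℝ → ℝ × ℝ → ℝ := fun p z => prof M w p.1 (V p z) with hf
  set χ : ι → ℝ × ℝ → ℝ := fun e => (box15 w (g e)).indicator (fun _ => (1 : ℝ)) with hχ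
  set D : ℝ × ℝ → ℝ := fun z => ∑ p ∈ P, f p z with hD
  set m : ℝ × ℝ → ℝ := fun z => ∑ e ∈ L, χ e z with hm
  have eDD : (fun z => D z * D z) = fun z => ∑ p ∈ P, ∑ q ∈ P, f p z * f q z := by
    funext z
    simp only [hD]
    rw [Finset.sum_mul_sum]
  have eDm : (fun z => D z * m z) = fun z => ∑ p ∈ P, ∑ e ∈ L, f p z * χ e z := by
    funext z
    simp only [hD, hm]
    rw [Finset.sum_mul_sum]
  have emm : (fun z => m z * m z) = fun z => ∑ e ∈ L, ∑ e' ∈ L, χ e z * χ e' z := by
    funext z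
    simp only [hm]
    rw [Finset.sum_mul_sum]
  have iDD : Integrable (fun z => D z * D z) (volume.restrict Om) := by
    rw [eDD]
    exact integrable_finsetSum _ fun p _ => integrable_finsetSum _ fun q _ =>
      integrable_ff15 hM hw p q
  have iDm : Integrable (fun z => D z * m z) (volume.restrict Om) := by
    rw [eDm]
    exact integrable_finsetSum _ fun p _ => integrable_finsetSum _ fun e _ =>
      integrable_fchi15 hM hw p (g e)
  have imm : Integrable (fun z => m z * m z) (volume.restrict Om) := by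
    rw [emm]
    exact integrable_finsetSum _ fun e _ => integrable_finsetSum _ fun e' _ =>
      integrable_chichi15 hw (g e) (g e')
  have hA : ∫ z in Om, D z * D z = ∑ p ∈ P, ∑ q ∈ P, Cor M w p q := by
    rw [eDD, integral_finsetSum _ fun p _ => integrable_finsetSum _ fun q _ =>
      integrable_ff15 hM hw p q]
    refine Finset.sum_congr rfl fun p _ => ?_
    rw [integral_finsetSum _ fun q _ => integrable_ff15 hM hw p q]
    rfl
  have hB : ∫ z in Om, D z * m z =
      4 * w ^ 2 * ∑ e ∈ L, ∑ p ∈ P, (Ker (M * w) p (g e) - Ker w p (g e)) := by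
    rw [eDm, integral_finsetSum _ fun p _ => integrable_finsetSum _ fun e _ =>
      integrable_fchi15 hM hw p (g e)]
    rw [Finset.sum_comm, Finset.mul_sum]
    refine Finset.sum_congr rfl fun p _ => ?_
    rw [integral_finsetSum _ fun e _ => integrable_fchi15 hM hw p (g e), Finset.mul_sum]
    exact Finset.sum_congr rfl fun e he => setIntegral_box15 hM hw hw4 p (hg e he)
  have hC : ∫ z in Om, m z * m z ≤ 4 * w ^ 2 * QL w L g := by
    rw [emm, integral_finsetSum _ fun e _ => integrable_finsetSum _ fun e' _ =>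
      integrable_chichi15 hw (g e) (g e')]
    have h1 : ∑ e ∈ L, ∫ z in Om, ∑ e' ∈ L, χ e z * χ e' z ≤
        ∑ e ∈ L, ∑ e' ∈ L, if |(g e).1 - (g e').1| ≤ 2 * w ∧ |(g e).2 - (g e').2| ≤ 2 * w
          then 4 * w ^ 2 else 0 := by
      refine Finset.sum_le_sum fun e _ => ?_
      rw [integral_finsetSum _ fun e' _ => integrable_chichi15 hw (g e) (g e')]
      exact Finset.sum_le_sum fun e' _ => chi_chi15 hw (g e) (g e')
    refine h1.trans (le_of_eq ?_)
    unfold QL
    rw [← Finset.sum_product', ← Finset.sum_filter, Finset.sum_const, nsmul_eq_mul, mul_comm]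
  have hquad : ∀ x : ℝ, 0 ≤ (∫ z in Om, m z * m z) * (x * x) + (2 * ∫ z in Om, D z * m z) * x +
      ∫ z in Om, D z * D z := by
    intro x
    have h1 : 0 ≤ ∫ z in Om, (x * m z + D z) * (x * m z + D z) :=
      integral_nonneg fun z => mul_self_nonneg _
    have h2 : (fun z => (x * m z + D z) * (x * m z + D z)) = fun z =>
        (x * x) * (m z * m z) + (2 * x) * (D z * m z) + D z * D z := by
      funext z; ring
    have h3 : ∫ z in Om, ((x * x) * (m z * m z) + (2 * x) * (D z * m z) + D z * D z) =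
        (∫ z in Om, ((x * x) * (m z * m z) + (2 * x) * (D z * m z))) + ∫ z in Om, D z * D z :=
      integral_add ((imm.const_mul (x * x)).add (iDm.const_mul (2 * x))) iDD
    have h4 : ∫ z in Om, ((x * x) * (m z * m z) + (2 * x) * (D z * m z)) =
        (∫ z in Om, (x * x) * (m z * m z)) + ∫ z in Om, (2 * x) * (D z * m z) :=
      integral_add (imm.const_mul (x * x)) (iDm.const_mul (2 * x))
    rw [h2, h3, h4, integral_const_mul, integral_const_mul] at h1
    linarith
  have hdis := discrim_le_zero hquad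
  rw [discrim] at hdis
  set S : ℝ := ∑ p ∈ P, ∑ q ∈ P, |Cor M w p q| with hS
  set T : ℝ := ∑ e ∈ L, ∑ p ∈ P, (Ker (M * w) p (g e) - Ker w p (g e)) with hT
  have hS' : ∫ z in Om, D z * D z ≤ S := by
    rw [hA]
    exact Finset.sum_le_sum fun p _ => Finset.sum_le_sum fun q _ => le_abs_self _
  have hS0 : 0 ≤ S := Finset.sum_nonneg fun p _ => Finset.sum_nonneg fun q _ => abs_nonneg _
  have hmm0 : 0 ≤ ∫ z in Om, m z * m z := integral_nonneg fun z => mul_self_nonneg _
  have hq0 : (0 : ℝ) ≤ QL w L g := Nat.cast_nonneg _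
  rw [hB] at hdis
  have hfin : (4 * w ^ 2 * T) ^ 2 ≤ (4 * w ^ 2 * QL w L g) * S := by
    have h1 : (∫ z in Om, m z * m z) * ∫ z in Om, D z * D z ≤ (4 * w ^ 2 * QL w L g) * S :=
      mul_le_mul hC hS' (integral_nonneg fun z => mul_self_nonneg _) (by positivity)
    nlinarith
  have hT2 : (2 * w * T) ^ 2 ≤ S * QL w L g := by
    have hw2 : 0 < 4 * w ^ 2 := by positivity
    have h1 : 4 * w ^ 2 * (2 * w * T) ^ 2 ≤ 4 * w ^ 2 * (S * QL w L g) := by
      calc 4 * w ^ 2 * (2 * w * T) ^ 2 = (4 * w ^ 2 * T) ^ 2 := by ring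
        _ ≤ _ := hfin
        _ = _ := by ring
    exact le_of_mul_le_mul_left h1 hw2
  have h3 : |2 * w * T| ≤ √(S * QL w L g) := Real.abs_le_sqrt hT2
  rw [abs_mul, abs_of_pos (by positivity : (0 : ℝ) < 2 * w)] at h3
  rw [one_div, ← div_eq_inv_mul, le_div_iff₀ (by positivity)]
  linarith

end Hilo
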