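import Mathlib
import Pool.Agent.Hilo.CorrSum
import Pool.Agent.Hilo.Scale15
import Pool.Agent.Hilo.Lines89

/-!
# The core of the high-low argument: the estimates of one step
-/

set_option autoImplicit false

namespace Hilo

open Finset

/-- total smoothed incidence count -/
noncomputable def Tot (w : ℝ) (P : Finset (ℝ × ℝ)) (L : Finset ((ℝ × ℝ) × (ℝ × ℝ))) : ℝ :=
  ∑ e ∈ L, ∑ p ∈ P, Ker w p (lin e)

theorem tot_step {M : ℕ} (hM : 0 < M) {w : ℝ} (hw : 0 < w) (hw4 : w ≤ 1 / 4)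
    {P : Finset (ℝ × ℝ)} (hP : ∀ p ∈ P, |p.1| ≤ 1) {L : Finset ((ℝ × ℝ) × (ℝ × ℝ))}
    (hg : ∀ e ∈ L, |(lin e).1| ≤ 1 / 4) :
    Tot (M * w) P L ≤ Tot w P L +
      1 / (2 * w) * √((∑ p ∈ P, ∑ q ∈ P, |Cor M w p q|) * QL w L lin) := by
  have h := scale_step hM hw hw4 P hP L lin hg
  have h2 : ∑ e ∈ L, ∑ p ∈ P, (Ker (M * w) p (lin e) - Ker w p (lin e)) =
      Tot (M * w) P L - Tot w P L := by
    simp only [Tot, sum_sub_distrib]
  rw [h2] at h
  have := le_of_abs_le h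
  linarith

theorem Near.slope {u : ℝ} {P : Finset (ℝ × ℝ)} {L : Finset ((ℝ × ℝ) × (ℝ × ℝ))}
    (h : Near u P L) {e : (ℝ × ℝ) × (ℝ × ℝ)} (he : e ∈ L) : |(lin e).1| ≤ 1 / 4 := by
  obtain ⟨-, -, h1, -, h2⟩ := h e he
  have h3 : 0 < |e.2.1 - e.1.1| := abs_pos.2 (sub_ne_zero.2 (Ne.symm h1))
  simp only [lin]
  rw [abs_div, div_le_iff₀ h3]
  linarith

theorem InSq.abs {P : Finset (ℝ × ℝ)} (h : InSq P) {p : ℝ × ℝ} (hp : p ∈ P) : |p.1| ≤ 1 := by
  obtain ⟨h1, h2, -, -⟩ := h p hp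
  rw [abs_of_nonneg h1]
  exact h2.le

theorem QL_mono {ι : Type*} {w w' : ℝ} (h : w ≤ w') (L : Finset ι) (g : ι → ℝ × ℝ) :
    QL w L g ≤ QL w' L g := by
  classical
  unfold QL
  apply card_le_card
  intro e he
  rw [mem_filter] at he ⊢
  exact ⟨he.1, by linarith [he.2.1], by linarith [he.2.2]⟩

theorem Sep.mono {h : ℝ} {P Q : Finset (ℝ × ℝ)} (hs : Sep h P) (hQ : Q ⊆ P) : Sep h Q :=
  fun p hp q hq => hs p (hQ hp) q (hQ hq)

theorem InSq.mono {P Q : Finset (ℝ × ℝ)} (hs : InSq P) (hQ : Q ⊆ P) : InSq Q :=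
  fun p hp => hs p (hQ hp)

theorem sqrt_add_le' {x y : ℝ} (hx : 0 ≤ x) (hy : 0 ≤ y) : √(x + y) ≤ √x + √y := by
  rw [Real.sqrt_le_iff]
  refine ⟨by positivity, ?_⟩
  have h1 := Real.sq_sqrt hx
  have h2 := Real.sq_sqrt hy
  nlinarith [Real.sqrt_nonneg x, Real.sqrt_nonneg y]

/-- elementary bound for the logarithm -/
theorem one_add_log_le {w : ℝ} (hw : 0 < w) : 1 + Real.log (1 / w) ≤ 2 / √w := by
  have hs : 0 < √w := Real.sqrt_pos.2 hw
  have h1 : Real.log (1 / w) = 2 * Real.log (1 / √w) := by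
    have h2 : 1 / w = (1 / √w) ^ 2 := by
      rw [div_pow, one_pow, Real.sq_sqrt hw.le]
    rw [h2, Real.log_pow]
    norm_num
  have h3 : Real.log (1 / √w) ≤ 1 / √w - 1 := Real.log_le_sub_one_of_pos (by positivity)
  rw [h1]
  have h4 : 2 / √w = 2 * (1 / √w) := by ring
  rw [h4]
  linarith

/-- one dyadic step above the separation scale -/
theorem step_high {Cs : ℝ} (hCs : 0 < Cs)
    (hcor : ∀ (M : ℕ) (h w : ℝ) (P : Finset (ℝ × ℝ)) (p : ℝ × ℝ),
      0 < M → 0 < h → h ≤ 1 → 0 < w → M * w ≤ 1 → InSq P → Sep h P → p ∈ P →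
      ∑ q ∈ P, |Cor M w p q| ≤
        Cs * (1 + M * w / h) ^ 2 * (1 / w + (1 + Real.log (1 / (M * w))) / (M * w)))
    {d κ h K w a : ℝ} (hd : 0 < d) (hκ : 0 < κ) (hh : 0 < h) (hK : 1 ≤ K) (hhw : h ≤ w)
    (hw : w ≤ 1 / 4) {P P' : Finset (ℝ × ℝ)} {L : Finset ((ℝ × ℝ) × (ℝ × ℝ))}
    (hP : InSq P) (hs : Sep h P) (hP' : P' ⊆ P) (hL : Near (K * h) P L)
    (hN : d ≤ P.card * h ^ 2) (hLc : κ * P.card * K ^ 2 ≤ L.card)
    (ha : 0 < a) (ha2 : 3570 * Cs ≤ 4 * κ * d ^ 2 * a ^ 2) :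
    Tot (2 * w) P' L ≤ Tot w P' L +
      P.card * L.card * (a * (4 * √√w + √((1 + Real.log (1 / h)) / K))) := by
  have hw0 : 0 < w := lt_of_lt_of_le hh hhw
  have h1 : h ≤ 1 := by linarith
  have hst := tot_step (M := 2) (by norm_num) hw0 hw (P := P') (fun p hp => hP.abs (hP' hp))
    (L := L) (fun e he => hL.slope he)
  have h2w : ((2 : ℕ) : ℝ) * w = 2 * w := by norm_num
  rw [h2w] at hst
  refine le_trans hst ?_
  have hlogw : 0 ≤ Real.log (1 / w) := Real.log_nonneg (by rw [le_div_iff₀ hw0]; linarith)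
  have hlogwh : Real.log (1 / w) ≤ Real.log (1 / h) := by
    apply Real.log_le_log (by positivity)
    gcongr
  set lg := Real.log (1 / w) with hlg
  set ℓ := Real.log (1 / h) with hℓ
  -- the sum of the correlations
  have hS : ∑ p ∈ P', ∑ q ∈ P', |Cor 2 w p q| ≤ P.card * (14 * Cs * (w / h ^ 2) * (1 + lg)) := by
    have hone : ∀ p ∈ P', ∑ q ∈ P', |Cor 2 w p q| ≤ 14 * Cs * (w / h ^ 2) * (1 + lg) := by
      intro p hp
      have h3 := hcor 2 h w P' p (by norm_num) hh h1 hw0 (by push_cast; linarith) (hP.mono hP')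
        (hs.mono hP') hp
      rw [h2w] at h3
      refine le_trans h3 ?_
      have h4 : 1 + 2 * w / h ≤ 3 * w / h := by
        have : 1 ≤ w / h := by rw [le_div_iff₀ hh]; linarith
        have e1 : 3 * w / h = w / h + 2 * w / h := by ring
        rw [e1]; linarith
      have h5 : Real.log (1 / (2 * w)) ≤ lg := by
        apply Real.log_le_log (by positivity)
        apply one_div_le_one_div_of_le hw0
        linarith
      have h6 : 1 / w + (1 + Real.log (1 / (2 * w))) / (2 * w) ≤ 3 / 2 * (1 + lg) / w := by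
        have e1 : 3 / 2 * (1 + lg) / w = 1 / w + (1 / w) * (1 / 2 + 3 / 2 * lg) := by
          field_simp; ring
        have e2 : (1 + Real.log (1 / (2 * w))) / (2 * w) =
            (1 / w) * (1 / 2 + 1 / 2 * Real.log (1 / (2 * w))) := by field_simp
        rw [e1, e2]
        have h7 : (1 / w) * (1 / 2 + 1 / 2 * Real.log (1 / (2 * w))) ≤
            (1 / w) * (1 / 2 + 3 / 2 * lg) := by
          apply mul_le_mul_of_nonneg_left _ (by positivity)
          linarith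
        linarith
      have h6' : 0 ≤ 1 / w + (1 + Real.log (1 / (2 * w))) / (2 * w) := by
        have : 0 ≤ Real.log (1 / (2 * w)) := by
          apply Real.log_nonneg
          rw [le_div_iff₀ (by positivity)]
          linarith
        positivity
      calc Cs * (1 + 2 * w / h) ^ 2 * (1 / w + (1 + Real.log (1 / (2 * w))) / (2 * w)) ≤
          Cs * (3 * w / h) ^ 2 * (3 / 2 * (1 + lg) / w) := by
            gcongr
        _ = 13.5 * (Cs * (w / h ^ 2) * (1 + lg)) := by field_simp; ring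
        _ ≤ 14 * (Cs * (w / h ^ 2) * (1 + lg)) := by
            gcongr
            norm_num
        _ = _ := by ring
    calc ∑ p ∈ P', ∑ q ∈ P', |Cor 2 w p q| ≤ ∑ p ∈ P', 14 * Cs * (w / h ^ 2) * (1 + lg) :=
          sum_le_sum hone
      _ = P'.card * (14 * Cs * (w / h ^ 2) * (1 + lg)) := by rw [sum_const, nsmul_eq_mul]
      _ ≤ _ := by
          gcongr
  have hQ := ql_le hP hs hh h1 hK hhw hL
  set N : ℝ := (P.card : ℝ) with hNdef
  set Lc : ℝ := (L.card : ℝ) with hLcdef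
  have hN0 : 0 ≤ N := Nat.cast_nonneg _
  have hL0 : 0 ≤ Lc := Nat.cast_nonneg _
  have hSQ : (∑ p ∈ P', ∑ q ∈ P', |Cor 2 w p q|) * QL w L lin ≤
      (2 * w) ^ 2 * (N * Lc * (a * √((1 + lg) * (1 / K + 8 * w)))) ^ 2 := by
    have hx : 0 ≤ (1 + lg) * (1 / K + 8 * w) := by positivity
    have e1 : (2 * w) ^ 2 * (N * Lc * (a * √((1 + lg) * (1 / K + 8 * w)))) ^ 2 =
        (2 * w) ^ 2 * (N * Lc * a) ^ 2 * ((1 + lg) * (1 / K + 8 * w)) := by
      rw [show N * Lc * (a * √((1 + lg) * (1 / K + 8 * w))) =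
        N * Lc * a * √((1 + lg) * (1 / K + 8 * w)) by ring, mul_pow (N * Lc * a),
        Real.sq_sqrt hx]
      ring
    rw [e1]
    have hkey : 3570 * Cs * K ^ 2 ≤ 4 * h ^ 4 * N * Lc * a ^ 2 := by
      have h7 : d ^ 2 ≤ N ^ 2 * h ^ 4 := by
        have := pow_le_pow_left₀ hd.le hN 2
        calc d ^ 2 ≤ (N * h ^ 2) ^ 2 := this
          _ = _ := by ring
      calc 3570 * Cs * K ^ 2 ≤ (4 * κ * d ^ 2 * a ^ 2) * K ^ 2 := by gcongr
        _ = 4 * a ^ 2 * (κ * K ^ 2) * d ^ 2 := by ring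
        _ ≤ 4 * a ^ 2 * (κ * K ^ 2) * (N ^ 2 * h ^ 4) := by gcongr
        _ = 4 * h ^ 4 * N * (κ * N * K ^ 2) * a ^ 2 := by ring
        _ ≤ 4 * h ^ 4 * N * Lc * a ^ 2 := by gcongr
    calc (∑ p ∈ P', ∑ q ∈ P', |Cor 2 w p q|) * QL w L lin ≤
        (N * (14 * Cs * (w / h ^ 2) * (1 + lg))) * (255 * Lc * (w / h ^ 2) * K * (1 + 8 * w * K)) := by
          gcongr
      _ = (w ^ 2 * N * Lc * (1 + lg) * (1 + 8 * w * K) / (K * h ^ 4)) * (3570 * Cs * K ^ 2) := by
          field_simp; ring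
      _ ≤ (w ^ 2 * N * Lc * (1 + lg) * (1 + 8 * w * K) / (K * h ^ 4)) *
          (4 * h ^ 4 * N * Lc * a ^ 2) := by gcongr
      _ = (2 * w) ^ 2 * (N * Lc * a) ^ 2 * ((1 + lg) * (1 / K + 8 * w)) := by
          field_simp; ring
  have hsq := Real.sqrt_le_sqrt hSQ
  have e2 : √((2 * w) ^ 2 * (N * Lc * (a * √((1 + lg) * (1 / K + 8 * w)))) ^ 2) =
      (2 * w) * (N * Lc * (a * √((1 + lg) * (1 / K + 8 * w)))) := by
    rw [← mul_pow, Real.sqrt_sq (by positivity)]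
  rw [e2] at hsq
  have h8 : 1 / (2 * w) * √((∑ p ∈ P', ∑ q ∈ P', |Cor 2 w p q|) * QL w L lin) ≤
      N * Lc * (a * √((1 + lg) * (1 / K + 8 * w))) := by
    calc _ ≤ 1 / (2 * w) * ((2 * w) * (N * Lc * (a * √((1 + lg) * (1 / K + 8 * w))))) := by
          gcongr
      _ = _ := by field_simp
  have hℓ0 : 0 ≤ ℓ := le_trans hlogw hlogwh
  have h9 : √((1 + lg) * (1 / K + 8 * w)) ≤ 4 * √√w + √((1 + ℓ) / K) := by
    have h10 : (1 + lg) * (1 / K + 8 * w) ≤ (1 + ℓ) / K + 16 * √w := by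
      have h11 := one_add_log_le hw0
      have hsw : 0 < √w := Real.sqrt_pos.2 hw0
      have h12 : (1 + lg) * (8 * w) ≤ 16 * √w := by
        calc (1 + lg) * (8 * w) ≤ (2 / √w) * (8 * w) := by gcongr
          _ = 16 * (w / √w) := by ring
          _ = 16 * √w := by rw [Real.div_sqrt]
      have h13 : (1 + lg) * (1 / K) ≤ (1 + ℓ) / K := by
        rw [mul_one_div]
        gcongr
      linarith
    calc √((1 + lg) * (1 / K + 8 * w)) ≤ √((1 + ℓ) / K + 16 * √w) := Real.sqrt_le_sqrt h10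
      _ ≤ √((1 + ℓ) / K) + √(16 * √w) := by
          apply sqrt_add_le' <;> positivity
      _ = 4 * √√w + √((1 + ℓ) / K) := by
          rw [Real.sqrt_mul (by norm_num), show (16 : ℝ) = 4 ^ 2 by norm_num,
            Real.sqrt_sq (by norm_num)]
          ring
  have h14 : N * Lc * (a * √((1 + lg) * (1 / K + 8 * w))) ≤
      N * Lc * (a * (4 * √√w + √((1 + ℓ) / K))) := by gcongr
  linarith

/-- the last step, from the separation scale down to the width of the void -/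
theorem step_low {Cs : ℝ} (hCs : 0 < Cs)
    (hcor : ∀ (M : ℕ) (h w : ℝ) (P : Finset (ℝ × ℝ)) (p : ℝ × ℝ),
      0 < M → 0 < h → h ≤ 1 → 0 < w → M * w ≤ 1 → InSq P → Sep h P → p ∈ P →
      ∑ q ∈ P, |Cor M w p q| ≤
        Cs * (1 + M * w / h) ^ 2 * (1 / w + (1 + Real.log (1 / (M * w))) / (M * w)))
    {h K w : ℝ} {M : ℕ} (hM : 0 < M) (hh : 0 < h) (hw0 : 0 < w) (hW1 : h ≤ M * w)
    (hW2 : M * w < 2 * h) (hh4 : h ≤ 1 / 8) (hK : 1 + Real.log (1 / h) ≤ K) (hwK : w ≤ h / K)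
    {P P' : Finset (ℝ × ℝ)} {L : Finset ((ℝ × ℝ) × (ℝ × ℝ))}
    (hP : InSq P) (hs : Sep h P) (hP' : P' ⊆ P) (hL : ∀ e ∈ L, |(lin e).1| ≤ 1 / 4) :
    Tot (M * w) P' L ≤ Tot w P' L +
      1 / (2 * w) * √(18 * Cs * P.card / w * QL w L lin) := by
  have hlog : 0 ≤ Real.log (1 / h) := Real.log_nonneg (by rw [le_div_iff₀ hh]; linarith)
  have hK0 : 1 ≤ K := by linarith
  have hwh : w ≤ h := le_trans hwK (div_le_self hh.le hK0)
  have hst := tot_step hM hw0 (by linarith) (P := P') (fun p hp => hP.abs (hP' hp)) (L := L) hL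
  refine le_trans hst ?_
  have hMw0 : 0 < M * w := lt_of_lt_of_le hh hW1
  have hS : ∑ p ∈ P', ∑ q ∈ P', |Cor M w p q| ≤ 18 * Cs * P.card / w := by
    have hone : ∀ p ∈ P', ∑ q ∈ P', |Cor M w p q| ≤ 18 * Cs / w := by
      intro p hp
      have h3 := hcor M h w P' p hM hh (by linarith) hw0 (by linarith) (hP.mono hP')
        (hs.mono hP') hp
      refine le_trans h3 ?_
      have h4 : 1 + M * w / h ≤ 3 := by
        have : M * w / h ≤ 2 := by rw [div_le_iff₀ hh]; linarith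
        linarith
      have h5 : Real.log (1 / (M * w)) ≤ Real.log (1 / h) := by
        apply Real.log_le_log (by positivity)
        exact one_div_le_one_div_of_le hh hW1
      have h5' : 0 ≤ Real.log (1 / (M * w)) := by
        apply Real.log_nonneg
        rw [le_div_iff₀ hMw0]
        linarith
      have h6 : (1 + Real.log (1 / (M * w))) / (M * w) ≤ 1 / w := by
        calc (1 + Real.log (1 / (M * w))) / (M * w) ≤ K / h := by
              gcongr
              linarith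
          _ = 1 / (h / K) := by rw [one_div_div]
          _ ≤ 1 / w := one_div_le_one_div_of_le hw0 hwK
      calc Cs * (1 + M * w / h) ^ 2 * (1 / w + (1 + Real.log (1 / (M * w))) / (M * w)) ≤
          Cs * 3 ^ 2 * (1 / w + 1 / w) := by
            gcongr
        _ = 18 * Cs / w := by ring
    calc ∑ p ∈ P', ∑ q ∈ P', |Cor M w p q| ≤ ∑ p ∈ P', 18 * Cs / w := sum_le_sum hone
      _ = P'.card * (18 * Cs / w) := by rw [sum_const, nsmul_eq_mul]
      _ ≤ P.card * (18 * Cs / w) := by gcongr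
      _ = _ := by ring
  gcongr

end Hilo
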