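import Mathlib
import Pool.Agent.Hilo.Defs5

/-!
# Row R2: the kernel vanishes far from the line
-/

set_option autoImplicit false

namespace Hilo

theorem Ker_zero77 {w : ℝ} (hw : 0 < w) {p z : ℝ × ℝ} (hp : |p.1| ≤ 1) (hV : 3 * w < |V p z|) :
    Ker w p z = 0 := by
  have h1 : ∀ a ∈ Set.uIcc (-w) w, ∀ b ∈ Set.uIcc (-w) w,
      phi w (V p (z.1 + a, z.2 + b)) = 0 := by
    intro a ha b hb
    rw [Set.uIcc_of_le (by linarith)] at ha hb
    have ha' : |a| ≤ w := abs_le.2 ha
    have hb' : |b| ≤ w := abs_le.2 hb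
    have e1 : |a * p.1| ≤ w := by
      rw [abs_mul]
      calc |a| * |p.1| ≤ w * 1 := by gcongr
        _ = w := mul_one _
    have e2 : |V p z| ≤ |V p (z.1 + a, z.2 + b)| + |a * p.1| + |b| := by
      have e3 : V p z = V p (z.1 + a, z.2 + b) + a * p.1 + b := by
        unfold V
        ring
      calc |V p z| = |V p (z.1 + a, z.2 + b) + a * p.1 + b| := by rw [← e3]
        _ ≤ _ := abs_add_three _ _ _
    unfold phi
    rw [if_neg]
    rw [not_le]
    linarith
  have h2 : ∫ a in (-w)..w, ∫ b in (-w)..w, phi w (V p (z.1 + a, z.2 + b)) = 0 := by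
    have h3 : ∫ a in (-w)..w, ∫ b in (-w)..w, phi w (V p (z.1 + a, z.2 + b)) =
        ∫ _a in (-w)..w, (0 : ℝ) := by
      refine intervalIntegral.integral_congr fun a ha => ?_
      have h4 : ∫ b in (-w)..w, phi w (V p (z.1 + a, z.2 + b)) = ∫ _b in (-w)..w, (0 : ℝ) :=
        intervalIntegral.integral_congr fun b hb => h1 a ha b hb
      simpa using h4
    rw [h3]
    simp
  rw [Ker, h2, mul_zero]

end Hilo
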