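import Pool.Agent.Hilo.Defs5

/-! Nearly uniform point sets have at least `1/32` of their points in the left middle box. -/

set_option autoImplicit false

namespace Hilo

open Finset

theorem lft_card {m : ℕ} {η : ℝ} {P : Finset (ℝ × ℝ)} (hm : 8 ∣ m) (hm0 : 0 < m) (hη : 0 ≤ η)
    (hη1 : η ≤ 1 / 30) (hP : InSq P) (hU : Unif m η P) [DecidablePred Lft] :
    (P.card : ℝ) / 32 ≤ (P.filter Lft).card := by
  obtain ⟨k, rfl⟩ := hm
  have hk : 0 < k := by omega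
  have hkR : (0 : ℝ) < k := by exact_mod_cast hk
  have hmR : (0 : ℝ) < ((8 * k : ℕ) : ℝ) := by exact_mod_cast hm0
  have hmk : ((8 * k : ℕ) : ℝ) = 8 * k := by push_cast; ring
  obtain ⟨S, hS⟩ : ∃ S : Finset (ℕ × ℕ), S = (range (8 * k) ×ˢ range (8 * k)) \
      (range (2 * k) ×ˢ Finset.Ico (3 * k) (5 * k)) := ⟨_, rfl⟩
  have hSc : S.card + 4 * k ^ 2 = 64 * k ^ 2 := by
    have hsub : range (2 * k) ×ˢ Finset.Ico (3 * k) (5 * k) ⊆ range (8 * k) ×ˢ range (8 * k) := by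
      intro c hc
      rw [mem_product, mem_range, Finset.mem_Ico] at hc
      rw [mem_product, mem_range, mem_range]
      omega
    have h1 := Finset.card_sdiff_add_card_eq_card hsub
    rw [← hS, card_product, card_product, card_range, card_range, Nat.card_Ico] at h1
    have h2 : 5 * k - 3 * k = 2 * k := by omega
    rw [h2] at h1
    nlinarith
  obtain ⟨cell, hcell⟩ : ∃ cell : ℕ × ℕ → Finset (ℝ × ℝ), ∀ c, cell c = P.filter (fun p =>
      (((c.1 : ℤ) : ℝ) / ((8 * k : ℕ) : ℝ) ≤ p.1 ∧ p.1 < (((c.1 : ℤ) : ℝ) + 1) / ((8 * k : ℕ) : ℝ) ∧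
      ((c.2 : ℤ) : ℝ) / ((8 * k : ℕ) : ℝ) ≤ p.2 ∧
      p.2 < (((c.2 : ℤ) : ℝ) + 1) / ((8 * k : ℕ) : ℝ))) := ⟨_, fun _ => rfl⟩
  have hsub : P.filter (fun p => ¬ Lft p) ⊆ S.biUnion cell := by
    intro p hp
    obtain ⟨hpP, hpL⟩ := mem_filter.1 hp
    obtain ⟨h1, h2, h3, h4⟩ := hP p hpP
    obtain ⟨i, hi⟩ : ∃ i, i = ⌊((8 * k : ℕ) : ℝ) * p.1⌋₊ := ⟨_, rfl⟩
    obtain ⟨j, hj⟩ : ∃ j, j = ⌊((8 * k : ℕ) : ℝ) * p.2⌋₊ := ⟨_, rfl⟩
    have a1 : (i : ℝ) ≤ ((8 * k : ℕ) : ℝ) * p.1 := by rw [hi]; exact Nat.floor_le (by positivity)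
    have a2 : ((8 * k : ℕ) : ℝ) * p.1 < i + 1 := by rw [hi]; exact Nat.lt_floor_add_one _
    have b1 : (j : ℝ) ≤ ((8 * k : ℕ) : ℝ) * p.2 := by rw [hj]; exact Nat.floor_le (by positivity)
    have b2 : ((8 * k : ℕ) : ℝ) * p.2 < j + 1 := by rw [hj]; exact Nat.lt_floor_add_one _
    have a3 : i < 8 * k := by
      have : (i : ℝ) < ((8 * k : ℕ) : ℝ) := by nlinarith
      exact_mod_cast this
    have b3 : j < 8 * k := by
      have : (j : ℝ) < ((8 * k : ℕ) : ℝ) := by nlinarith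
      exact_mod_cast this
    rw [mem_biUnion]
    refine ⟨(i, j), ?_, ?_⟩
    · rw [hS, mem_sdiff, mem_product, mem_product, mem_range, mem_range, mem_range, Finset.mem_Ico]
      refine ⟨⟨a3, b3⟩, ?_⟩
      rintro ⟨c1, c2, c3⟩
      apply hpL
      dsimp only at c1 c2 c3
      have c1' : (i : ℝ) + 1 ≤ 2 * k := by exact_mod_cast c1
      have c2' : (3 : ℝ) * k ≤ j := by exact_mod_cast c2
      have c3' : (j : ℝ) + 1 ≤ 5 * k := by exact_mod_cast c3
      rw [hmk] at a2 b1 b2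
      refine ⟨?_, ?_, ?_⟩ <;> nlinarith
    · rw [hcell, mem_filter]
      dsimp only
      refine ⟨hpP, ?_, ?_, ?_, ?_⟩
      · rw [div_le_iff₀ hmR]; push_cast at a1 ⊢; linarith
      · rw [lt_div_iff₀ hmR]; push_cast at a2 ⊢; linarith
      · rw [div_le_iff₀ hmR]; push_cast at b1 ⊢; linarith
      · rw [lt_div_iff₀ hmR]; push_cast at b2 ⊢; linarith
  have h1 : ((P.filter (fun p => ¬ Lft p)).card : ℝ) ≤ S.card * ((1 + η) * P.card /
      ((8 * k : ℕ) : ℝ) ^ 2) := by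
    have h2 : ((S.biUnion cell).card : ℝ) ≤ ∑ c ∈ S, ((cell c).card : ℝ) := by
      exact_mod_cast card_biUnion_le
    have h3 : ∑ c ∈ S, ((cell c).card : ℝ) ≤ ∑ c ∈ S, ((1 + η) * P.card /
        ((8 * k : ℕ) : ℝ) ^ 2) := by
      apply sum_le_sum
      intro c _
      rw [hcell]
      exact hU c.1 c.2
    rw [sum_const, nsmul_eq_mul] at h3
    have h4 : ((P.filter (fun p => ¬ Lft p)).card : ℝ) ≤ (S.biUnion cell).card := by
      exact_mod_cast card_le_card hsub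
    linarith
  have h5 : ((P.filter Lft).card : ℝ) + (P.filter (fun p => ¬ Lft p)).card = P.card := by
    exact_mod_cast Finset.card_filter_add_card_filter_not (s := P) Lft
  have h6 : (S.card : ℝ) = 60 * k ^ 2 := by
    have : (S.card : ℝ) + 4 * k ^ 2 = 64 * k ^ 2 := by exact_mod_cast hSc
    linarith
  rw [h6, hmk] at h1
  have h7 : (60 : ℝ) * k ^ 2 * ((1 + η) * P.card / (8 * k) ^ 2) = 15 / 16 * ((1 + η) * P.card) := by
    field_simp
    ring
  rw [h7] at h1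
  have h8 : (0 : ℝ) ≤ P.card := Nat.cast_nonneg _
  have h9 : η * P.card ≤ 1 / 30 * P.card := mul_le_mul_of_nonneg_right hη1 h8
  linarith

end Hilo
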