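import Mathlib
import Pool.Agent.Hilo.Rect46

/-!
# The number of near pairs
-/

set_option autoImplicit false

namespace Hilo

open Finset

theorem sq_card5 {h : ℝ} {P : Finset (ℝ × ℝ)} (hP : InSq P) (hs : Sep h P) (hh : 0 < h)
    (hh1 : h ≤ 1) : (P.card : ℝ) ≤ 9 / h ^ 2 := by
  have h1 := card_rect hh hs (α := 0) (a := 0) (b := 0) (l₁ := 1) (l₂ := 1) (by simp) (by norm_num)
    (by norm_num)
  rw [filter_true_of_mem] at h1
  · refine le_trans h1 ?_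
    have h2 : 2 * 1 / h + 1 ≤ 3 / h := by
      have : 1 ≤ 1 / h := by rw [le_div_iff₀ hh]; linarith
      have e : 3 / h = 2 * 1 / h + 1 / h := by ring
      linarith
    calc (2 * 1 / h + 1) * (2 * 1 / h + 1) ≤ (3 / h) * (3 / h) := by gcongr
      _ = 9 / h ^ 2 := by ring
  · intro p hp
    obtain ⟨a1, a2, a3, a4⟩ := hP p hp
    refine ⟨a1, by linarith, by linarith, by linarith⟩

theorem near_card5 {h K : ℝ} {P : Finset (ℝ × ℝ)} {L : Finset ((ℝ × ℝ) × (ℝ × ℝ))} (hP : InSq P)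
    (hs : Sep h P) (hh : 0 < h) (hh1 : h ≤ 1) (hK : 1 ≤ K) (hL : Near (K * h) P L) :
    (L.card : ℝ) ≤ 90 * K ^ 2 / h ^ 2 := by
  classical
  have hN := sq_card5 hP hs hh hh1
  have hK0 : 0 < K := by linarith
  have hsub : L ⊆ P.biUnion (fun p => (P.filter (fun q => p.1 - K * h ≤ q.1 ∧
      q.1 ≤ p.1 - K * h + 2 * (K * h) ∧ p.2 - K * h / 4 ≤ q.2 - 0 * q.1 ∧
      q.2 - 0 * q.1 ≤ p.2 - K * h / 4 + K * h / 2)).image (fun q => (p, q))) := by
    intro e he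
    obtain ⟨h1, h2, -, h3, h4⟩ := hL e he
    rw [mem_biUnion]
    refine ⟨e.1, h1, ?_⟩
    rw [mem_image]
    refine ⟨e.2, ?_, rfl⟩
    rw [mem_filter]
    have h5 := abs_le.1 h3
    have h6 : |e.2.2 - e.1.2| ≤ K * h / 4 := by linarith
    have h7 := abs_le.1 h6
    refine ⟨h2, by linarith, by linarith, by linarith, by linarith⟩
  have hc : L.card ≤ ∑ p ∈ P, (P.filter (fun q => p.1 - K * h ≤ q.1 ∧
      q.1 ≤ p.1 - K * h + 2 * (K * h) ∧ p.2 - K * h / 4 ≤ q.2 - 0 * q.1 ∧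
      q.2 - 0 * q.1 ≤ p.2 - K * h / 4 + K * h / 2)).card := by
    refine le_trans (card_le_card hsub) (le_trans card_biUnion_le ?_)
    apply sum_le_sum
    intro p _
    exact card_image_le
  have hone : ∀ p ∈ P, ((P.filter (fun q => p.1 - K * h ≤ q.1 ∧
      q.1 ≤ p.1 - K * h + 2 * (K * h) ∧ p.2 - K * h / 4 ≤ q.2 - 0 * q.1 ∧
      q.2 - 0 * q.1 ≤ p.2 - K * h / 4 + K * h / 2)).card : ℝ) ≤ 10 * K ^ 2 := by
    intro p _
    have h1 := card_rect hh hs (α := 0) (a := p.1 - K * h) (b := p.2 - K * h / 4)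
      (l₁ := 2 * (K * h)) (l₂ := K * h / 2) (by simp) (by positivity) (by positivity)
    refine le_trans h1 ?_
    have e1 : 2 * (2 * (K * h)) / h = 4 * K := by field_simp; ring
    have e2 : 2 * (K * h / 2) / h = K := by field_simp
    rw [e1, e2]
    nlinarith
  calc (L.card : ℝ) ≤ ((∑ p ∈ P, (P.filter (fun q => p.1 - K * h ≤ q.1 ∧
      q.1 ≤ p.1 - K * h + 2 * (K * h) ∧ p.2 - K * h / 4 ≤ q.2 - 0 * q.1 ∧
      q.2 - 0 * q.1 ≤ p.2 - K * h / 4 + K * h / 2)).card : ℕ) : ℝ) := by exact_mod_cast hc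
    _ ≤ ∑ p ∈ P, 10 * K ^ 2 := by
        push_cast
        exact sum_le_sum hone
    _ = P.card * (10 * K ^ 2) := by rw [sum_const, nsmul_eq_mul]
    _ ≤ 9 / h ^ 2 * (10 * K ^ 2) := by gcongr
    _ = 90 * K ^ 2 / h ^ 2 := by ring

end Hilo
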