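import Pool.Agent.Hilo.Defs5
import Pool.Agent.Hilo.Rect46

/-!
# Row R7: many short pairs of small slope in the left middle box
-/

set_option autoImplicit false

namespace Hilo

open Finset

/-- pairs with the same colour -/
theorem card_same {α β : Type*} [DecidableEq β] (S : Finset α) (c : α → β) :
    (S.card : ℝ) ^ 2 ≤
      (S.image c).card * ((S ×ˢ S).filter (fun e => c e.1 = c e.2)).card := by
  classical
  have h1 : ((S ×ˢ S).filter (fun e => c e.1 = c e.2)).card =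
      ∑ k ∈ S.image c, (S.filter (fun a => c a = k)).card ^ 2 := by
    rw [card_eq_sum_card_fiberwise (f := fun e : α × α => c e.1) (t := S.image c)]
    · refine sum_congr rfl fun k _ => ?_
      rw [sq, ← card_product]
      congr 1
      ext ⟨a, b⟩
      simp only [mem_filter, mem_product]
      constructor
      · rintro ⟨⟨⟨ha, hb⟩, hab⟩, hk⟩
        exact ⟨⟨ha, hk⟩, hb, hab ▸ hk⟩
      · rintro ⟨⟨ha, hk⟩, hb, hk'⟩
        exact ⟨⟨⟨ha, hb⟩, hk.trans hk'.symm⟩, hk⟩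
    · intro e he
      exact mem_coe.2 (mem_image_of_mem c (mem_product.1 (mem_filter.1 (mem_coe.1 he)).1).1)
  have h2 : S.card = ∑ k ∈ S.image c, (S.filter (fun a => c a = k)).card :=
    card_eq_sum_card_image c S
  have h3 : (S.card : ℝ) = ∑ k ∈ S.image c, ((S.filter (fun a => c a = k)).card : ℝ) := by
    exact_mod_cast congrArg (fun n : ℕ => (n : ℝ)) h2
  rw [h1, h3]
  push_cast
  exact sq_sum_le_card_mul_sum_sq

/-- number of cells -/
theorem card_cells {u v : ℝ} (hu : 0 < u) (hv : 0 < v) (hu8 : u ≤ 1 / 8) (hv8 : v ≤ 1 / 8)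
    (S : Finset (ℝ × ℝ)) (hS : ∀ p ∈ S, 0 ≤ p.1 ∧ p.1 ≤ 1 / 4 ∧ 3 / 8 ≤ p.2 ∧ p.2 ≤ 5 / 8) :
    ((S.image (fun p => (⌊p.1 / u⌋, ⌊p.2 / v⌋))).card : ℝ) ≤ 1 / (4 * u * v) := by
  have h1 : S.image (fun p => (⌊p.1 / u⌋, ⌊p.2 / v⌋)) ⊆
      Icc (0 : ℤ) ⌊1 / 4 / u⌋ ×ˢ Icc ⌊3 / 8 / v⌋ ⌊5 / 8 / v⌋ := by
    intro x hx
    obtain ⟨p, hp, rfl⟩ := mem_image.1 hx
    obtain ⟨a, b, c, d⟩ := hS p hp
    simp only [mem_product, mem_Icc]
    refine ⟨⟨Int.floor_nonneg.2 (by positivity), Int.floor_le_floor (by gcongr)⟩,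
      Int.floor_le_floor (by gcongr), Int.floor_le_floor (by gcongr)⟩
  have h2 := card_le_card h1
  rw [card_product, Int.card_Icc, Int.card_Icc] at h2
  have e1 : (0 : ℤ) ≤ ⌊1 / 4 / u⌋ := Int.floor_nonneg.2 (by positivity)
  have e2 : (⌊3 / 8 / v⌋ : ℤ) ≤ ⌊5 / 8 / v⌋ := Int.floor_le_floor (by gcongr; norm_num)
  have h3 : ((S.image (fun p => (⌊p.1 / u⌋, ⌊p.2 / v⌋))).card : ℝ) ≤
      ((⌊1 / 4 / u⌋ : ℝ) + 1) * ((⌊5 / 8 / v⌋ : ℝ) + 1 - ⌊3 / 8 / v⌋) := by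
    have h4 : (((⌊1 / 4 / u⌋ + 1 - 0).toNat * (⌊5 / 8 / v⌋ + 1 - ⌊3 / 8 / v⌋).toNat : ℕ) : ℝ) =
        ((⌊1 / 4 / u⌋ : ℝ) + 1) * ((⌊5 / 8 / v⌋ : ℝ) + 1 - ⌊3 / 8 / v⌋) := by
      have a1 : (((⌊1 / 4 / u⌋ + 1 - 0).toNat : ℕ) : ℤ) = ⌊1 / 4 / u⌋ + 1 := by
        rw [Int.toNat_of_nonneg (by omega)]; ring
      have a2 : (((⌊5 / 8 / v⌋ + 1 - ⌊3 / 8 / v⌋).toNat : ℕ) : ℤ) =
          ⌊5 / 8 / v⌋ + 1 - ⌊3 / 8 / v⌋ := by
        rw [Int.toNat_of_nonneg (by omega)]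
      have b1 : (((⌊1 / 4 / u⌋ + 1 - 0).toNat : ℕ) : ℝ) = (⌊1 / 4 / u⌋ : ℝ) + 1 := by
        exact_mod_cast congrArg (fun z : ℤ => (z : ℝ)) a1
      have b2 : (((⌊5 / 8 / v⌋ + 1 - ⌊3 / 8 / v⌋).toNat : ℕ) : ℝ) =
          (⌊5 / 8 / v⌋ : ℝ) + 1 - ⌊3 / 8 / v⌋ := by
        exact_mod_cast congrArg (fun z : ℤ => (z : ℝ)) a2
      rw [Nat.cast_mul, b1, b2]
    rw [← h4]
    exact_mod_cast h2
  have h5 : (⌊1 / 4 / u⌋ : ℝ) ≤ 1 / 4 / u := Int.floor_le _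
  have h6 : (⌊5 / 8 / v⌋ : ℝ) ≤ 5 / 8 / v := Int.floor_le _
  have h7 : 3 / 8 / v < (⌊3 / 8 / v⌋ : ℝ) + 1 := Int.lt_floor_add_one _
  have h8 : (1 : ℝ) ≤ 1 / 8 / u := by rw [le_div_iff₀ hu]; linarith
  have h9 : (2 : ℝ) ≤ 1 / 4 / v := by rw [le_div_iff₀ hv]; linarith
  have h10 : (5 : ℝ) / 8 / v - 3 / 8 / v = 1 / 4 / v := by ring
  have e1' : (0 : ℝ) ≤ (⌊1 / 4 / u⌋ : ℝ) := by exact_mod_cast e1
  calc ((S.image (fun p => (⌊p.1 / u⌋, ⌊p.2 / v⌋))).card : ℝ)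
      ≤ ((⌊1 / 4 / u⌋ : ℝ) + 1) * ((⌊5 / 8 / v⌋ : ℝ) + 1 - ⌊3 / 8 / v⌋) := h3
    _ ≤ (1 / 4 / u + 1 / 8 / u) * (1 / 4 / v + 2) := by
        gcongr
        · have : (⌊3 / 8 / v⌋ : ℝ) ≤ ⌊5 / 8 / v⌋ := by exact_mod_cast e2
          linarith
        · linarith
    _ ≤ (1 / 4 / u + 1 / 8 / u) * (1 / 4 / v + 1 / 4 / v) := by gcongr
    _ = (3 / 16) / (u * v) := by
        field_simp
        norm_num
    _ ≤ (1 / 4) / (u * v) := div_le_div_of_nonneg_right (by norm_num) (by positivity)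
    _ = 1 / (4 * u * v) := by
        field_simp

theorem pairs {d h K : ℝ} {P : Finset (ℝ × ℝ)} (hd : 0 < d) (hh : 0 < h) (hP : InSq P)
    (hs : Sep h P) [DecidablePred Lft] (hB : (P.card : ℝ) / 32 ≤ (P.filter Lft).card)
    (hN : d ≤ P.card * h ^ 2)
    (hK : 1360 / d ≤ K) (hK1 : 1 ≤ K) (hKh : K * h ≤ 1 / 8) :
    ∃ L : Finset ((ℝ × ℝ) × (ℝ × ℝ)), Near (K * h) P L ∧ (∀ e ∈ L, Lft e.1) ∧
      (∀ e ∈ L, d / 340 * (K * h) ≤ |e.2.1 - e.1.1|) ∧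
      d ^ 2 / 700000 * P.card * K ^ 2 ≤ L.card := by
  classical
  have hK0 : 0 < K := by linarith
  have hh8 : h ≤ 1 / 8 := by nlinarith
  -- `d ≤ 9`
  have hN9 : (P.card : ℝ) * h ^ 2 ≤ 9 := by
    have h1 := card_rect hh hs (α := 0) (a := 0) (b := 0) (l₁ := 1) (l₂ := 1) (by simp) zero_le_one
      zero_le_one
    have h2 : P.filter (fun q => (0 : ℝ) ≤ q.1 ∧ q.1 ≤ 0 + 1 ∧ 0 ≤ q.2 - 0 * q.1 ∧
        q.2 - 0 * q.1 ≤ 0 + 1) = P := by
      rw [filter_eq_self]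
      intro q hq
      obtain ⟨a, b, c, e⟩ := hP q hq
      refine ⟨a, by linarith, by linarith, by linarith⟩
    rw [h2] at h1
    have h3 : 2 * 1 / h + 1 ≤ 3 / h := by
      rw [div_add' _ _ _ hh.ne', div_le_div_iff_of_pos_right hh]
      linarith
    have h4 : (P.card : ℝ) ≤ (3 / h) * (3 / h) := h1.trans (by gcongr)
    calc (P.card : ℝ) * h ^ 2 ≤ (3 / h) * (3 / h) * h ^ 2 := by gcongr
      _ = 9 := by field_simp; norm_num
  have hd9 : d ≤ 9 := hN.trans hN9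
  obtain ⟨u, hu⟩ : ∃ u, u = K * h := ⟨_, rfl⟩
  obtain ⟨v, hv⟩ : ∃ v, v = K * h * (d / 1360) := ⟨_, rfl⟩
  have hu0 : 0 < u := by rw [hu]; positivity
  have hv0 : 0 < v := by rw [hv]; positivity
  have hu8 : u ≤ 1 / 8 := hu ▸ hKh
  have hvu : v ≤ u := by
    rw [hv, hu]
    have : d / 1360 ≤ 1 := by linarith
    have h1 : 0 < K * h := by positivity
    nlinarith
  have hv8 : v ≤ 1 / 8 := hvu.trans hu8
  have hvh : h ≤ v := by
    rw [hv]
    have h1 : 1360 ≤ K * d := by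
      rw [div_le_iff₀ hd] at hK
      exact hK
    have h2 : K * h * (d / 1360) = h * (K * d / 1360) := by ring
    rw [h2]
    have h3 : 1 ≤ K * d / 1360 := by linarith
    nlinarith
  let S := P.filter Lft
  let c : ℝ × ℝ → ℤ × ℤ := fun p => (⌊p.1 / u⌋, ⌊p.2 / v⌋)
  let T := (S ×ˢ S).filter (fun e => c e.1 = c e.2)
  have hS : ∀ p ∈ S, p ∈ P ∧ 0 ≤ p.1 ∧ p.1 ≤ 1 / 4 ∧ 3 / 8 ≤ p.2 ∧ p.2 ≤ 5 / 8 := by
    intro p hp
    obtain ⟨hp1, hp2⟩ := mem_filter.1 hp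
    exact ⟨hp1, (hP p hp1).1, hp2.1, hp2.2.1, hp2.2.2⟩
  have hT1 : (S.card : ℝ) ^ 2 ≤ 1 / (4 * u * v) * T.card :=
    (card_same S c).trans (by
      gcongr
      exact card_cells hu0 hv0 hu8 hv8 S fun p hp => (hS p hp).2)
  -- points of one cell
  have hcell : ∀ e ∈ T, |e.2.1 - e.1.1| ≤ u ∧ |e.2.2 - e.1.2| ≤ v := by
    intro e he
    have h1 := (mem_filter.1 he).2
    have h2 : ⌊e.1.1 / u⌋ = ⌊e.2.1 / u⌋ := congrArg Prod.fst h1
    have h3 : ⌊e.1.2 / v⌋ = ⌊e.2.2 / v⌋ := congrArg Prod.snd h1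
    have key : ∀ {a b w : ℝ}, 0 < w → ⌊a / w⌋ = ⌊b / w⌋ → |b - a| ≤ w := by
      intro a b w hw hab
      have h4 := Int.abs_sub_lt_one_of_floor_eq_floor hab
      rw [← sub_div, abs_div, abs_of_pos hw, div_lt_one hw, abs_sub_comm] at h4
      exact h4.le
    exact ⟨key hu0 h2, key hv0 h3⟩
  let L := T.filter (fun e => 4 * v ≤ |e.2.1 - e.1.1|)
  let T' := T.filter (fun e => ¬ 4 * v ≤ |e.2.1 - e.1.1|)
  have hLT : L.card + T'.card = T.card := card_filter_add_card_filter_not _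
  -- few pairs in `T'`
  have hT' : (T'.card : ℝ) ≤ S.card * (85 * (v / h) ^ 2) := by
    have h1 : (T'.card : ℝ) = ∑ p ∈ S, ((T'.filter (fun e => e.1 = p)).card : ℝ) := by
      have h2 : T'.card = ∑ p ∈ S, (T'.filter (fun e => e.1 = p)).card := by
        apply card_eq_sum_card_fiberwise
        intro e he
        have h3 := (mem_filter.1 (mem_filter.1 (mem_coe.1 he)).1).1
        exact mem_coe.2 (mem_product.1 h3).1
      exact_mod_cast congrArg (fun n : ℕ => (n : ℝ)) h2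
    rw [h1, ← nsmul_eq_mul]
    apply sum_le_card_nsmul
    intro p hp
    have h2 : ((T'.filter (fun e => e.1 = p)).card : ℝ) ≤
        ((P.filter (fun q => p.1 - 4 * v ≤ q.1 ∧ q.1 ≤ p.1 - 4 * v + 8 * v ∧
          p.2 - v ≤ q.2 - 0 * q.1 ∧ q.2 - 0 * q.1 ≤ p.2 - v + 2 * v)).card : ℝ) := by
      have h3 : (T'.filter (fun e => e.1 = p)).card ≤
          (P.filter (fun q => p.1 - 4 * v ≤ q.1 ∧ q.1 ≤ p.1 - 4 * v + 8 * v ∧
            p.2 - v ≤ q.2 - 0 * q.1 ∧ q.2 - 0 * q.1 ≤ p.2 - v + 2 * v)).card := by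
        apply card_le_card_of_injOn (fun e => e.2)
        · intro e he
          have he := mem_coe.1 he
          obtain ⟨h4, h5⟩ := mem_filter.1 he
          obtain ⟨h6, h7⟩ := mem_filter.1 h4
          have h8 := (mem_product.1 (mem_filter.1 h6).1).2
          have h9 := (hcell e h6).2
          rw [not_le] at h7
          rw [h5] at h7 h9
          rw [abs_lt] at h7
          rw [abs_le] at h9
          refine mem_coe.2 (mem_filter.2 ⟨(hS _ h8).1, ?_, ?_, ?_, ?_⟩) <;>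
            simp only [zero_mul, sub_zero] <;> linarith [h7.1, h7.2, h9.1, h9.2]
        · intro e he e' he' hee
          have h4 := (mem_filter.1 (mem_coe.1 he)).2
          have h5 := (mem_filter.1 (mem_coe.1 he')).2
          exact Prod.ext (h4.trans h5.symm) hee
      exact_mod_cast h3
    refine h2.trans ((card_rect hh hs (by simp) (by positivity) (by positivity)).trans ?_)
    have h3 : 1 ≤ v / h := by rw [le_div_iff₀ hh]; linarith
    have h4 : 2 * (8 * v) / h = 16 * (v / h) := by ring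
    have h5 : 2 * (2 * v) / h = 4 * (v / h) := by ring
    rw [h4, h5]
    nlinarith
  refine ⟨L, ?_, ?_, ?_, ?_⟩
  · intro e he
    obtain ⟨h1, h2⟩ := mem_filter.1 he
    have h3 := mem_product.1 (mem_filter.1 h1).1
    have h4 := hcell e h1
    refine ⟨(hS _ h3.1).1, (hS _ h3.2).1, ?_, ?_, ?_⟩
    · intro h5
      rw [h5, sub_self, abs_zero] at h2
      linarith
    · rw [← hu]
      exact h4.1
    · linarith [h4.2]
  · intro e he
    have h1 := (mem_filter.1 he).1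
    have h3 := mem_product.1 (mem_filter.1 h1).1
    exact (mem_filter.1 h3.1).2
  · intro e he
    have h2 := (mem_filter.1 he).2
    calc d / 340 * (K * h) = 4 * v := by rw [hv]; ring
      _ ≤ _ := h2
  · have h1 : (L.card : ℝ) + T'.card = T.card := by exact_mod_cast congrArg (fun n : ℕ => (n : ℝ)) hLT
    have huv : 0 < 4 * u * v := by positivity
    have h2 : 4 * u * v * (S.card : ℝ) ^ 2 ≤ T.card := by
      have h3 := mul_le_mul_of_nonneg_left hT1 huv.le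
      rw [← mul_assoc, mul_one_div_cancel huv.ne', one_mul] at h3
      exact h3
    have hB' : (P.card : ℝ) / 32 ≤ S.card := hB
    have h4 : 4 * u * v = 4 * K ^ 2 * h ^ 2 * (d / 1360) := by rw [hu, hv]; ring
    have h5 : (v / h) ^ 2 = K ^ 2 * (d / 1360) ^ 2 := by
      rw [hv]
      field_simp
    rw [h4] at h2
    rw [h5] at hT'
    obtain ⟨N, hNdef⟩ : ∃ N : ℝ, N = P.card := ⟨_, rfl⟩
    obtain ⟨s, hsdef⟩ : ∃ s : ℝ, s = S.card := ⟨_, rfl⟩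
    rw [← hNdef] at hB' hN ⊢
    rw [← hsdef] at hB' h2 hT'
    have hN0 : 0 ≤ N := by rw [hNdef]; positivity
    have hs0 : 0 ≤ s := by rw [hsdef]; positivity
    -- `L ≥ s K² (d/1360) (4 s h² - 85 d / 1360)`
    have h6 : s * K ^ 2 * (d / 1360) * (4 * (s * h ^ 2) - 85 * (d / 1360)) ≤ L.card := by
      have : s * K ^ 2 * (d / 1360) * (4 * (s * h ^ 2) - 85 * (d / 1360)) =
          4 * K ^ 2 * h ^ 2 * (d / 1360) * s ^ 2 - s * (85 * (K ^ 2 * (d / 1360) ^ 2)) := by ring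
      rw [this]
      linarith
    have h7 : d / 32 ≤ s * h ^ 2 := by
      have h8 : N / 32 * h ^ 2 ≤ s * h ^ 2 := by gcongr
      linarith
    have h8 : d / 16 ≤ 4 * (s * h ^ 2) - 85 * (d / 1360) := by linarith
    calc d ^ 2 / 700000 * N * K ^ 2 ≤ (N / 32) * K ^ 2 * (d / 1360) * (d / 16) := by
          have : (N / 32) * K ^ 2 * (d / 1360) * (d / 16) = d ^ 2 / 696320 * N * K ^ 2 := by ring
          rw [this]
          gcongr
          norm_num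
      _ ≤ s * K ^ 2 * (d / 1360) * (4 * (s * h ^ 2) - 85 * (d / 1360)) := by gcongr
      _ ≤ L.card := h6

end Hilo
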