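import Mathlib
import Pool.Agent.Hilo.CoreA5
import Pool.Agent.Hilo.Pairs2
import Pool.Agent.Hilo.Coarse28
import Pool.Agent.Hilo.LftCount83
import Pool.Agent.Hilo.KerZero77
import Pool.Agent.Hilo.NearCard5

/-!
# The core of the high-low argument
-/

set_option autoImplicit false

namespace Hilo

open Finset

theorem geom_six (j : ℕ) : ∑ i ∈ range j, (√√(1 / 2 : ℝ)) ^ (i + 1) ≤ 6 := by
  have h1 : √√(1 / 2 : ℝ) ≤ 6 / 7 := by
    rw [Real.sqrt_le_left (by norm_num), Real.sqrt_le_left (by norm_num)]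
    norm_num
  have h2 : ∀ j : ℕ, ∑ i ∈ range j, (6 / 7 : ℝ) ^ (i + 1) = 6 * (1 - (6 / 7) ^ j) := by
    intro j
    induction j with
    | zero => simp
    | succ n ih => rw [sum_range_succ, ih]; ring
  calc ∑ i ∈ range j, (√√(1 / 2 : ℝ)) ^ (i + 1) ≤ ∑ i ∈ range j, (6 / 7 : ℝ) ^ (i + 1) := by
        gcongr
    _ = 6 * (1 - (6 / 7) ^ j) := h2 j
    _ ≤ 6 := by
        have : (0 : ℝ) ≤ (6 / 7) ^ j := by positivity
        linarith

theorem sqrt_sqrt_dyad {x : ℝ} (hx : 0 ≤ x) (j : ℕ) :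
    √√(x / 2 ^ j) = √√x * (√√(1 / 2 : ℝ)) ^ j := by
  induction j with
  | zero => simp
  | succ n ih =>
    have e1 : x / 2 ^ (n + 1) = (x / 2 ^ n) * (1 / 2) := by
      rw [pow_succ]; field_simp
    rw [e1, Real.sqrt_mul (by positivity), Real.sqrt_mul (by positivity), ih, pow_succ]
    ring

/-- the lower bound for the number of close pairs of lines, for every large set of near pairs -/
theorem core_sub {Cs : ℝ} (hCs : 0 < Cs)
    (hcor : ∀ (M : ℕ) (h w : ℝ) (P : Finset (ℝ × ℝ)) (p : ℝ × ℝ),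
      0 < M → 0 < h → h ≤ 1 → 0 < w → M * w ≤ 1 → InSq P → Sep h P → p ∈ P →
      ∑ q ∈ P, |Cor M w p q| ≤
        Cs * (1 + M * w / h) ^ 2 * (1 / w + (1 + Real.log (1 / (M * w))) / (M * w)))
    {d κ ε C a η h K : ℝ} {m : ℕ} (hd : 0 < d) (hκ0 : 0 < κ) (hapos : 0 < a)
    (ha2 : 3570 * Cs ≤ 4 * κ * d ^ 2 * a ^ 2) (hm8 : 8 ∣ m) (hm8' : 8 ≤ m)
    (hss : √√(4 / (m : ℝ)) ≤ 1 / (12288 * a)) (hη : 0 ≤ η) (hη2 : 340 * η ≤ κ)
    (hC : 2 * (1024 * a) ^ 2 ≤ C) (hε : 0 < ε) (hε1 : ε ≤ 1)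
    {P : Finset (ℝ × ℝ)} (hh : 0 < h) (hh8 : h ≤ 1 / 8) (hh4m : h ≤ 4 / m) (hP : InSq P)
    (hs : Sep h P) (hU : Unif m η P) (hN : d ≤ P.card * h ^ 2)
    (hK : C * Real.log (1 / h) ^ 3 ≤ K) (hKm : (m : ℝ) ≤ K) (hK1 : 1 ≤ K)
    (hKℓ : 1 + Real.log (1 / h) ≤ K) (hℓ1 : 1 ≤ Real.log (1 / h)) (hKh : K * h ≤ 1 / 8)
    {L : Finset ((ℝ × ℝ) × (ℝ × ℝ))} (hL : Near (K * h) P L) (hLL : ∀ e ∈ L, Lft e.1)
    (hvoid : ∀ e ∈ L, ∀ s ∈ P, 1 / 2 ≤ s.1 → 3 * (ε * h / K) < |V s (lin e)|)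
    (hLc : κ * P.card * K ^ 2 ≤ L.card) :
    κ ^ 2 * d ^ 3 * ε ^ 3 / (2359296 * Cs) * K / h ^ 3 ≤ QL (ε * h / K) L lin := by
  classical
  have hm0 : 0 < m := by omega
  have hmr : (8 : ℝ) ≤ m := by exact_mod_cast hm8'
  have hmr0 : (0 : ℝ) < m := by linarith
  have hK0 : 0 < K := by linarith
  have hC0 : 0 < C := lt_of_lt_of_le (by positivity) hC
  set ℓ := Real.log (1 / h) with hℓ
  set P' := P.filter (fun p => (1 : ℝ) / 2 ≤ p.1) with hP'
  have hP'P : P' ⊆ P := filter_subset _ _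
  have hcoarse := coarse hm8 hm0 hη hh hKm hKh hP hs hU hL hLL (by
    calc 340 * η * K ^ 2 * P.card ≤ κ * K ^ 2 * P.card := by gcongr
      _ = κ * P.card * K ^ 2 := by ring
      _ ≤ L.card := hLc)
  set N : ℝ := (P.card : ℝ) with hNdef
  set Lc : ℝ := (L.card : ℝ) with hLcdef
  have hN0 : 0 < N := by
    rcases (Nat.cast_nonneg P.card : (0 : ℝ) ≤ P.card).lt_or_eq with h1 | h1
    · exact h1
    · exfalso
      rw [hNdef, ← h1] at hN
      linarith
  have hL0 : 0 < Lc := lt_of_lt_of_le (by positivity) hLc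
  have hw0 : (0 : ℝ) < 4 / m := by positivity
  -- dyadic steps
  set r : ℝ := √((1 + ℓ) / K) with hr
  have hr0 : 0 ≤ r := Real.sqrt_nonneg _
  have hdy : ∀ j : ℕ, h ≤ (4 / (m : ℝ)) / 2 ^ j → Tot (4 / m) P' L ≤
      Tot ((4 / (m : ℝ)) / 2 ^ j) P' L + N * Lc * (a * (4 * √√(4 / (m : ℝ)) *
        (∑ i ∈ range j, (√√(1 / 2 : ℝ)) ^ (i + 1)) + j * r)) := by
    intro j
    induction j with
    | zero => intro _; simp
    | succ n ih =>
      intro hn
      have hn' : h ≤ (4 / (m : ℝ)) / 2 ^ n := by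
        refine le_trans hn ?_
        gcongr
        · norm_num
        · exact Nat.le_succ n
      have h1 := ih hn'
      set w : ℝ := (4 / (m : ℝ)) / 2 ^ (n + 1) with hw
      have hw2 : (4 / (m : ℝ)) / 2 ^ n = 2 * w := by
        rw [hw, pow_succ]; field_simp
      have hw4 : w ≤ 1 / 4 := by
        rw [hw, div_le_iff₀ (by positivity)]
        have h3 : (4 / (m : ℝ)) ≤ 1 / 2 := by rw [div_le_div_iff₀ hmr0 (by norm_num)]; linarith
        have h4 : (2 : ℝ) ≤ 2 ^ (n + 1) := by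
          calc (2 : ℝ) = 2 ^ 1 := by norm_num
            _ ≤ 2 ^ (n + 1) := pow_le_pow_right₀ (by norm_num) (by omega)
        linarith
      have h2 := step_high hCs hcor hd hκ0 hh hK1 hn hw4 hP hs hP'P hL hN hLc hapos ha2
      rw [hw2] at h1
      have h3 : √√w = √√(4 / (m : ℝ)) * (√√(1 / 2 : ℝ)) ^ (n + 1) :=
        sqrt_sqrt_dyad hw0.le _
      rw [h3] at h2
      rw [sum_range_succ]
      push_cast
      have e1 : N * Lc * (a * (4 * √√(4 / (m : ℝ)) * (∑ i ∈ range n, (√√(1 / 2 : ℝ)) ^ (i + 1) +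
          (√√(1 / 2 : ℝ)) ^ (n + 1)) + (n + 1) * r)) =
          N * Lc * (a * (4 * √√(4 / (m : ℝ)) * (∑ i ∈ range n, (√√(1 / 2 : ℝ)) ^ (i + 1)) +
          n * r)) + N * Lc * (a * (4 * (√√(4 / (m : ℝ)) * (√√(1 / 2 : ℝ)) ^ (n + 1)) + r)) := by
        ring
      rw [e1]
      linarith
  -- the number of dyadic steps
  obtain ⟨J, hJ1, hJ2⟩ := exists_nat_pow_near (x := (4 / (m : ℝ)) / h) (y := 2)
    (by rw [le_div_iff₀ hh]; linarith) (by norm_num)
  have hWh : h ≤ (4 / (m : ℝ)) / 2 ^ J := by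
    rw [le_div_iff₀ (by positivity)]
    rw [le_div_iff₀ hh] at hJ1
    linarith
  have hW2 : (4 / (m : ℝ)) / 2 ^ J < 2 * h := by
    rw [div_lt_iff₀ (by positivity)]
    rw [div_lt_iff₀ hh, pow_succ] at hJ2
    linarith
  have hJℓ : (J : ℝ) ≤ 2 * ℓ := by
    have h1 : (2 : ℝ) ^ J ≤ 1 / h := by
      refine le_trans hJ1 ?_
      have : 4 / (m : ℝ) ≤ 1 := by rw [div_le_one hmr0]; linarith
      gcongr
    have h2 : Real.log (2 ^ J) ≤ ℓ := Real.log_le_log (by positivity) h1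
    rw [Real.log_pow] at h2
    have h3 := Real.log_two_gt_d9
    have h4 : (J : ℝ) * (1 / 2) ≤ J * Real.log 2 := by gcongr; linarith
    linarith
  have hmain := hdy J hWh
  set W : ℝ := (4 / (m : ℝ)) / 2 ^ J with hW
  have hW0 : 0 < W := lt_of_lt_of_le hh hWh
  have herr1 : a * (4 * √√(4 / (m : ℝ)) * (∑ i ∈ range J, (√√(1 / 2 : ℝ)) ^ (i + 1))) ≤ 1 / 512 := by
    calc a * (4 * √√(4 / (m : ℝ)) * (∑ i ∈ range J, (√√(1 / 2 : ℝ)) ^ (i + 1))) ≤
        a * (4 * (1 / (12288 * a)) * 6) := by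
          gcongr
          exact geom_six J
      _ = 1 / 512 := by field_simp; norm_num
  have herr2 : a * (J * r) ≤ 1 / 512 := by
    have h1 : (a * (J * r)) ^ 2 ≤ (1 / 512) ^ 2 := by
      have h2 : r ^ 2 = (1 + ℓ) / K := Real.sq_sqrt (by positivity)
      have h3 : (1 + ℓ) / K ≤ 2 * ℓ / (C * ℓ ^ 3) := by
        gcongr
        linarith
      calc (a * (J * r)) ^ 2 = a ^ 2 * J ^ 2 * r ^ 2 := by ring
        _ ≤ a ^ 2 * (2 * ℓ) ^ 2 * (2 * ℓ / (C * ℓ ^ 3)) := by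
            rw [h2]
            gcongr
        _ = 8 * a ^ 2 / C := by field_simp; ring
        _ ≤ 8 * a ^ 2 / (2 * (1024 * a) ^ 2) := by
            gcongr
        _ = (1 / 512) ^ 2 := by field_simp; norm_num
    exact le_of_sq_le_sq h1 (by norm_num)
  have hTW : N * Lc / 256 ≤ Tot W P' L := by
    have h1 : N * Lc / 128 ≤ Tot (4 / m) P' L := hcoarse
    have h2 : N * Lc * (a * (4 * √√(4 / (m : ℝ)) *
        (∑ i ∈ range J, (√√(1 / 2 : ℝ)) ^ (i + 1)) + J * r)) ≤ N * Lc * (1 / 256) := by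
      gcongr
      rw [mul_add]
      linarith
    linarith
  -- the last step
  have hεhK : 0 < ε * h / K := by positivity
  have hεhK1 : ε * h / K ≤ h := by
    rw [div_le_iff₀ hK0]
    nlinarith
  obtain ⟨k, hk1, hk2⟩ := exists_nat_pow_near (x := W / (ε * h / K)) (y := 2)
    (by rw [le_div_iff₀ hεhK]; linarith) (by norm_num)
  set M : ℕ := 2 ^ (k + 1) with hM
  have hMr : (M : ℝ) = 2 ^ (k + 1) := by rw [hM]; push_cast; ring
  have hM0 : 0 < M := by positivity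
  have hMr0 : (0 : ℝ) < M := by exact_mod_cast hM0
  set w : ℝ := W / M with hw
  have hwpos : 0 < w := by positivity
  have hMw : M * w = W := by rw [hw]; field_simp
  have hw1 : w ≤ ε * h / K := by
    rw [hw, div_le_iff₀ hMr0, hMr]
    rw [div_lt_iff₀ hεhK] at hk2
    linarith
  have hw2 : ε * h / K / 2 ≤ w := by
    rw [hw, le_div_iff₀ hMr0, hMr, pow_succ]
    rw [le_div_iff₀ hεhK] at hk1
    linarith
  have hwK : w ≤ h / K := by
    refine le_trans hw1 ?_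
    gcongr
    nlinarith
  have hlow := step_low hCs hcor hM0 hh hwpos (by rw [hMw]; exact hWh) (by rw [hMw]; exact hW2)
    hh8 hKℓ hwK hP hs hP'P (L := L) (fun e he => hL.slope he)
  rw [hMw] at hlow
  have hT0 : Tot w P' L = 0 := by
    unfold Tot
    apply sum_eq_zero
    intro e he
    apply sum_eq_zero
    intro p hp
    have hpP : p ∈ P := hP'P hp
    have hp2 : (1 : ℝ) / 2 ≤ p.1 := (mem_filter.1 hp).2
    apply Ker_zero77 hwpos (hP.abs hpP)
    have h1 := hvoid e he p hpP hp2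
    linarith
  rw [hT0, zero_add] at hlow
  have hfin : N * Lc / 256 ≤ 1 / (2 * w) * √(18 * Cs * N / w * QL w L lin) := le_trans hTW hlow
  have hQ0 : (0 : ℝ) ≤ QL w L lin := Nat.cast_nonneg _
  have hsq : (N * Lc / 256) ^ 2 ≤ (1 / (2 * w)) ^ 2 * (18 * Cs * N / w * QL w L lin) := by
    calc (N * Lc / 256) ^ 2 ≤ (1 / (2 * w) * √(18 * Cs * N / w * QL w L lin)) ^ 2 := by gcongr
      _ = _ := by rw [mul_pow, Real.sq_sqrt (by positivity)]
  have hQL : N * Lc ^ 2 * w ^ 3 / (294912 * Cs) ≤ QL w L lin := by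
    have e1 : N * Lc ^ 2 * w ^ 3 / (294912 * Cs) =
        (N * Lc / 256) ^ 2 * (4 * w ^ 3 / (18 * Cs * N)) := by
      field_simp; ring
    have e2 : ∀ Q : ℝ, Q = (1 / (2 * w)) ^ 2 * (18 * Cs * N / w * Q) *
        (4 * w ^ 3 / (18 * Cs * N)) := by
      intro Q
      field_simp
      ring
    have hw3 : 0 < w ^ 3 := pow_pos hwpos 3
    have hden : 0 < 18 * Cs * N := mul_pos (mul_pos (by norm_num) hCs) hN0
    have e3 : 0 ≤ 4 * w ^ 3 / (18 * Cs * N) := (div_pos (mul_pos (by norm_num) hw3) hden).le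
    rw [e1]
    have e4 := mul_le_mul_of_nonneg_right hsq e3
    have e5 := e2 (QL w L lin : ℝ)
    linarith
  have hQL2 : (QL w L lin : ℝ) ≤ QL (ε * h / K) L lin := by
    exact_mod_cast QL_mono hw1 L lin
  refine le_trans ?_ (le_trans hQL hQL2)
  have hN3 : d ^ 3 / h ^ 3 ≤ N ^ 3 * h ^ 3 := by
    have h1 : d ^ 3 ≤ (N * h ^ 2) ^ 3 := by gcongr
    rw [div_le_iff₀ (by positivity)]
    calc d ^ 3 ≤ (N * h ^ 2) ^ 3 := h1
      _ = _ := by ring
  calc κ ^ 2 * d ^ 3 * ε ^ 3 / (2359296 * Cs) * K / h ^ 3 =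
      κ ^ 2 * ε ^ 3 * K / (2359296 * Cs) * (d ^ 3 / h ^ 3) := by ring
    _ ≤ κ ^ 2 * ε ^ 3 * K / (2359296 * Cs) * (N ^ 3 * h ^ 3) := by gcongr
    _ = N * (κ * N * K ^ 2) ^ 2 * (ε * h / K / 2) ^ 3 / (294912 * Cs) := by
        field_simp; ring
    _ ≤ N * Lc ^ 2 * w ^ 3 / (294912 * Cs) := by gcongr

open Classical in
theorem core (d : ℝ) (hd : 0 < d) : ∃ m : ℕ, 2 ≤ m ∧ ∃ η : ℝ, 0 < η ∧ ∃ C : ℝ, 0 < C ∧
    ∀ ε : ℝ, 0 < ε → ε ≤ 1 → ∃ c : ℝ, 0 < c ∧ ∃ h₀ : ℝ, 0 < h₀ ∧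
    ∀ (h K : ℝ) (P : Finset (ℝ × ℝ)), 0 < h → h ≤ h₀ → InSq P → Sep h P → Unif m η P →
      d ≤ P.card * h ^ 2 → C * Real.log (1 / h) ^ 3 ≤ K → K * h ≤ 1 / 8 →
      (∀ e : (ℝ × ℝ) × (ℝ × ℝ), Near (K * h) P {e} → Lft e.1 →
        ∀ s ∈ P, 1 / 2 ≤ s.1 → 3 * (ε * h / K) < |V s (lin e)|) →
      ∃ L : Finset ((ℝ × ℝ) × (ℝ × ℝ)), Near (K * h) P L ∧
        (∀ e ∈ L, d / 340 * (K * h) ≤ |e.2.1 - e.1.1|) ∧
        ∃ G ⊆ L, c * K ^ 2 / h ^ 2 ≤ G.card ∧
          ∀ e ∈ G, c / (K * h) ≤ (L.filter (fun f =>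
            |(lin e).1 - (lin f).1| ≤ 2 * (ε * h / K) ∧
            |(lin e).2 - (lin f).2| ≤ 2 * (ε * h / K))).card := by
  obtain ⟨Cs, hCs, hcor⟩ := cor_sum
  set κ : ℝ := d ^ 2 / 1400000 with hκ
  have hκ0 : 0 < κ := by positivity
  set a : ℝ := √(3570 * Cs / (4 * κ * d ^ 2)) with ha
  have hapos : 0 < a := Real.sqrt_pos.2 (by positivity)
  have ha2 : 3570 * Cs ≤ 4 * κ * d ^ 2 * a ^ 2 := by
    rw [ha, Real.sq_sqrt (by positivity)]
    apply le_of_eq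
    field_simp
  set m : ℕ := 8 * (⌈(12288 * a) ^ 4⌉₊ + 1) with hm
  have hm8 : 8 ∣ m := ⟨_, hm⟩
  have hm8' : 8 ≤ m := by rw [hm]; omega
  have hm0 : 0 < m := by omega
  have hmr : (8 : ℝ) ≤ m := by exact_mod_cast hm8'
  have hmr0 : (0 : ℝ) < m := by linarith
  have hmbig : 4 * (12288 * a) ^ 4 ≤ m := by
    have h1 := Nat.le_ceil ((12288 * a) ^ 4)
    have h2 : (m : ℝ) = 8 * (⌈(12288 * a) ^ 4⌉₊ + 1) := by rw [hm]; push_cast; ring
    have h3 : 0 ≤ (12288 * a) ^ 4 := by positivity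
    rw [h2]
    linarith
  have hss : √√(4 / (m : ℝ)) ≤ 1 / (12288 * a) := by
    rw [Real.sqrt_le_left (by positivity), Real.sqrt_le_left (by positivity)]
    rw [← pow_mul, div_pow, one_pow, div_le_div_iff₀ hmr0 (by positivity)]
    simpa using hmbig
  set η : ℝ := min (κ / 340) (1 / 30) with hη
  have hηpos : 0 < η := by rw [hη]; positivity
  have hη1 : η ≤ 1 / 30 := min_le_right _ _
  have hη2 : 340 * η ≤ κ := by
    have : η ≤ κ / 340 := min_le_left _ _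
    linarith
  set C : ℝ := 2 * (1024 * a) ^ 2 + m + 1360 / d + 3 with hC
  have hC0 : 0 < C := by positivity
  refine ⟨m, by omega, η, hηpos, C, hC0, ?_⟩
  intro ε hε hε1
  set c₀ : ℝ := κ ^ 2 * d ^ 3 * ε ^ 3 / (2359296 * Cs) with hc₀
  have hc₀pos : 0 < c₀ := by positivity
  refine ⟨min (c₀ / 100) (κ * d), by positivity, min (1 / 8) (4 / m), by positivity, ?_⟩
  intro h K P hh hh0 hP hs hU hN hK hKh hvoid
  have hh8 : h ≤ 1 / 8 := le_trans hh0 (min_le_left _ _)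
  have hh4m : h ≤ 4 / m := le_trans hh0 (min_le_right _ _)
  set ℓ := Real.log (1 / h) with hℓ
  have hℓ1 : 1 ≤ ℓ := by
    have h1 : Real.log 8 ≤ ℓ := by
      apply Real.log_le_log (by norm_num)
      rw [le_div_iff₀ hh]
      linarith
    have h2 : Real.log 8 = 3 * Real.log 2 := by
      rw [show (8 : ℝ) = 2 ^ 3 by norm_num, Real.log_pow]
      norm_num
    have h3 := Real.log_two_gt_d9
    linarith
  have hℓ3 : ℓ ≤ ℓ ^ 3 := by
    calc ℓ = ℓ ^ 1 := by ring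
      _ ≤ ℓ ^ 3 := pow_le_pow_right₀ hℓ1 (by norm_num)
  have hCK : C ≤ K := by
    refine le_trans ?_ hK
    have : (1 : ℝ) ≤ ℓ ^ 3 := by linarith
    nlinarith
  have ha3 : 0 ≤ 2 * (1024 * a) ^ 2 := by positivity
  have hd1 : 0 < 1360 / d := by positivity
  have hKm : (m : ℝ) ≤ K := by linarith
  have hKd : 1360 / d ≤ K := by linarith
  have hK1 : 1 ≤ K := by linarith
  have hK0 : 0 < K := by linarith
  have hKℓ : 1 + ℓ ≤ K := by
    have h1 : 3 * ℓ ≤ C * ℓ ^ 3 := by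
      calc 3 * ℓ ≤ C * ℓ := by
            gcongr
            linarith
        _ ≤ C * ℓ ^ 3 := by gcongr
    linarith
  have hB := lft_card hm8 hm0 hηpos.le hη1 hP hU
  obtain ⟨L, hL, hLL, hLd, hLc⟩ := pairs hd hh hP hs hB hN hKd hK1 hKh
  have hLc2 : κ * P.card * K ^ 2 ≤ (L.card : ℝ) / 2 := by
    have e1 : κ * P.card * K ^ 2 = (d ^ 2 / 700000 * P.card * K ^ 2) / 2 := by
      rw [hκ]; ring
    rw [e1]
    linarith
  have hvoid' : ∀ e ∈ L, ∀ s ∈ P, 1 / 2 ≤ s.1 → 3 * (ε * h / K) < |V s (lin e)| := by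
    intro e he
    exact hvoid e (by
      intro e' he'
      rw [mem_singleton] at he'
      rw [he']
      exact hL e he) (hLL e he)
  set τ : ℝ := min (c₀ / 100) (κ * d) / (K * h) with hτ
  set m' : (ℝ × ℝ) × (ℝ × ℝ) → Finset ((ℝ × ℝ) × (ℝ × ℝ)) := fun e => L.filter (fun f =>
            |(lin e).1 - (lin f).1| ≤ 2 * (ε * h / K) ∧
            |(lin e).2 - (lin f).2| ≤ 2 * (ε * h / K)) with hm'
  refine ⟨L, hL, hLd, L.filter (fun e => τ ≤ (m' e).card), filter_subset _ _, ?_, ?_⟩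
  swap
  · intro e he
    exact (mem_filter.1 he).2
  set G := L.filter (fun e => τ ≤ (m' e).card) with hG
  have hGL : G ⊆ L := filter_subset _ _
  by_contra hcon
  push Not at hcon
  have hG1 : (G.card : ℝ) < L.card / 2 := by
    refine lt_of_lt_of_le hcon (le_trans ?_ hLc2)
    calc min (c₀ / 100) (κ * d) * K ^ 2 / h ^ 2 ≤ κ * d * K ^ 2 / h ^ 2 := by
          gcongr
          exact min_le_right _ _
      _ ≤ κ * (P.card * h ^ 2) * K ^ 2 / h ^ 2 := by gcongr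
      _ = κ * P.card * K ^ 2 := by field_simp
  set B := L \ G with hB'
  have hBL : B ⊆ L := sdiff_subset
  have hBc : (B.card : ℝ) = L.card - G.card := by
    rw [hB', card_sdiff_of_subset hGL, Nat.cast_sub (card_le_card hGL)]
  have hBbig : κ * P.card * K ^ 2 ≤ (B.card : ℝ) := by
    rw [hBc]
    linarith
  have hsub := core_sub hCs hcor hd hκ0 hapos ha2 hm8 hm8' hss hηpos.le hη2
    (by linarith : 2 * (1024 * a) ^ 2 ≤ C) hε hε1 hh hh8 hh4m hP hs hU hN hK hKm hK1 hKℓ hℓ1 hKh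
    (L := B) (fun e he => hL e (hBL he)) (fun e he => hLL e (hBL he))
    (fun e he => hvoid' e (hBL he)) hBbig
  have hQ : (QL (ε * h / K) B lin : ℝ) ≤ B.card * τ := by
    have h1 : QL (ε * h / K) B lin ≤ ∑ e ∈ B, (m' e).card := by
      have h2 : QL (ε * h / K) B lin = ∑ e ∈ B, (B.filter (fun f =>
            |(lin e).1 - (lin f).1| ≤ 2 * (ε * h / K) ∧
            |(lin e).2 - (lin f).2| ≤ 2 * (ε * h / K))).card := by
        unfold QL
        rw [card_filter, sum_product]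
        apply sum_congr rfl
        intro e _
        rw [card_filter]
      rw [h2]
      apply sum_le_sum
      intro e _
      apply card_le_card
      intro f hf
      rw [mem_filter] at hf
      simp only [hm', mem_filter]
      exact ⟨hBL hf.1, hf.2⟩
    have h3 : ∀ e ∈ B, ((m' e).card : ℝ) ≤ τ := by
      intro e he
      rw [hB', mem_sdiff] at he
      by_contra h4
      push Not at h4
      exact he.2 (mem_filter.2 ⟨he.1, h4.le⟩)
    calc (QL (ε * h / K) B lin : ℝ) ≤ ((∑ e ∈ B, (m' e).card : ℕ) : ℝ) := by exact_mod_cast h1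
      _ = ∑ e ∈ B, ((m' e).card : ℝ) := by push_cast; rfl
      _ ≤ ∑ e ∈ B, τ := sum_le_sum h3
      _ = B.card * τ := by rw [sum_const, nsmul_eq_mul]
  have hLup := near_card5 hP hs hh (by linarith) hK1 hL
  have hBL2 : (B.card : ℝ) ≤ L.card := by exact_mod_cast card_le_card hBL
  have hτ0 : 0 ≤ τ := by positivity
  have hfin : (B.card : ℝ) * τ ≤ 90 / 100 * (c₀ * K / h ^ 3) := by
    calc (B.card : ℝ) * τ ≤ (90 * K ^ 2 / h ^ 2) * ((c₀ / 100) / (K * h)) := by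
          rw [hτ]
          apply mul_le_mul (by linarith) _ (by positivity) (by positivity)
          apply div_le_div_of_nonneg_right (min_le_left _ _) (by positivity)
      _ = 90 / 100 * (c₀ * K / h ^ 3) := by field_simp
  have hpos : 0 < c₀ * K / h ^ 3 := by positivity
  linarith

end Hilo
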