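import Pool.Agent.Hilo.Rect46

/-! # The number of near pairs of separated points -/

set_option autoImplicit false

namespace Hilo

/-- A separated set in the unit square has at most `9 / h²` points. -/
theorem card_sq46 {h : ℝ} (hh : 0 < h) (hh1 : h ≤ 1) {P : Finset (ℝ × ℝ)} (hP : Sep h P)
    (hS : InSq P) : (P.card : ℝ) ≤ 9 / h ^ 2 := by
  classical
  have h1 := card_rect hh hP (α := 0) (a := 0) (b := 0) (l₁ := 1) (l₂ := 1) (by simp) (by norm_num)
    (by norm_num)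
  have e : P.filter (fun q => (0 : ℝ) ≤ q.1 ∧ q.1 ≤ 0 + 1 ∧ 0 ≤ q.2 - 0 * q.1 ∧
      q.2 - 0 * q.1 ≤ 0 + 1) = P := by
    rw [Finset.filter_eq_self]
    intro q hq
    obtain ⟨a1, a2, a3, a4⟩ := hS q hq
    refine ⟨a1, by linarith, by linarith, by linarith⟩
  rw [e] at h1
  have h2 : 2 * 1 / h + 1 ≤ 3 / h := by
    rw [div_add_one hh.ne', div_le_div_iff_of_pos_right hh]
    linarith
  have h3 : 0 ≤ 2 * 1 / h + 1 := by positivity
  calc (P.card : ℝ) ≤ (2 * 1 / h + 1) * (2 * 1 / h + 1) := h1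
    _ ≤ (3 / h) * (3 / h) := mul_le_mul h2 h2 h3 (h3.trans h2)
    _ = 9 / h ^ 2 := by field_simp; norm_num

theorem near_card {h K : ℝ} {P : Finset (ℝ × ℝ)} {L : Finset ((ℝ × ℝ) × (ℝ × ℝ))} (hP : InSq P)
    (hs : Sep h P) (hh : 0 < h) (hh1 : h ≤ 1) (hK : 1 ≤ K) (hL : Near (K * h) P L) :
    (L.card : ℝ) ≤ 90 * K ^ 2 / h ^ 2 := by
  classical
  have hmaps : ∀ e ∈ L, e.1 ∈ P := fun e he => (hL e he).1
  have hfib : ∀ p ∈ P, ((L.filter (fun e => e.1 = p)).card : ℝ) ≤ 10 * K ^ 2 := by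
    intro p hp
    have h1 : (L.filter (fun e => e.1 = p)).card ≤
        (P.filter (fun q => p.1 - K * h ≤ q.1 ∧ q.1 ≤ (p.1 - K * h) + 2 * (K * h) ∧
          p.2 - K * h / 4 ≤ q.2 - 0 * q.1 ∧
          q.2 - 0 * q.1 ≤ (p.2 - K * h / 4) + K * h / 2)).card := by
      refine Finset.card_le_card_of_injOn (fun e => e.2) ?_ ?_
      · intro e he
        rw [Finset.mem_coe, Finset.mem_filter] at he
        obtain ⟨a1, a2, a3, a4, a5⟩ := hL e he.1
        rw [Finset.mem_coe, Finset.mem_filter]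
        have e1 : e.1 = p := he.2
        rw [e1] at a4 a5
        obtain ⟨b1, b2⟩ := abs_le.mp a4
        have a6 : |e.2.2 - p.2| ≤ K * h / 4 := by linarith
        obtain ⟨b3, b4⟩ := abs_le.mp a6
        exact ⟨a2, by linarith, by linarith, by linarith, by linarith⟩
      · intro e he f hf hef
        rw [Finset.mem_coe, Finset.mem_filter] at he hf
        exact Prod.ext (he.2.trans hf.2.symm) hef
    have h2 := card_rect hh hs (α := 0) (a := p.1 - K * h) (b := p.2 - K * h / 4)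
      (l₁ := 2 * (K * h)) (l₂ := K * h / 2) (by simp) (by positivity) (by positivity)
    have h3 : ((L.filter (fun e => e.1 = p)).card : ℝ) ≤
        ((P.filter (fun q => p.1 - K * h ≤ q.1 ∧ q.1 ≤ (p.1 - K * h) + 2 * (K * h) ∧
          p.2 - K * h / 4 ≤ q.2 - 0 * q.1 ∧
          q.2 - 0 * q.1 ≤ (p.2 - K * h / 4) + K * h / 2)).card : ℝ) := by
      exact_mod_cast h1
    have e1 : 2 * (2 * (K * h)) / h + 1 = 4 * K + 1 := by field_simp; ring
    have e2 : 2 * (K * h / 2) / h + 1 = K + 1 := by field_simp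
    rw [e1, e2] at h2
    have h4 : (4 * K + 1) * (K + 1) ≤ 10 * K ^ 2 := by nlinarith
    linarith
  have hsum : (L.card : ℝ) = ∑ p ∈ P, ((L.filter (fun e => e.1 = p)).card : ℝ) := by
    have := Finset.card_eq_sum_card_fiberwise (f := fun e : (ℝ × ℝ) × (ℝ × ℝ) => e.1)
      (s := L) (t := P) (fun e he => hmaps e (Finset.mem_coe.mp he))
    exact_mod_cast this
  have h9 := card_sq46 hh hh1 hs hP
  calc (L.card : ℝ) = ∑ p ∈ P, ((L.filter (fun e => e.1 = p)).card : ℝ) := hsum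
    _ ≤ ∑ _p ∈ P, 10 * K ^ 2 := Finset.sum_le_sum hfib
    _ = P.card * (10 * K ^ 2) := by rw [Finset.sum_const, nsmul_eq_mul]
    _ ≤ (9 / h ^ 2) * (10 * K ^ 2) := mul_le_mul_of_nonneg_right h9 (by positivity)
    _ = 90 * K ^ 2 / h ^ 2 := by ring

end Hilo
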