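import Mathlib
import Pool.Agent.Hilo.Defs5

/-!
# Row R5: one change of scale, by Cauchy-Schwarz in the space of lines
-/

set_option autoImplicit false

namespace Hilo

open Finset MeasureTheory

/-- the profile of the point `p`, as a function of the line -/
noncomputable def FF77 (M : ℕ) (w : ℝ) (p z : ℝ × ℝ) : ℝ := prof M w p.1 (V p z)

/-- the box of half side `w` around the line `z` -/
def Bx77 (w : ℝ) (z : ℝ × ℝ) : Set (ℝ × ℝ) :=
  Set.Icc (z.1 - w) (z.1 + w) ×ˢ Set.Icc (z.2 - w) (z.2 + w)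

theorem meas_phi77 (w : ℝ) : Measurable (phi w) := by
  unfold phi
  exact Measurable.ite (measurableSet_le (by fun_prop) measurable_const) measurable_const
    measurable_const

theorem meas_V77 (p : ℝ × ℝ) : Measurable (fun z : ℝ × ℝ => V p z) := by
  unfold V
  fun_prop

theorem meas_FF77 (M : ℕ) (w : ℝ) (p : ℝ × ℝ) : Measurable (FF77 M w p) := by
  unfold FF77 prof
  refine Measurable.sub (Measurable.div_const (Finset.measurable_fun_sum _ fun i _ =>
    Finset.measurable_fun_sum _ fun j _ => (meas_phi77 _).comp ?_) _)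
    ((meas_phi77 _).comp (meas_V77 p))
  exact ((meas_V77 p).sub_const _).sub_const _

theorem phi_abs77 {w : ℝ} (hw : 0 < w) (v : ℝ) : |phi w v| ≤ 1 / (2 * w) := by
  unfold phi
  split_ifs
  · rw [abs_of_nonneg (by positivity)]
  · rw [abs_zero]
    positivity

theorem bdd_FF77 {M : ℕ} (hM : 0 < M) {w : ℝ} (hw : 0 < w) :
    ∃ B : ℝ, ∀ p z, ‖FF77 M w p z‖ ≤ B := by
  have hM' : (0 : ℝ) < M := by exact_mod_cast hM
  refine ⟨(∑ _i ∈ range M, ∑ _j ∈ range M, 1 / (2 * (M * w))) / M ^ 2 + 1 / (2 * w),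
    fun p z => ?_⟩
  rw [Real.norm_eq_abs, FF77, prof]
  refine (abs_sub _ _).trans (add_le_add ?_ (phi_abs77 hw _))
  rw [abs_div, abs_of_pos (by positivity : (0 : ℝ) < (M : ℝ) ^ 2)]
  gcongr
  refine (abs_sum_le_sum_abs _ _).trans (Finset.sum_le_sum fun i _ => ?_)
  exact (abs_sum_le_sum_abs _ _).trans
    (Finset.sum_le_sum fun j _ => phi_abs77 (by positivity) _)

theorem prof_zero77 {M : ℕ} (hM : 0 < M) {w : ℝ} (hw : 0 < w) {x v : ℝ} (hx : |x| ≤ 1)
    (hv : 3 * (M * w) < |v|) : prof M w x v = 0 := by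
  have hM' : (1 : ℝ) ≤ M := by exact_mod_cast hM
  have hMw : w ≤ M * w := by nlinarith
  have h1 : phi w v = 0 := by
    unfold phi
    rw [if_neg]
    rw [not_le]
    linarith
  have hi : ∀ i ∈ range M, |(2 * (i : ℝ) + 1 - M) * w| ≤ M * w := by
    intro i hi
    have h2 : (i : ℝ) + 1 ≤ M := by exact_mod_cast Finset.mem_range.1 hi
    have h3 : (0 : ℝ) ≤ i := Nat.cast_nonneg i
    rw [abs_mul, abs_of_pos hw]
    apply mul_le_mul_of_nonneg_right _ hw.le
    rw [abs_le]
    constructor <;> linarith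
  have h2 : ∀ i ∈ range M, ∀ j ∈ range M,
      phi (M * w) (v - (2 * i + 1 - M) * w * x - (2 * j + 1 - M) * w) = 0 := by
    intro i hi1 j hj1
    unfold phi
    rw [if_neg]
    rw [not_le]
    have e1 : |(2 * (i : ℝ) + 1 - M) * w * x| ≤ M * w := by
      rw [abs_mul]
      calc |(2 * (i : ℝ) + 1 - M) * w| * |x| ≤ (M * w) * 1 := by
            gcongr
            exact hi i hi1
        _ = M * w := mul_one _
    have e2 := hi j hj1
    have e3 : |v| ≤ |v - (2 * i + 1 - M) * w * x - (2 * j + 1 - M) * w| +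
        |(2 * (i : ℝ) + 1 - M) * w * x| + |(2 * (j : ℝ) + 1 - M) * w| := by
      have e4 : v = (v - (2 * i + 1 - M) * w * x - (2 * j + 1 - M) * w) +
          (2 * (i : ℝ) + 1 - M) * w * x + (2 * (j : ℝ) + 1 - M) * w := by ring
      calc |v| = |(v - (2 * i + 1 - M) * w * x - (2 * j + 1 - M) * w) +
          (2 * (i : ℝ) + 1 - M) * w * x + (2 * (j : ℝ) + 1 - M) * w| := by rw [← e4]
        _ ≤ _ := abs_add_three _ _ _
    linarith
  unfold prof
  rw [h1, Finset.sum_eq_zero fun i hi1 => Finset.sum_eq_zero fun j hj1 => h2 i hi1 j hj1]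
  simp

theorem int_box77 {M : ℕ} (hM : 0 < M) {w : ℝ} (hw : 0 < w) (p : ℝ × ℝ) (a b c d : ℝ) :
    IntegrableOn (FF77 M w p) (Set.Icc a b ×ˢ Set.Icc c d) volume := by
  obtain ⟨B, hB⟩ := bdd_FF77 hM hw
  refine Measure.integrableOn_of_bounded (M := B) ?_ (meas_FF77 M w p).aestronglyMeasurable
    (Filter.Eventually.of_forall fun z => hB p z)
  exact ((isCompact_Icc.prod isCompact_Icc).measure_lt_top).ne

theorem int_mul77 {M : ℕ} (hM : 0 < M) {w : ℝ} (hw : 0 < w) {p : ℝ × ℝ} (q : ℝ × ℝ)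
    (hp : |p.1| ≤ 1) :
    IntegrableOn (fun z => FF77 M w p z * FF77 M w q z) Om volume := by
  obtain ⟨B, hB⟩ := bdd_FF77 hM hw
  have hmeas : Measurable (fun z => FF77 M w p z * FF77 M w q z) :=
    (meas_FF77 M w p).mul (meas_FF77 M w q)
  have hOm : MeasurableSet Om := by
    unfold Om
    exact measurableSet_le (by fun_prop) measurable_const
  have h1 : IntegrableOn (fun z => FF77 M w p z * FF77 M w q z)
      (Set.Icc (-(1 / 2)) (1 / 2) ×ˢ
        Set.Icc (-(|p.2| + 1 / 2 + 3 * (M * w))) (|p.2| + 1 / 2 + 3 * (M * w))) volume := by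
    refine Measure.integrableOn_of_bounded (M := B * B) ?_ hmeas.aestronglyMeasurable
      (Filter.Eventually.of_forall fun z => ?_)
    · exact ((isCompact_Icc.prod isCompact_Icc).measure_lt_top).ne
    · rw [norm_mul]
      have := norm_nonneg (FF77 M w p z)
      have := norm_nonneg (FF77 M w q z)
      have h2 := hB p z
      have h3 := hB q z
      gcongr
      linarith
  refine h1.of_forall_sdiff_eq_zero hOm fun z hz => ?_
  have hz1 : |z.1| ≤ 1 / 2 := hz.1
  have hz2 := hz.2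
  have h4 : 3 * (M * w) < |V p z| := by
    have h5 : |p.2| + 1 / 2 + 3 * (M * w) < |z.2| := by
      by_contra hcon
      rw [not_lt] at hcon
      exact hz2 ⟨abs_le.1 hz1, abs_le.1 hcon⟩
    have h6 : |z.1 * p.1| ≤ 1 / 2 := by
      rw [abs_mul]
      calc |z.1| * |p.1| ≤ 1 / 2 * 1 := by gcongr
        _ = 1 / 2 := mul_one _
    have h7 : |z.2| ≤ |V p z| + |p.2| + |z.1 * p.1| := by
      have e : z.2 = -(V p z) + p.2 + -(z.1 * p.1) := by
        unfold V
        ring
      calc |z.2| = |-(V p z) + p.2 + -(z.1 * p.1)| := by rw [← e]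
        _ ≤ |-(V p z)| + |p.2| + |-(z.1 * p.1)| := abs_add_three _ _ _
        _ = _ := by rw [abs_neg, abs_neg]
    linarith
  simp only [FF77]
  rw [prof_zero77 hM hw hp h4, zero_mul]

/-- the double interval integral is the integral over the box -/
theorem box_int77 {M : ℕ} (hM : 0 < M) {w : ℝ} (hw : 0 < w) (p z : ℝ × ℝ) :
    ∫ a in (-w)..w, ∫ b in (-w)..w, prof M w p.1 (V p (z.1 + a, z.2 + b)) =
      ∫ y in Bx77 w z, FF77 M w p y := by
  have h1 : ∀ a : ℝ, ∫ b in (-w)..w, prof M w p.1 (V p (z.1 + a, z.2 + b)) =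
      ∫ t in Set.Icc (z.2 - w) (z.2 + w), FF77 M w p (z.1 + a, t) := by
    intro a
    have h2 : ∫ b in (-w)..w, FF77 M w p (z.1 + a, z.2 + b) =
        ∫ t in (z.2 + -w)..(z.2 + w), FF77 M w p (z.1 + a, t) :=
      intervalIntegral.integral_comp_add_left (fun t => FF77 M w p (z.1 + a, t)) z.2
    calc _ = ∫ b in (-w)..w, FF77 M w p (z.1 + a, z.2 + b) := rfl
      _ = _ := h2
      _ = _ := by
        rw [intervalIntegral.integral_of_le (by linarith), integral_Icc_eq_integral_Ioc,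
          ← sub_eq_add_neg]
  have h3 : ∫ a in (-w)..w, ∫ t in Set.Icc (z.2 - w) (z.2 + w), FF77 M w p (z.1 + a, t) =
      ∫ s in (z.1 + -w)..(z.1 + w), ∫ t in Set.Icc (z.2 - w) (z.2 + w), FF77 M w p (s, t) :=
    intervalIntegral.integral_comp_add_left
      (fun s => ∫ t in Set.Icc (z.2 - w) (z.2 + w), FF77 M w p (s, t)) z.1
  simp_rw [h1]
  rw [h3, intervalIntegral.integral_of_le (by linarith), ← integral_Icc_eq_integral_Ioc,
    ← sub_eq_add_neg, Bx77, Measure.volume_eq_prod, setIntegral_prod]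
  exact int_box77 hM hw p _ _ _ _

theorem box_sub77 {w : ℝ} (hw4 : w ≤ 1 / 4) {z : ℝ × ℝ} (hz : |z.1| ≤ 1 / 4) :
    Bx77 w z ⊆ Om := by
  intro y hy
  have h1 := hy.1
  rw [Set.mem_Icc] at h1
  have h2 := abs_le.1 hz
  change |y.1| ≤ 1 / 2
  rw [abs_le]
  constructor <;> linarith

theorem meas_box77 (w : ℝ) (z : ℝ × ℝ) : MeasurableSet (Bx77 w z) :=
  measurableSet_Icc.prod measurableSet_Icc

theorem vol_box77 {w : ℝ} (hw : 0 < w) (z : ℝ × ℝ) : volume.real (Bx77 w z) = 4 * w ^ 2 := by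
  rw [Bx77, Measure.volume_eq_prod, measureReal_prod_prod, Real.volume_real_Icc_of_le (by linarith),
    Real.volume_real_Icc_of_le (by linarith)]
  ring

/-- Cauchy-Schwarz from the discriminant -/
theorem cs77 {A B C : ℝ} (h : ∀ t : ℝ, 0 ≤ B * (t * t) + 2 * C * t + A) :
    |C| ≤ √(A * B) := by
  have h1 := discrim_le_zero h
  unfold discrim at h1
  apply Real.abs_le_sqrt
  nlinarith

/-- the integral of a product of two sums -/
theorem int_sum77 {α β : Type*} (A : Finset α) (B : Finset β) (u : α → ℝ × ℝ → ℝ)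
    (v : β → ℝ × ℝ → ℝ) (S : Set (ℝ × ℝ))
    (h : ∀ a ∈ A, ∀ b ∈ B, IntegrableOn (fun z => u a z * v b z) S volume) :
    IntegrableOn (fun z => (∑ a ∈ A, u a z) * ∑ b ∈ B, v b z) S volume ∧
    ∫ z in S, (∑ a ∈ A, u a z) * ∑ b ∈ B, v b z =
      ∑ a ∈ A, ∑ b ∈ B, ∫ z in S, u a z * v b z := by
  have e : (fun z => (∑ a ∈ A, u a z) * ∑ b ∈ B, v b z) =
      fun z => ∑ a ∈ A, ∑ b ∈ B, u a z * v b z := by
    funext z
    rw [Finset.sum_mul_sum]
  rw [e]
  refine ⟨integrable_finsetSum _ fun a ha => integrable_finsetSum _ fun b hb => h a ha b hb, ?_⟩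
  rw [integral_finsetSum _ fun a ha => integrable_finsetSum _ fun b hb => h a ha b hb]
  exact Finset.sum_congr rfl fun a ha => integral_finsetSum _ fun b hb => h a ha b hb

/-- the indicator function of the box -/
noncomputable def ib77 (w : ℝ) (z y : ℝ × ℝ) : ℝ := (Bx77 w z).indicator (fun _ => (1 : ℝ)) y

theorem mul_ib77 (f : ℝ × ℝ → ℝ) (w : ℝ) (z : ℝ × ℝ) :
    (fun y => f y * ib77 w z y) = (Bx77 w z).indicator f := by
  funext y
  unfold ib77
  by_cases hy : y ∈ Bx77 w z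
  · rw [Set.indicator_of_mem hy, Set.indicator_of_mem hy, mul_one]
  · rw [Set.indicator_of_notMem hy, Set.indicator_of_notMem hy, mul_zero]

theorem int_ib77 {f : ℝ × ℝ → ℝ} {w : ℝ} {z : ℝ × ℝ} (hf : IntegrableOn f (Bx77 w z) volume)
    (hz : Bx77 w z ⊆ Om) :
    IntegrableOn (fun y => f y * ib77 w z y) Om volume ∧
    ∫ y in Om, f y * ib77 w z y = ∫ y in Bx77 w z, f y := by
  constructor
  · rw [mul_ib77]
    exact ((integrable_indicator_iff (meas_box77 w z)).2 hf).integrableOn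
  · rw [mul_ib77, setIntegral_indicator (meas_box77 w z), Set.inter_eq_self_of_subset_right hz]

theorem int_ibib77 {w : ℝ} (hw : 0 < w) {z z' : ℝ × ℝ} (hz' : Bx77 w z' ⊆ Om) :
    IntegrableOn (fun y => ib77 w z y * ib77 w z' y) Om volume ∧
    ∫ y in Om, ib77 w z y * ib77 w z' y ≤
      if |z.1 - z'.1| ≤ 2 * w ∧ |z.2 - z'.2| ≤ 2 * w then 4 * w ^ 2 else 0 := by
  have hfin : volume (Bx77 w z') ≠ ⊤ := ((isCompact_Icc.prod isCompact_Icc).measure_lt_top).ne
  have hi : IntegrableOn (ib77 w z) (Bx77 w z') volume := by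
    refine Measure.integrableOn_of_bounded (M := 1) hfin ?_
      (Filter.Eventually.of_forall fun y => ?_)
    · exact (measurable_const.indicator (meas_box77 w z)).aestronglyMeasurable
    · unfold ib77
      by_cases hy : y ∈ Bx77 w z
      · rw [Set.indicator_of_mem hy]
        simp
      · rw [Set.indicator_of_notMem hy]
        simp
  obtain ⟨h1, h2⟩ := int_ib77 hi hz'
  refine ⟨h1, ?_⟩
  rw [h2]
  split_ifs with hc
  · have h3 : ∫ y in Bx77 w z', ib77 w z y ≤ ∫ _y in Bx77 w z', (1 : ℝ) := by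
      refine setIntegral_mono hi (integrableOn_const hfin) fun y => ?_
      unfold ib77
      by_cases hy : y ∈ Bx77 w z
      · rw [Set.indicator_of_mem hy]
      · rw [Set.indicator_of_notMem hy]
        exact zero_le_one
    rw [setIntegral_const, vol_box77 hw, smul_eq_mul, mul_one] at h3
    exact h3
  · refine le_of_eq (setIntegral_eq_zero_of_forall_eq_zero fun y hy => ?_)
    unfold ib77
    rw [Set.indicator_of_notMem]
    intro hy2
    apply hc
    have a1 := Set.mem_Icc.1 hy.1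
    have a2 := Set.mem_Icc.1 hy.2
    have b1 := Set.mem_Icc.1 hy2.1
    have b2 := Set.mem_Icc.1 hy2.2
    rw [abs_le, abs_le]
    refine ⟨⟨?_, ?_⟩, ?_, ?_⟩ <;> linarith

/-- `scale_step`, with `Ker_step` as a hypothesis -/
theorem scale_step_of {ι : Type*} {M : ℕ} (hM : 0 < M) {w : ℝ} (hw : 0 < w) (hw4 : w ≤ 1 / 4)
    (P : Finset (ℝ × ℝ)) (hP : ∀ p ∈ P, |p.1| ≤ 1) (L : Finset ι) (g : ι → ℝ × ℝ)
    (hg : ∀ e ∈ L, |(g e).1| ≤ 1 / 4)
    (hK : ∀ p z : ℝ × ℝ, Ker (M * w) p z - Ker w p z =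
      1 / (4 * w ^ 2) * ∫ a in (-w)..w, ∫ b in (-w)..w,
        prof M w p.1 (V p (z.1 + a, z.2 + b))) :
    |∑ e ∈ L, ∑ p ∈ P, (Ker (M * w) p (g e) - Ker w p (g e))| ≤
      1 / (2 * w) * √((∑ p ∈ P, ∑ q ∈ P, |Cor M w p q|) * QL w L g) := by
  classical
  have hsub : ∀ e ∈ L, Bx77 w (g e) ⊆ Om := fun e he => box_sub77 hw4 (hg e he)
  have hbox : ∀ p z, IntegrableOn (FF77 M w p) (Bx77 w z) volume := fun p z =>
    int_box77 hM hw p _ _ _ _
  -- the three double sums
  obtain ⟨iA, eA⟩ := int_sum77 P P (FF77 M w) (FF77 M w) Om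
    (fun p hp q _ => int_mul77 hM hw q (hP p hp))
  obtain ⟨iC, eC⟩ := int_sum77 P L (FF77 M w) (fun e => ib77 w (g e)) Om
    (fun p _ e he => (int_ib77 (hbox p (g e)) (hsub e he)).1)
  obtain ⟨iB, eB⟩ := int_sum77 L L (fun e => ib77 w (g e)) (fun e => ib77 w (g e)) Om
    (fun e _ e' he' => (int_ibib77 hw (hsub e' he')).1)
  set D : ℝ × ℝ → ℝ := fun z => ∑ p ∈ P, FF77 M w p z with hD
  set m : ℝ × ℝ → ℝ := fun z => ∑ e ∈ L, ib77 w (g e) z with hm
  -- the sum is the mixed integral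
  have hsum : ∑ e ∈ L, ∑ p ∈ P, (Ker (M * w) p (g e) - Ker w p (g e)) =
      1 / (4 * w ^ 2) * ∫ z in Om, D z * m z := by
    have e1 : ∫ z in Om, D z * m z = ∑ p ∈ P, ∑ e ∈ L, ∫ z in Bx77 w (g e), FF77 M w p z := by
      rw [eC]
      exact Finset.sum_congr rfl fun p _ => Finset.sum_congr rfl fun e he =>
        (int_ib77 (hbox p (g e)) (hsub e he)).2
    rw [e1, Finset.sum_comm, Finset.mul_sum]
    refine Finset.sum_congr rfl fun p _ => ?_
    rw [Finset.mul_sum]
    refine Finset.sum_congr rfl fun e _ => ?_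
    rw [hK, box_int77 hM hw]
  -- the square of `D`
  have hDD : ∫ z in Om, D z * D z ≤ ∑ p ∈ P, ∑ q ∈ P, |Cor M w p q| := by
    rw [eA]
    exact Finset.sum_le_sum fun p _ => Finset.sum_le_sum fun q _ => le_abs_self _
  -- the square of `m`
  have hmm : ∫ z in Om, m z * m z ≤ 4 * w ^ 2 * QL w L g := by
    rw [eB]
    have h1 : ∑ e ∈ L, ∑ e' ∈ L, ∫ z in Om, ib77 w (g e) z * ib77 w (g e') z ≤
        ∑ e ∈ L, ∑ e' ∈ L, (if |(g e).1 - (g e').1| ≤ 2 * w ∧ |(g e).2 - (g e').2| ≤ 2 * w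
          then 4 * w ^ 2 else 0) :=
      Finset.sum_le_sum fun e _ => Finset.sum_le_sum fun e' he' =>
        (int_ibib77 hw (hsub e' he')).2
    refine h1.trans (le_of_eq ?_)
    rw [← Finset.sum_product', ← Finset.sum_filter, Finset.sum_const, nsmul_eq_mul, mul_comm]
    congr 2
  -- Cauchy-Schwarz
  have hcs : |∫ z in Om, D z * m z| ≤ √((∫ z in Om, D z * D z) * ∫ z in Om, m z * m z) := by
    apply cs77
    intro t
    have h1 : 0 ≤ ∫ z in Om, (D z + t * m z) * (D z + t * m z) :=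
      integral_nonneg fun z => mul_self_nonneg _
    have h2 : ∫ z in Om, (D z + t * m z) * (D z + t * m z) =
        (∫ z in Om, m z * m z) * (t * t) + 2 * (∫ z in Om, D z * m z) * t +
          ∫ z in Om, D z * D z := by
      have e1 : ∀ z, (D z + t * m z) * (D z + t * m z) =
          (t * t) * (m z * m z) + (2 * t) * (D z * m z) + D z * D z := fun z => by ring
      simp_rw [e1]
      rw [integral_add, integral_add, integral_const_mul, integral_const_mul]
      · ring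
      · exact iB.const_mul _
      · exact iC.const_mul _
      · exact (iB.const_mul _).add (iC.const_mul _)
      · exact iA
    rw [h2] at h1
    exact h1
  have hS : 0 ≤ ∑ p ∈ P, ∑ q ∈ P, |Cor M w p q| :=
    Finset.sum_nonneg fun p _ => Finset.sum_nonneg fun q _ => abs_nonneg _
  rw [hsum, abs_mul, abs_of_pos (by positivity : (0 : ℝ) < 1 / (4 * w ^ 2))]
  calc 1 / (4 * w ^ 2) * |∫ z in Om, D z * m z| ≤
      1 / (4 * w ^ 2) * √((∑ p ∈ P, ∑ q ∈ P, |Cor M w p q|) * (4 * w ^ 2 * QL w L g)) := by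
        gcongr
        refine hcs.trans (Real.sqrt_le_sqrt ?_)
        exact mul_le_mul hDD hmm (integral_nonneg fun z => mul_self_nonneg _) hS
    _ = 1 / (4 * w ^ 2) * (2 * w * √((∑ p ∈ P, ∑ q ∈ P, |Cor M w p q|) * QL w L g)) := by
        congr 1
        have e : (∑ p ∈ P, ∑ q ∈ P, |Cor M w p q|) * (4 * w ^ 2 * QL w L g) =
            (2 * w) ^ 2 * ((∑ p ∈ P, ∑ q ∈ P, |Cor M w p q|) * QL w L g) := by ring
        rw [e, Real.sqrt_mul (by positivity), Real.sqrt_sq (by positivity)]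
    _ = _ := by
        field_simp
        ring

end Hilo
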