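import Mathlib
import Pool.Agent.Hilo.Defs5

/-!
# Row R2: the step of the kernel
-/

set_option autoImplicit false

namespace Hilo

open Finset MeasureTheory

theorem ii_bdd77 {f : ℝ → ℝ} (hf : Measurable f) {B : ℝ} (hB : ∀ x, ‖f x‖ ≤ B) (a b : ℝ) :
    IntervalIntegrable f volume a b := by
  rw [intervalIntegrable_iff]
  exact Measure.integrableOn_of_bounded (M := B) measure_Ioc_lt_top.ne hf.aestronglyMeasurable
    (Filter.Eventually.of_forall hB)

theorem ii_in77 {F : ℝ → ℝ → ℝ} (hF : Measurable (Function.uncurry F)) {B : ℝ}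
    (hB : ∀ x y, ‖F x y‖ ≤ B) (s c d : ℝ) : IntervalIntegrable (fun t => F s t) volume c d :=
  ii_bdd77 (hF.comp (measurable_const.prodMk measurable_id)) (hB s) c d

theorem ii_out77 {F : ℝ → ℝ → ℝ} (hF : Measurable (Function.uncurry F)) {B : ℝ}
    (hB : ∀ x y, ‖F x y‖ ≤ B) (c d a b : ℝ) :
    IntervalIntegrable (fun s => ∫ t in c..d, F s t) volume a b := by
  refine ii_bdd77 (B := B * |d - c|) ?_ (fun s => ?_) a b
  · unfold intervalIntegral
    refine Measurable.sub ?_ ?_
    · exact (hF.stronglyMeasurable.integral_prod_right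
        (ν := volume.restrict (Set.Ioc c d))).measurable
    · exact (hF.stronglyMeasurable.integral_prod_right
        (ν := volume.restrict (Set.Ioc d c))).measurable
  · exact intervalIntegral.norm_integral_le_of_norm_le_const fun t _ => hB s t

theorem ii_sum77 {β : Type*} (s : Finset β) (f : β → ℝ → ℝ) (a b : ℝ)
    (h : ∀ j ∈ s, IntervalIntegrable (f j) volume a b) :
    IntervalIntegrable (fun x => ∑ j ∈ s, f j x) volume a b := by
  have h1 := IntervalIntegrable.sum s h
  have e : (fun x => ∑ j ∈ s, f j x) = ∑ j ∈ s, f j := by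
    funext x
    rw [Finset.sum_apply]
  rwa [e]

/-- an integral over a long interval in pieces -/
theorem cut77 {f : ℝ → ℝ} (hf : ∀ a b, IntervalIntegrable f volume a b) (M : ℕ) (w : ℝ) :
    ∫ x in (-(M * w))..(M * w), f x =
      ∑ i ∈ range M, ∫ a in (-w)..w, f (a + (2 * i + 1 - M) * w) := by
  have h1 := intervalIntegral.sum_integral_adjacent_intervals (f := f) (μ := volume)
    (a := fun k : ℕ => -(M * w) + 2 * w * k) (n := M) (fun k _ => hf _ _)
  have e1 : (-(M * w) + 2 * w * ((0 : ℕ) : ℝ)) = -(M * w) := by simp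
  have e2 : (-(M * w) + 2 * w * (M : ℝ)) = M * w := by ring
  rw [e1, e2] at h1
  rw [← h1]
  refine Finset.sum_congr rfl fun i _ => ?_
  rw [intervalIntegral.integral_comp_add_right]
  congr 1
  · ring
  · push_cast
    ring

theorem Ker_step77 {M : ℕ} (hM : 0 < M) {w : ℝ} (hw : 0 < w) (p z : ℝ × ℝ) :
    Ker (M * w) p z - Ker w p z =
      1 / (4 * w ^ 2) * ∫ a in (-w)..w, ∫ b in (-w)..w, prof M w p.1 (V p (z.1 + a, z.2 + b)) := by
  have hM' : (0 : ℝ) < M := by exact_mod_cast hM
  have hphi : ∀ W : ℝ, Measurable (phi W) := by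
    intro W
    unfold phi
    exact Measurable.ite (measurableSet_le (by fun_prop) measurable_const) measurable_const
      measurable_const
  have hB : ∀ (W v : ℝ), ‖phi W v‖ ≤ |1 / (2 * W)| := by
    intro W v
    unfold phi
    split_ifs
    · rw [Real.norm_eq_abs]
    · rw [norm_zero]
      exact abs_nonneg _
  -- `G W u t a b`: the shifted integrand
  set G : ℝ → ℝ → ℝ → ℝ → ℝ → ℝ := fun W s t a b =>
    phi W (V p (z.1 + (a + s), z.2 + (b + t))) with hG
  have hGm : ∀ W s t, Measurable (Function.uncurry (G W s t)) := by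
    intro W s t
    rw [hG]
    refine (hphi W).comp ?_
    unfold V
    fun_prop
  have hGB : ∀ W s t a b, ‖G W s t a b‖ ≤ |1 / (2 * W)| := fun W s t a b => hB W _
  have h1 : ∫ a in (-(M * w))..(M * w), ∫ b in (-(M * w))..(M * w),
      phi (M * w) (V p (z.1 + a, z.2 + b)) =
      ∑ i ∈ range M, ∑ j ∈ range M, ∫ a in (-w)..w, ∫ b in (-w)..w,
        G (M * w) ((2 * i + 1 - M) * w) ((2 * j + 1 - M) * w) a b := by
    have hii := ii_out77 (hGm (M * w) 0 0) (hGB (M * w) 0 0) (-(M * w)) (M * w)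
    simp only [hG, add_zero] at hii
    rw [cut77 hii]
    refine Finset.sum_congr rfl fun i _ => ?_
    have h2 : ∀ a : ℝ, ∫ b in (-(M * w))..(M * w),
        phi (M * w) (V p (z.1 + (a + (2 * i + 1 - M) * w), z.2 + b)) =
        ∑ j ∈ range M, ∫ b in (-w)..w,
          G (M * w) ((2 * i + 1 - M) * w) ((2 * j + 1 - M) * w) a b := by
      intro a
      have hii2 := ii_in77 (hGm (M * w) ((2 * i + 1 - M) * w) 0)
        (hGB (M * w) ((2 * i + 1 - M) * w) 0) a
      simp only [hG, add_zero] at hii2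
      rw [cut77 hii2]
    simp_rw [h2]
    exact intervalIntegral.integral_finsetSum fun j _ => ii_out77 (hGm _ _ _) (hGB _ _ _) _ _ _ _
  have h3 : ∑ i ∈ range M, ∑ j ∈ range M, ∫ a in (-w)..w, ∫ b in (-w)..w,
        G (M * w) ((2 * i + 1 - M) * w) ((2 * j + 1 - M) * w) a b =
      ∫ a in (-w)..w, ∫ b in (-w)..w, ∑ i ∈ range M, ∑ j ∈ range M,
        G (M * w) ((2 * i + 1 - M) * w) ((2 * j + 1 - M) * w) a b := by
    have e1 : ∀ a : ℝ, ∫ b in (-w)..w, ∑ i ∈ range M, ∑ j ∈ range M,
        G (M * w) ((2 * i + 1 - M) * w) ((2 * j + 1 - M) * w) a b =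
        ∑ i ∈ range M, ∑ j ∈ range M, ∫ b in (-w)..w,
          G (M * w) ((2 * i + 1 - M) * w) ((2 * j + 1 - M) * w) a b := by
      intro a
      rw [intervalIntegral.integral_finsetSum]
      · refine Finset.sum_congr rfl fun i _ => ?_
        exact intervalIntegral.integral_finsetSum fun j _ => ii_in77 (hGm _ _ _) (hGB _ _ _) _ _ _
      · intro i _
        exact ii_sum77 _ _ _ _ fun j _ => ii_in77 (hGm _ _ _) (hGB _ _ _) _ _ _
    simp_rw [e1]
    rw [intervalIntegral.integral_finsetSum]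
    · refine Finset.sum_congr rfl fun i _ => ?_
      exact (intervalIntegral.integral_finsetSum fun j _ =>
        ii_out77 (hGm _ _ _) (hGB _ _ _) _ _ _ _).symm
    · intro i _
      exact ii_sum77 _ _ _ _ fun j _ => ii_out77 (hGm _ _ _) (hGB _ _ _) _ _ _ _
  -- the profile
  set A : ℝ → ℝ → ℝ := fun a b => ∑ i ∈ range M, ∑ j ∈ range M,
    G (M * w) ((2 * i + 1 - M) * w) ((2 * j + 1 - M) * w) a b with hA
  have hprof : ∀ a b : ℝ, prof M w p.1 (V p (z.1 + a, z.2 + b)) =
      (1 / M ^ 2) * A a b - G w 0 0 a b := by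
    intro a b
    simp only [prof, hA, hG, add_zero]
    rw [div_eq_inv_mul, one_div]
    congr 2
    refine Finset.sum_congr rfl fun i _ => Finset.sum_congr rfl fun j _ => ?_
    congr 1
    unfold V
    ring
  have hAm : Measurable (Function.uncurry A) := by
    have : Function.uncurry A = fun y => ∑ i ∈ range M, ∑ j ∈ range M,
        Function.uncurry (G (M * w) ((2 * i + 1 - M) * w) ((2 * j + 1 - M) * w)) y := by
      funext y
      rfl
    rw [this]
    exact Finset.measurable_fun_sum _ fun i _ => Finset.measurable_fun_sum _ fun j _ => hGm _ _ _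
  have hAB : ∀ a b, ‖A a b‖ ≤ ∑ _i ∈ range M, ∑ _j ∈ range M, |1 / (2 * (M * w))| := by
    intro a b
    refine (norm_sum_le _ _).trans (Finset.sum_le_sum fun i _ => ?_)
    exact (norm_sum_le _ _).trans (Finset.sum_le_sum fun j _ => hGB _ _ _ _ _)
  have h4 : ∫ a in (-w)..w, ∫ b in (-w)..w, prof M w p.1 (V p (z.1 + a, z.2 + b)) =
      1 / M ^ 2 * (∫ a in (-w)..w, ∫ b in (-w)..w, A a b) -
        ∫ a in (-w)..w, ∫ b in (-w)..w, G w 0 0 a b := by
    have e1 : ∀ a : ℝ, ∫ b in (-w)..w, prof M w p.1 (V p (z.1 + a, z.2 + b)) =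
        1 / M ^ 2 * (∫ b in (-w)..w, A a b) - ∫ b in (-w)..w, G w 0 0 a b := by
      intro a
      simp_rw [hprof]
      rw [intervalIntegral.integral_sub, intervalIntegral.integral_const_mul]
      · exact (ii_in77 hAm hAB _ _ _).const_mul _
      · exact ii_in77 (hGm _ _ _) (hGB _ _ _) _ _ _
    simp_rw [e1]
    rw [intervalIntegral.integral_sub, intervalIntegral.integral_const_mul]
    · exact (ii_out77 hAm hAB _ _ _ _).const_mul _
    · exact ii_out77 (hGm _ _ _) (hGB _ _ _) _ _ _ _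
  have h5 : ∫ a in (-(M * w))..(M * w), ∫ b in (-(M * w))..(M * w),
      phi (M * w) (V p (z.1 + a, z.2 + b)) = ∫ a in (-w)..w, ∫ b in (-w)..w, A a b := h1.trans h3
  have h6 : ∫ a in (-w)..w, ∫ b in (-w)..w, phi w (V p (z.1 + a, z.2 + b)) =
      ∫ a in (-w)..w, ∫ b in (-w)..w, G w 0 0 a b := by
    simp only [hG, add_zero]
  rw [h4, Ker, Ker, h5, h6, mul_sub, ← mul_assoc]
  congr 2
  field_simp

end Hilo
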