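import Mathlib
import Pool.Agent.Grain.Geo
import Pool.Agent.Hilo.Defs5

/-!
# Row R13: the trivial upper bounds for the distances and the angles of `n` points
-/

set_option autoImplicit false

namespace Hilo

open Finset

/-- a nonnegative index below `m` -/
private theorem idx_lt {m : ℕ} (hm : 0 < m) {x : ℝ} (h0 : -1 ≤ x) (h1 : x ≤ 1) :
    ⌊(x + 1) * m / 3⌋₊ < m := by
  have hm' : (0 : ℝ) < m := by exact_mod_cast hm
  rw [Nat.floor_lt (by
    have : 0 ≤ x + 1 := by linarith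
    positivity)]
  rw [div_lt_iff₀ (by norm_num)]
  nlinarith

/-- two numbers with the same index are at distance at most `3 / m` -/
private theorem idx_eq {m : ℕ} (hm : 0 < m) {x y : ℝ} (h0 : -1 ≤ x) (h0' : -1 ≤ y)
    (h : ⌊(x + 1) * m / 3⌋₊ = ⌊(y + 1) * m / 3⌋₊) : |x - y| ≤ 3 / m := by
  have hm' : (0 : ℝ) < m := by exact_mod_cast hm
  have hx : 0 ≤ (x + 1) * m / 3 := by
    have : 0 ≤ x + 1 := by linarith
    positivity
  have hy : 0 ≤ (y + 1) * m / 3 := by
    have : 0 ≤ y + 1 := by linarith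
    positivity
  have a1 := Nat.floor_le hx
  have a2 := Nat.lt_floor_add_one ((x + 1) * m / 3)
  have b1 := Nat.floor_le hy
  have b2 := Nat.lt_floor_add_one ((y + 1) * m / 3)
  rw [h] at a1 a2
  rw [abs_le, ← neg_div]
  constructor
  · rw [div_le_iff₀ hm']
    nlinarith
  · rw [le_div_iff₀ hm']
    nlinarith

/-- `n` points of the unit disc have two points at distance at most `C / √n` -/
theorem dist_bound : ∃ C : ℝ, 0 < C ∧ ∀ (n : ℕ) (X : Fin n → EuclideanSpace ℝ (Fin 2)) (D : ℝ),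
    2 ≤ n → (∀ i, ‖X i‖ ≤ 1) → (∀ i j : Fin n, i ≠ j → D ≤ dist (X i) (X j)) →
    D ≤ C / √n := by
  refine ⟨12, by norm_num, fun n X D hn hX hD => ?_⟩
  set m := Nat.sqrt (n - 1) with hmdef
  have hm : 0 < m := Nat.sqrt_pos.2 (by omega)
  have hmm : m * m < n := by
    have := Nat.sqrt_le (n - 1)
    rw [← hmdef] at this
    omega
  have hn2 : n ≤ (m + 1) * (m + 1) := by
    have := Nat.lt_succ_sqrt (n - 1)
    rw [← hmdef] at this
    simp only [Nat.succ_eq_add_one] at this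
    omega
  have hm' : (0 : ℝ) < m := by exact_mod_cast hm
  have hco : ∀ (i : Fin n) (a : Fin 2), -1 ≤ X i a ∧ X i a ≤ 1 := by
    intro i a
    have h1 : |X i a| ≤ ‖X i‖ := by
      have := PiLp.norm_apply_le (X i) a
      rwa [Real.norm_eq_abs] at this
    exact abs_le.1 (h1.trans (hX i))
  obtain ⟨i, -, j, -, hij, he⟩ := Finset.exists_ne_map_eq_of_card_lt_of_maps_to
    (s := (univ : Finset (Fin n))) (t := range m ×ˢ range m)
    (f := fun i => (⌊(X i 0 + 1) * m / 3⌋₊, ⌊(X i 1 + 1) * m / 3⌋₊))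
    (by simpa using hmm)
    (by
      intro i _
      simp only [coe_product, Set.mem_prod, Finset.mem_coe, Finset.mem_range]
      exact ⟨idx_lt hm (hco i 0).1 (hco i 0).2, idx_lt hm (hco i 1).1 (hco i 1).2⟩)
  simp only [Prod.mk.injEq] at he
  have h0 := idx_eq hm (hco i 0).1 (hco j 0).1 he.1
  have h1 := idx_eq hm (hco i 1).1 (hco j 1).1 he.2
  have hdist : dist (X i) (X j) ≤ 6 / m := by
    rw [dist_eq_norm]
    apply abs_le_of_sq_le_sq' _ (by positivity) |>.2
    rw [Pool.Agent.Grain.norm_sq_pl]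
    have e0 : (X i - X j) 0 = X i 0 - X j 0 := rfl
    have e1 : (X i - X j) 1 = X i 1 - X j 1 := rfl
    rw [e0, e1, ← sq_abs (X i 0 - X j 0), ← sq_abs (X i 1 - X j 1)]
    have g0 : |X i 0 - X j 0| ^ 2 ≤ (3 / m : ℝ) ^ 2 := by gcongr
    have g1 : |X i 1 - X j 1| ^ 2 ≤ (3 / m : ℝ) ^ 2 := by gcongr
    have e6 : (6 / m : ℝ) ^ 2 = 4 * (3 / m : ℝ) ^ 2 := by ring
    have := sq_nonneg (3 / m : ℝ)
    linarith
  have hsq : √(n : ℝ) ≤ 2 * m := by
    apply Real.sqrt_le_iff.2
    refine ⟨by positivity, ?_⟩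
    have h2 : (n : ℝ) ≤ ((m : ℝ) + 1) * (m + 1) := by exact_mod_cast hn2
    have h3 : (1 : ℝ) ≤ m := by exact_mod_cast hm
    nlinarith
  have hn0 : (0 : ℝ) < √(n : ℝ) := Real.sqrt_pos.2 (by exact_mod_cast (by omega : 0 < n))
  calc D ≤ dist (X i) (X j) := hD i j hij
    _ ≤ 6 / m := hdist
    _ ≤ 12 / √(n : ℝ) := by
      rw [div_le_div_iff₀ hm' hn0]
      nlinarith

/-- two vectors whose directions have nearly the same slope, and the same sign -/
private theorem angle_of_slope {x y : EuclideanSpace ℝ (Fin 2)} {a b : Fin 2} (hab : a ≠ b) {δ : ℝ}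
    (hx : |x a| ≤ |x b|) (hy : |y a| ≤ |y b|) (hxy : 0 < x b * y b)
    (hδ : |x a / x b - y a / y b| ≤ δ) :
    InnerProductGeometry.angle x y ≤ Real.pi / 2 * δ := by
  have hxb : x b ≠ 0 := left_ne_zero_of_mul hxy.ne'
  have hyb : y b ≠ 0 := right_ne_zero_of_mul hxy.ne'
  have hnx : |x b| ≤ ‖x‖ := by
    have := PiLp.norm_apply_le x b
    rwa [Real.norm_eq_abs] at this
  have hny : |y b| ≤ ‖y‖ := by
    have := PiLp.norm_apply_le y b
    rwa [Real.norm_eq_abs] at this
  have hpx : 0 < ‖x‖ := lt_of_lt_of_le (abs_pos.2 hxb) hnx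
  have hpy : 0 < ‖y‖ := lt_of_lt_of_le (abs_pos.2 hyb) hny
  have hin : 0 ≤ inner ℝ x y := by
    have e : inner ℝ x y = x a * y a + x b * y b := by
      rw [Pool.Agent.Grain.inner_pl]
      fin_cases a <;> fin_cases b <;> simp at hab ⊢
      ring
    rw [e]
    have h1 : |x a * y a| ≤ |x b * y b| := by
      rw [abs_mul, abs_mul]
      gcongr
    rw [abs_of_pos hxy] at h1
    linarith [neg_abs_le (x a * y a)]
  have hcr : |Pool.Agent.Grain.cr x y| = |x a * y b - x b * y a| := by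
    rw [Pool.Agent.Grain.cr]
    fin_cases a <;> fin_cases b <;> simp at hab ⊢
    rw [abs_sub_comm]
  have hcr' : |Pool.Agent.Grain.cr x y| ≤ δ * (‖x‖ * ‖y‖) := by
    rw [hcr]
    have e : x a * y b - x b * y a = (x b * y b) * (x a / x b - y a / y b) := by
      field_simp
    rw [e, abs_mul, abs_mul]
    have hδ0 : 0 ≤ δ := (abs_nonneg _).trans hδ
    calc |x b| * |y b| * |x a / x b - y a / y b| ≤ ‖x‖ * ‖y‖ * δ := by gcongr
      _ = δ * (‖x‖ * ‖y‖) := by ring
  have hang := Pool.Agent.Grain.angle_le hin hpx hpy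
  have hP : 0 < ‖x‖ * ‖y‖ := mul_pos hpx hpy
  have hpi := Real.pi_pos
  have : InnerProductGeometry.angle x y * (‖x‖ * ‖y‖) ≤ (Real.pi / 2 * δ) * (‖x‖ * ‖y‖) := by
    calc _ ≤ Real.pi / 2 * |Pool.Agent.Grain.cr x y| := hang
      _ ≤ Real.pi / 2 * (δ * (‖x‖ * ‖y‖)) := by gcongr
      _ = _ := by ring
  exact le_of_mul_le_mul_right this hP

/-- the slope of a vector, measured from the axis it is closest to -/
private noncomputable def slp (x : EuclideanSpace ℝ (Fin 2)) : ℝ :=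
  if |x 0| ≤ |x 1| then x 0 / x 1 else x 1 / x 0

open Classical in
/-- the larger coordinate and its sign -/
private noncomputable def typ (x : EuclideanSpace ℝ (Fin 2)) : Bool × Bool :=
  if |x 0| ≤ |x 1| then (true, decide (0 < x 1)) else (false, decide (0 < x 0))

private theorem slp_abs (x : EuclideanSpace ℝ (Fin 2)) : -1 ≤ slp x ∧ slp x ≤ 1 := by
  rw [← abs_le, slp]
  split_ifs with h
  · rw [abs_div]
    exact div_le_one_of_le₀ h (abs_nonneg _)
  · rw [abs_div]
    exact div_le_one_of_le₀ (le_of_lt (not_le.1 h)) (abs_nonneg _)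

private theorem same_sign {u v : ℝ} (hu : u ≠ 0) (hv : v ≠ 0) (h : 0 < u ↔ 0 < v) :
    0 < u * v := by
  rcases lt_or_gt_of_ne hu with h1 | h1
  · have : ¬ 0 < v := fun h2 => absurd (h.2 h2) (not_lt.2 h1.le)
    exact mul_pos_of_neg_of_neg h1 (lt_of_le_of_ne (not_lt.1 this) hv)
  · exact mul_pos h1 (h.1 h1)

private theorem angle_of_typ {x y : EuclideanSpace ℝ (Fin 2)} (hx : x ≠ 0) (hy : y ≠ 0)
    (ht : typ x = typ y) {δ : ℝ} (hδ : |slp x - slp y| ≤ δ) :
    InnerProductGeometry.angle x y ≤ Real.pi / 2 * δ := by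
  have hne : ∀ z : EuclideanSpace ℝ (Fin 2), z ≠ 0 → |z 0| ≤ |z 1| → z 1 ≠ 0 := by
    intro z hz h h1
    apply hz
    rw [h1, abs_zero, abs_nonpos_iff] at h
    ext i
    fin_cases i
    · simpa using h
    · simpa using h1
  have hne' : ∀ z : EuclideanSpace ℝ (Fin 2), z ≠ 0 → ¬ |z 0| ≤ |z 1| → z 0 ≠ 0 := by
    intro z hz h h1
    rw [h1, abs_zero] at h
    exact h (abs_nonneg _)
  by_cases h1 : |x 0| ≤ |x 1| <;> by_cases h2 : |y 0| ≤ |y 1|
  · simp only [typ, h1, h2, if_true, Prod.mk.injEq, true_and, decide_eq_decide] at ht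
    simp only [slp, h1, h2, if_true] at hδ
    exact angle_of_slope (a := 0) (b := 1) (by decide) h1 h2
      (same_sign (hne x hx h1) (hne y hy h2) ht) hδ
  · simp [typ, h1, h2] at ht
  · simp [typ, h1, h2] at ht
  · simp only [typ, h1, h2, if_false, Prod.mk.injEq, true_and, decide_eq_decide] at ht
    simp only [slp, h1, h2, if_false] at hδ
    exact angle_of_slope (a := 1) (b := 0) (by decide) (le_of_lt (not_le.1 h1))
      (le_of_lt (not_le.1 h2)) (same_sign (hne' x hx h1) (hne' y hy h2) ht) hδ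

/-- `n` points of the plane have an angle of size at most `C / n` -/
theorem angle_bound : ∃ C : ℝ, 0 < C ∧ ∀ (n : ℕ) (X : Fin n → EuclideanSpace ℝ (Fin 2)) (A : ℝ),
    3 ≤ n → Function.Injective X →
    (∀ i j k : Fin n, i ≠ j → j ≠ k → i ≠ k → A ≤ EuclideanGeometry.angle (X i) (X j) (X k)) →
    A ≤ C / n := by
  have hpi := Real.pi_pos
  refine ⟨21 * Real.pi, by positivity, fun n X A hn hX hA => ?_⟩
  have hn' : (0 : ℝ) < n := by exact_mod_cast (by omega : 0 < n)
  by_cases h6 : n < 6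
  · have h1 : A ≤ Real.pi :=
      (hA ⟨0, by omega⟩ ⟨1, by omega⟩ ⟨2, by omega⟩ (by simp) (by simp) (by simp)).trans
        (EuclideanGeometry.angle_le_pi _ _ _)
    refine h1.trans ?_
    rw [le_div_iff₀ hn']
    have h2 : (n : ℝ) < 6 := by exact_mod_cast h6
    nlinarith
  · rw [not_lt] at h6
    set m := (n - 2) / 4 with hmdef
    have hm : 0 < m := by omega
    have hm' : (0 : ℝ) < m := by exact_mod_cast hm
    have h14 : n ≤ 14 * m := by omega
    let j : Fin n := ⟨0, by omega⟩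
    obtain ⟨i, hi, k, hk, hik, he⟩ := Finset.exists_ne_map_eq_of_card_lt_of_maps_to
      (s := (univ.erase j : Finset (Fin n))) (t := (univ : Finset (Bool × Bool)) ×ˢ range m)
      (f := fun i => (typ (X i - X j), ⌊(slp (X i - X j) + 1) * m / 3⌋₊))
      (by
        rw [card_product, card_range, card_erase_of_mem (mem_univ _), card_univ, card_univ,
          Fintype.card_prod, Fintype.card_bool, Fintype.card_fin]
        omega)
      (by
        intro i _
        simp only [coe_product, Set.mem_prod, Finset.mem_coe, Finset.mem_range, mem_univ,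
          true_and]
        exact idx_lt hm (slp_abs _).1 (slp_abs _).2)
    simp only [Prod.mk.injEq] at he
    have hij : i ≠ j := (Finset.mem_erase.1 hi).1
    have hkj : k ≠ j := (Finset.mem_erase.1 hk).1
    have h1 := idx_eq hm (slp_abs _).1 (slp_abs _).1 he.2
    have h2 := angle_of_typ (sub_ne_zero.2 (hX.ne hij)) (sub_ne_zero.2 (hX.ne hkj)) he.1 h1
    have h3 : A ≤ Real.pi / 2 * (3 / m) := (hA i j k hij hkj.symm hik).trans h2
    refine h3.trans ?_
    have h4 : (n : ℝ) ≤ 14 * m := by exact_mod_cast h14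
    rw [div_mul_div_comm, div_le_div_iff₀ (by positivity) hn']
    nlinarith

end Hilo
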